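import Pool.Agent.P.MP_5bcbab_al.Seq

namespace Pool.Agent.P.MP_5bcbab_al

open TensorAlgebra Module Finsupp

set_option maxHeartbeats 400000

section gen
variable {V W : Type} [AddCommGroup V] [Module ℂ V] [AddCommGroup W] [Module ℂ W]
  {Z B : Submodule ℂ V}

theorem subq_zero (h : Z ≤ B) : subqDim Z B = 0 := by
  have : B.submoduleOf Z = ⊤ := eq_top_iff.2 fun x _ => h x.2
  rw [subqDim, this]
  exact rank_subsingleton' _ _

theorem subq_one (φ : V →ₗ[ℂ] ℂ) (h : ∀ x ∈ Z, x ∈ B ↔ φ x = 0) {z : V} (hz : z ∈ Z)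
    (h1 : φ z = 1) : subqDim Z B = 1 := by
  have : B.submoduleOf Z = LinearMap.ker (φ ∘ₗ Z.subtype) := Submodule.ext fun x => h x x.2
  rw [subqDim, this, ((φ ∘ₗ Z.subtype).quotKerEquivOfSurjective fun c =>
    ⟨c • ⟨z, hz⟩, by simp [h1]⟩).rank_eq]
  simp

theorem subq_le (φ : V →ₗ[ℂ] W) (h : ∀ x ∈ Z, φ x = 0 → x ∈ B) :
    subqDim Z B ≤ Module.rank ℂ W := by
  have k : LinearMap.ker (φ ∘ₗ Z.subtype) ≤ B.submoduleOf Z := fun x hx => h x x.2 hx
  refine (LinearMap.rank_le_of_surjective (Submodule.factor k)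
    (Submodule.factor_surjective k)).trans ?_
  rw [(φ ∘ₗ Z.subtype).quotKerEquivRange.rank_eq]
  exact Submodule.rank_le _

theorem subq_ge (c : ℕ → V) (hc : ∀ i, c i ∈ Z)
    (h : ∀ a : ℕ →₀ ℂ, linearCombination ℂ c a ∈ B → a = 0) : Cardinal.aleph0 ≤ subqDim Z B := by
  have : LinearIndependent ℂ fun i => (B.submoduleOf Z).mkQ ⟨c i, hc i⟩ := by
    refine linearIndependent_iff.2 fun a ha => h a ?_
    have e1 : linearCombination ℂ (fun i => (B.submoduleOf Z).mkQ ⟨c i, hc i⟩) a =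
        (B.submoduleOf Z).mkQ (linearCombination ℂ (fun i => (⟨c i, hc i⟩ : Z)) a) := by
      rw [apply_linearCombination]
      rfl
    rw [e1, Submodule.mkQ_apply, Submodule.Quotient.mk_eq_zero] at ha
    have e2 : Z.subtype (linearCombination ℂ (fun i => (⟨c i, hc i⟩ : Z)) a) =
        linearCombination ℂ c a := by
      rw [apply_linearCombination]
      rfl
    rw [← e2]
    exact ha
  simpa [subqDim] using this.cardinal_le_rank

end gen

variable {A : Type} [Ring A] [Algebra ℂ A] (e : A →ₐ[ℂ] ℂ)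

/-- realisation of formal chains -/
noncomputable def PP : (List A →₀ ℂ) →ₗ[ℂ] TT A := nrm e ∘ₗ linearCombination ℂ tm

@[simp] theorem PP_single (l : List A) (c : ℂ) : PP e (single l c) = c • nrm e (tm l) := by
  simp [PP]

theorem cons_Rel (a : A) : Rel A ≤ (Rel A).comap (lmapDomain ℂ ℂ (a :: ·)) := by
  refine Submodule.span_le.2 ?_
  rintro _ ⟨u, v, b, b', c, rfl | rfl | rfl⟩
  · exact Submodule.subset_span ⟨a :: u, v, b, b', c, Or.inl (by simp [mapDomain_sub])⟩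
  · exact Submodule.subset_span ⟨a :: u, v, b, b', c, Or.inr (Or.inl (by simp [mapDomain_sub]))⟩
  · exact Submodule.subset_span ⟨b :: u, v, a, b', c, Or.inr (Or.inr (by simp))⟩

/-- prepending a letter on classes -/
noncomputable def LL : A →ₗ[ℂ] Module.End ℂ ((List A →₀ ℂ) ⧸ Rel A) where
  toFun a := (Rel A).mapQ (Rel A) _ (cons_Rel a)
  map_add' a b := by
    ext l
    simp only [LinearMap.comp_apply, lsingle_apply, Submodule.mkQ_apply, Submodule.mapQ_apply,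
      LinearMap.add_apply, lmapDomain_apply, mapDomain_single]
    rw [← Submodule.Quotient.mk_add, Submodule.Quotient.eq, ← sub_sub]
    exact Submodule.subset_span ⟨[], l, a, b, 0, Or.inl rfl⟩
  map_smul' c a := by
    ext l
    simp only [LinearMap.comp_apply, lsingle_apply, Submodule.mkQ_apply, Submodule.mapQ_apply,
      LinearMap.smul_apply, lmapDomain_apply, mapDomain_single, RingHom.id_apply]
    rw [← Submodule.Quotient.mk_smul, Submodule.Quotient.eq, smul_single, smul_eq_mul, mul_one]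
    exact Submodule.subset_span ⟨[], l, a, a, c, Or.inr (Or.inl rfl)⟩

theorem LL_mk (a : A) (l : List A) :
    LL a ((Rel A).mkQ (single l 1)) = (Rel A).mkQ (single (a :: l) 1) := by
  simp [LL]

theorem LL_one (a : A) (x : (List A →₀ ℂ) ⧸ Rel A) : LL a (LL 1 x) = 0 := by
  have : LL a ∘ₗ LL (1 : A) = 0 := by
    ext l
    simp only [LinearMap.comp_apply, lsingle_apply, LL_mk, LinearMap.zero_apply]
    exact (Submodule.Quotient.mk_eq_zero _).2
      (Submodule.subset_span ⟨[], l, a, a, 0, Or.inr (Or.inr rfl)⟩)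
  exact LinearMap.congr_fun this x

theorem PP_eq_zero {x : List A →₀ ℂ} : PP e x = 0 ↔ x ∈ Rel A := by
  refine ⟨fun h => ?_, fun h => (Submodule.span_le (p := LinearMap.ker (PP e))).2 ?_ h⟩
  · set Ψ : TT A →ₗ[ℂ] _ := recT ((Rel A).mkQ (single [] 1)) 0 LL with hΨ
    have h1 : ∀ a y, Ψ (ι ℂ a * y) = LL a (Ψ y) := fun a y => by simp [hΨ]
    have h2 : Ψ ∘ₗ linearCombination ℂ tm = (Rel A).mkQ := by
      ext l
      simp only [LinearMap.comp_apply, lsingle_apply, linearCombination_single, one_smul]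
      induction l with
      | nil => simp [hΨ]
      | cons a l ih => rw [tm_cons, h1, ih, LL_mk]
    have h3 : ∀ y a, LL a (Ψ (rho e y)) = LL a (Ψ y) := by
      intro y
      induction y using left_ind with
      | hadd x y hx hy => simp [hx, hy]
      | hsmul r x hx => simp [hx]
      | h1 => simp
      | hc b y ih => simp [h1, pr_apply, sub_mul, ih, LL_one]
    have h4 : ∀ y, Ψ (nrm e y) = Ψ y :=
      left_ext (f := Ψ ∘ₗ nrm e) (by simp) (fun a y _ => by simp [h1, h3])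
    have := congrArg Ψ h
    rw [PP, LinearMap.comp_apply, h4, map_zero, ← LinearMap.comp_apply, h2] at this
    exact (Submodule.Quotient.mk_eq_zero _).1 this
  · rintro _ ⟨u, v, b, b', c, rfl | rfl | rfl⟩
    · simp [mul_add, add_mul]
    · simp
    · simp

omit [Ring A] [Algebra ℂ A] in
theorem supp_ext {W : Type} [AddCommGroup W] [Module ℂ W] {f g : (List A →₀ ℂ) →ₗ[ℂ] W}
    {S : Set (List A)} (h : ∀ l ∈ S, f (single l 1) = g (single l 1)) {x : List A →₀ ℂ}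
    (hx : x ∈ supported ℂ ℂ S) : f x = g x := by
  rw [supported_eq_span_single] at hx
  exact LinearMap.eqOn_span' (by rintro _ ⟨l, hl, rfl⟩; exact h l hl) hx

theorem PP_totD {I : Set ℕ} {c : ℕ → List A →₀ ℂ} (hc : c ∈ Tot A I) (j : ℕ) :
    PP e (totD A c j) = DD e (fun j => PP e (c j)) j := by
  have h1 : PP e (hochB A (c (j + 1))) = bb (PP e (c (j + 1))) := by
    refine supp_ext (f := PP e ∘ₗ hochB A) (g := bb ∘ₗ PP e) (fun l hl => ?_) (hc (j + 1) trivial)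
    have h2 : tm l ∈ Al ⊤ (j + 1 + 1) := hl.1 ▸ tm_mem fun _ _ => trivial
    simp only [LinearMap.comp_apply, hochB, linearCombination_single, one_smul, PP_single, map_add,
      map_sum, ← nrm_bb]
    rw [bb_apply, bp_tm, tt_eq h2, tau_pow_tm l _ hl.1, map_smul, d0_tm _ (by simp [hl.1]), hl.1]
    have h3 : (-1 : ℂ) ^ ((j + 1) * (j + 1)) = (-1) ^ (j + 1) := by
      rcases Nat.even_or_odd (j + 1) with h | h
      · rw [h.neg_one_pow, (h.mul_right _).neg_one_pow]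
      · rw [h.neg_one_pow, (h.mul h).neg_one_pow]
    simp [h3]
  obtain _ | j := j
  · simp [totD, DD, h1]
  have h2 : PP e (connesB A (c j)) = Bt e (j + 1) (PP e (c j)) := by
    refine supp_ext (f := PP e ∘ₗ connesB A) (g := Bt e (j + 1) ∘ₗ PP e) (fun l hl => ?_)
      (hc j trivial)
    simp only [LinearMap.comp_apply, connesB, linearCombination_single, one_smul, PP_single,
      map_sum, Bt_apply, rho_nrm, ← rho_Nn]
    simp [Nn_apply, tau_pow_tm l _ hl.1, hl.1, Finset.mul_sum]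
  simp [totD, DD, h1, h2]

theorem exists_Tot {I : Set ℕ} {c : ℕ → TT A} (hc : InT e I c) :
    ∃ x ∈ Tot A I, ∀ j, PP e (x j) = c j := by
  have : ∀ j, ∃ x ∈ supported ℂ ℂ {l : List A | l.length = j + 1 ∧ j ∈ I}, PP e x = c j := by
    intro j
    by_cases hj : j ∈ I
    · rw [← nrm_of_mem e (hc j).1]
      exact al_mem (nrm e) (V := (supported ℂ ℂ {l : List A | l.length = j + 1 ∧ j ∈ I}).map (PP e))
        (fun l hl _ => ⟨single l 1, single_mem_supported ℂ _ ⟨hl, hj⟩, by simp⟩)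
        (GG_le e j (hc j).1)
    · exact ⟨0, zero_mem _, by simp [(hc j).2 hj]⟩
  choose x h1 h2 using this
  exact ⟨x, fun j _ => h1 j, h2⟩

theorem InT_PP {I : Set ℕ} {c : ℕ → List A →₀ ℂ} (hc : c ∈ Tot A I) :
    InT e I fun j => PP e (c j) := by
  intro j
  have h : c j ∈ supported ℂ ℂ {l : List A | l.length = j + 1 ∧ j ∈ I} := hc j trivial
  refine ⟨?_, fun hj => supp_ext (g := 0) (fun l hl => absurd hl.2 hj) h⟩
  rw [supported_eq_span_single] at h
  refine (Submodule.span_le (p := (GG e j).comap (PP e))).2 ?_ h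
  rintro _ ⟨l, hl, rfl⟩
  simpa using nrm_mem e (hl.1 ▸ tm_mem (l := l) fun _ _ => trivial)

theorem mem_Z {J K : Set ℕ} {c : ℕ → List A →₀ ℂ} :
    c ∈ Tot A J ⊓ (Submodule.pi K fun _ => Rel A).comap (totD A) ↔
      c ∈ Tot A J ∧ ∀ j ∈ K, DD e (fun j => PP e (c j)) j = 0 :=
  and_congr_right fun h => forall₂_congr fun j _ => by rw [← PP_totD e h, PP_eq_zero]; rfl

theorem mem_B {I J : Set ℕ} {c : ℕ → List A →₀ ℂ} :
    c ∈ (Tot A I).map (totD A) ⊔ (Submodule.pi J fun _ => Rel A) ↔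
      ∃ x, InT e I x ∧ ∀ j ∈ J, PP e (c j) = DD e x j := by
  constructor
  · intro h
    obtain ⟨_, ⟨x, hx, rfl⟩, r, hr, rfl⟩ := Submodule.mem_sup.1 h
    exact ⟨_, InT_PP e hx, fun j hj => by
      rw [Pi.add_apply, map_add, (PP_eq_zero e).2 (hr j hj), PP_totD e hx, add_zero]⟩
  · rintro ⟨x, hx, h⟩
    obtain ⟨y, hy, h1⟩ := exists_Tot e hx
    refine Submodule.mem_sup.2 ⟨_, ⟨y, hy, rfl⟩, c - totD A y, fun j hj => (PP_eq_zero e).1 ?_,
      by simp⟩
    rw [Pi.sub_apply, map_sub, PP_totD e hy, h j hj, funext h1, sub_self]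

theorem hdim_zero {I J K : Set ℕ} (h : ∀ c, InT e J c → (∀ j ∈ K, DD e c j = 0) →
    ∃ x, InT e I x ∧ ∀ j ∈ J, c j = DD e x j) : hdim A I J K = 0 :=
  subq_zero fun _ hc => (mem_B e).2 (h _ (InT_PP e ((mem_Z e).1 hc).1) ((mem_Z e).1 hc).2)

theorem hdim_one {I J K : Set ℕ} (hJ : 0 ∈ J) (h : ∀ c, InT e J c → (∀ j ∈ K, DD e c j = 0) →
    co e.toLinearMap (c 0) = 0 → ∃ x, InT e I x ∧ ∀ j ∈ J, c j = DD e x j) :
    hdim A I J K = 1 := by
  refine subq_one (algebraMapInv.toLinearMap ∘ₗ co e.toLinearMap ∘ₗ PP e ∘ₗ LinearMap.proj 0)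
    (fun c hc => ⟨fun hb => ?_, fun h0 => ?_⟩) (z := Pi.single 0 (single [1] 1)) ?_ ?_
  · obtain ⟨x, hx, h1⟩ := (mem_B e).1 hb
    have h2 := (hx 1).1
    simp only [LinearMap.comp_apply, LinearMap.proj_apply, h1 0 hJ, DD, Bt_zero, add_zero]
    rw [zero_add, bb_GG e h2, map_add, co_T e (bb_GG_mem e h2),
      bp_zero (Al_mono le_top _ (co_mem _ h2))]
    simp
  · have h1 := InT_PP e ((mem_Z e).1 hc).1
    refine (mem_B e).2 (h _ h1 ((mem_Z e).1 hc).2 ?_)
    obtain ⟨a, ha⟩ := Submodule.mem_span_singleton.1 (co_mem e.toLinearMap (h1 0).1)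
    simp only [LinearMap.comp_apply, LinearMap.proj_apply] at h0
    rw [← ha] at h0 ⊢
    simp at h0
    simp [h0]
  · refine (mem_Z e).2 ⟨fun j _ => ?_, fun j _ => ?_⟩
    · by_cases hj : j = 0
      · subst hj
        exact single_mem_supported ℂ _ ⟨rfl, hJ⟩
      · simp [hj]
    · by_cases hj : j - 1 = 0 <;> simp [DD, hj, Bt_apply]
  · have := co_cons e.toLinearMap 1 1
    simp at this
    simp [this]

include e in
theorem hdim_le {L : Type} [Countable L] (m : Basis L ℂ A) {I J K : Set ℕ} (hJ : J.Finite) :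
    hdim A I J K ≤ Cardinal.aleph0 := by
  have := hJ.fintype
  refine (subq_le (LinearMap.pi fun j : J => PP e ∘ₗ LinearMap.proj j.1)
    fun c _ h => Submodule.mem_sup_right ?_).trans ?_
  · exact fun j hj => (PP_eq_zero e).1 (congrFun h ⟨j, hj⟩)
  rw [rank_fun, ← m.tensorAlgebra.mk_eq_rank'', ← Cardinal.aleph0_mul_aleph0]
  exact mul_le_mul' Cardinal.natCast_lt_aleph0.le Cardinal.mk_le_aleph0

theorem Inf.le {K : ℕ} (h : Inf e K) : Cardinal.aleph0 ≤ dimHC A K := by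
  obtain ⟨c, hc, h⟩ := h
  choose x h1 h2 using fun i => exists_Tot e (hc i).1
  refine subq_ge x (fun i => (mem_Z e).2 ⟨h1 i, fun j hj => ?_⟩) fun a ha => ?_
  · rw [funext (h2 i)]
    exact (hc i).2 j hj.1 hj.2
  · obtain ⟨y, hy, h3⟩ := (mem_B e).1 ha
    refine h a _ (hy (K + 1)).1 (y (K - 1)) (Eq.trans ?_ (h3 K ⟨le_rfl, rfl⟩))
    simp [linearCombination_apply, Finsupp.sum, h2]

theorem Gr.main {L : Type} [Countable L] {m : Basis L ℂ A} {wt : L → ℕ} {E : A →ₗ[ℂ] A}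
    (h : Gr e m wt E) {N : ℕ} (hT : Tor e N) (hN : 0 < N) (hI : ∀ k < N, Inf e k) :
    (∀ k, dimHC A k = if k < N then Cardinal.aleph0 else if Even k then 1 else 0) ∧
      dimHP A 0 = 1 ∧ dimHP A 1 = 0 := by
  refine ⟨fun k => ?_, hdim_one e rfl fun c h1 h2 h3 => h.hp_van hT two_pos h1 h2 h3,
    hdim_zero e fun c h1 h2 => h.hp_van hT one_lt_two h1 h2 (by rw [(h1 0).2 (by simp), map_zero])⟩
  split_ifs with h1 h2
  · exact le_antisymm (hdim_le e m ((Set.finite_le_nat k).subset fun j hj => hj.1))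
      ((hI k h1).le e)
  all_goals obtain ⟨k, rfl⟩ : ∃ k', k = k' + 1 := ⟨k - 1, by omega⟩
  · exact hdim_one e ⟨by omega, (Nat.even_iff.1 h2).symm⟩ fun c h3 h4 h5 =>
      h.hc_van hT (by omega) ⟨h3, fun j a b => h4 j ⟨a, b⟩⟩ h5
  · exact hdim_zero e fun c h3 h4 => h.hc_van hT (by omega) ⟨h3, fun j a b => h4 j ⟨a, b⟩⟩
      (by rw [(h3 0).2 fun hc => h2 (Nat.even_iff.2 hc.2.symm), map_zero])

section map
variable {B : Type} [Ring B] [Algebra ℂ B] (φ : A →ₐ[ℂ] B)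

/-- induced map on tensor algebras -/
noncomputable def Tm : TT A →ₐ[ℂ] TT B := lift ℂ (ι ℂ ∘ₗ φ.toLinearMap)

@[simp] theorem Tm_ι (a : A) : Tm φ (ι ℂ a) = ι ℂ (φ a) := by simp [Tm]

theorem Tm_gam (x : TT A) : Tm φ (gam x) = gam (Tm φ x) :=
  left_ext (f := (Tm φ).toLinearMap ∘ₗ gam.toLinearMap) (g := gam.toLinearMap ∘ₗ (Tm φ).toLinearMap)
    (by simp) (fun a x h => by simp at h; simp [h]) x

theorem Tm_mul1 (a : A) (x : TT A) : Tm φ (mul1 a x) = mul1 (φ a) (Tm φ x) :=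
  left_ext (f := (Tm φ).toLinearMap ∘ₗ mul1 a) (g := mul1 (φ a) ∘ₗ (Tm φ).toLinearMap)
    (by simp) (fun b x _ => by simp) x

theorem Tm_bp (x : TT A) : Tm φ (bp x) = bp (Tm φ x) :=
  left_ext (f := (Tm φ).toLinearMap ∘ₗ bp) (g := bp ∘ₗ (Tm φ).toLinearMap)
    (by simp) (fun b x h => by simp at h; simp [bp_cons, Tm_mul1, h]) x

theorem Tm_tt (x : TT A) : Tm φ (tt x) = tt (Tm φ x) :=
  right_ext (f := (Tm φ).toLinearMap ∘ₗ tt) (g := tt ∘ₗ (Tm φ).toLinearMap)
    (by simp) (fun b x _ => by simp [tt_snoc, Tm_gam]) x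

theorem Tm_bb (x : TT A) : Tm φ (bb x) = bb (Tm φ x) := by
  have : ∀ x, Tm φ (d0 x) = d0 (Tm φ x) := left_ext (f := (Tm φ).toLinearMap ∘ₗ d0)
    (g := d0 ∘ₗ (Tm φ).toLinearMap) (by simp) (fun b x _ => by simp [Tm_mul1])
  simp only [bb_apply, map_add, Tm_bp, this, Tm_tt]

theorem Tm_Nn (p : ℕ) (x : TT A) : Tm φ (Nn p x) = Nn p (Tm φ x) := by
  have : ∀ x, Tm φ (tau x) = tau (Tm φ x) := left_ext (f := (Tm φ).toLinearMap ∘ₗ tau)
    (g := tau ∘ₗ (Tm φ).toLinearMap) (by simp) (fun b x _ => by simp [Tm_gam])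
  rw [Nn_apply, Nn_apply, map_sum]
  refine Finset.sum_congr rfl fun i hi => ?_
  clear hi
  induction i with
  | zero => simp
  | succ i ih => simp only [pow_succ', Module.End.mul_apply, this, ih]

theorem Tm_Al {S : Submodule ℂ A} {S' : Submodule ℂ B} (h : ∀ a ∈ S, φ a ∈ S') {p : ℕ} {x : TT A}
    (hx : x ∈ Al S p) : Tm φ x ∈ Al S' p := by
  induction p generalizing x with
  | zero =>
    obtain ⟨c, rfl⟩ := Submodule.mem_span_singleton.1 hx
    simpa using Submodule.smul_mem _ c (one_mem_Al _)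
  | succ p ih =>
    exact cn_mem (Tm φ).toLinearMap (fun a ha y hy => by
      simpa [Al] using cons_mem (h a ha) (ih hy)) hx

variable {e} {e' : B →ₐ[ℂ] ℂ} (he : ∀ a, e' (φ a) = e a)
include he

theorem Tm_Bt (p : ℕ) (x : TT A) : Tm φ (Bt e p x) = Bt e' p (Tm φ x) := by
  have : ∀ x, Tm φ (rho e x) = rho e' (Tm φ x) := left_ext
    (f := (Tm φ).toLinearMap ∘ₗ (rho e).toLinearMap)
    (g := (rho e').toLinearMap ∘ₗ (Tm φ).toLinearMap) (by simp)
    (fun b x h => by simp at h; simp [h, pr_apply, he])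
  simp [Bt_apply, Tm_Nn, this]

theorem Tm_GG {p : ℕ} {x : TT A} (hx : x ∈ GG e p) : Tm φ x ∈ GG e' p :=
  cn_mem (Tm φ).toLinearMap (fun a _ y hy => by
    simpa [GG] using cons_mem (R := ⊤) (a := φ a) trivial
      (Tm_Al φ (S' := Ap e') (fun b hb => (he b).trans hb) hy)) hx

theorem Inf.map (ψ : B →ₐ[ℂ] A) (he' : ∀ b, e (ψ b) = e' b) (hψ : ∀ a, ψ (φ a) = a) {K : ℕ}
    (h : Inf e K) : Inf e' K := by
  obtain ⟨c, hc, h⟩ := h
  have k : ∀ x, Tm ψ (Tm φ x) = x := left_ext (f := (Tm ψ).toLinearMap ∘ₗ (Tm φ).toLinearMap)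
    (g := LinearMap.id) (by simp) (fun b x h => by simp at h; simp [h, hψ])
  refine ⟨fun i j => Tm φ (c i j), fun i => ⟨fun j => ⟨Tm_GG φ he ((hc i).1 j).1, fun hj => by
    simp [((hc i).1 j).2 hj]⟩, fun j h1 h2 => ?_⟩, fun a x hx y h1 => ?_⟩
  · rw [DD, ← Tm_bb, ← Tm_Bt φ he, ← map_add, ← DD, (hc i).2 j h1 h2, map_zero]
  · refine h a _ (Tm_GG ψ he' hx) (Tm ψ y) ?_
    rw [← Tm_bb, ← Tm_Bt ψ he', ← map_add, ← h1]
    simp [linearCombination_apply, Finsupp.sum, k]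

end map

end Pool.Agent.P.MP_5bcbab_al
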