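import Pool.Agent.P.MP_5bcbab_al.Ten

namespace Pool.Agent.P.MP_5bcbab_al

open TensorAlgebra

variable {A : Type} [Ring A] [Algebra ℂ A]

/-- first letter in `R`, tail in `U` -/
noncomputable def Cn (R : Submodule ℂ A) (U : Submodule ℂ (TT A)) : Submodule ℂ (TT A) :=
  Submodule.map₂ cons R U

theorem cons_mem {R : Submodule ℂ A} {U : Submodule ℂ (TT A)} {a : A} {x : TT A} (ha : a ∈ R)
    (hx : x ∈ U) : ι ℂ a * x ∈ Cn R U := Submodule.apply_mem_map₂ cons ha hx

theorem Cn_mono {R R' : Submodule ℂ A} {U U' : Submodule ℂ (TT A)} (h : R ≤ R') (h' : U ≤ U') :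
    Cn R U ≤ Cn R' U' := Submodule.map₂_le_map₂ h h'

theorem cn_mem {W : Type} [AddCommGroup W] [Module ℂ W] {R : Submodule ℂ A}
    {U : Submodule ℂ (TT A)} (f : TT A →ₗ[ℂ] W) {V : Submodule ℂ W}
    (h : ∀ a ∈ R, ∀ x ∈ U, f (ι ℂ a * x) ∈ V) {y : TT A} (hy : y ∈ Cn R U) : f y ∈ V :=
  (Submodule.map₂_le (r := V.comap f)).2 h hy

theorem cn_ext {W : Type} [AddCommGroup W] [Module ℂ W] {R : Submodule ℂ A}
    {U : Submodule ℂ (TT A)} {f g : TT A →ₗ[ℂ] W}
    (h : ∀ a ∈ R, ∀ x ∈ U, f (ι ℂ a * x) = g (ι ℂ a * x)) {y : TT A} (hy : y ∈ Cn R U) :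
    f y = g y := by
  have := cn_mem (f - g) (V := ⊥) (fun a ha x hx => by simp [h a ha x hx]) hy
  simpa [sub_eq_zero] using this

/-- words of length `p` with letters in `S` -/
noncomputable def Al (S : Submodule ℂ A) : ℕ → Submodule ℂ (TT A)
  | 0 => Submodule.span ℂ {1}
  | p + 1 => Cn S (Al S p)

theorem one_mem_Al (S : Submodule ℂ A) : (1 : TT A) ∈ Al S 0 := Submodule.subset_span rfl

theorem tm_mem {S : Submodule ℂ A} {l : List A} (h : ∀ a ∈ l, a ∈ S) : tm l ∈ Al S l.length := by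
  induction l with
  | nil => exact one_mem_Al S
  | cons a l ih =>
    rw [tm_cons]
    exact cons_mem (h a (by simp)) (ih fun b hb => h b (by simp [hb]))

theorem al_mem {W : Type} [AddCommGroup W] [Module ℂ W] {S : Submodule ℂ A} {p : ℕ}
    (f : TT A →ₗ[ℂ] W) {V : Submodule ℂ W}
    (h : ∀ l : List A, l.length = p → (∀ a ∈ l, a ∈ S) → f (tm l) ∈ V) {y : TT A}
    (hy : y ∈ Al S p) : f y ∈ V := by
  induction p generalizing f y with
  | zero => exact (Submodule.span_le (p := V.comap f)).2 (by simpa using h [] rfl (by simp)) hy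
  | succ p ih =>
    refine cn_mem f (fun a ha x hx => ?_) hy
    refine ih (f ∘ₗ cons a) (fun l hl hS => ?_) hx
    simpa using h (a :: l) (by simp [hl]) (by simpa using ⟨ha, hS⟩)

theorem al_ext {W : Type} [AddCommGroup W] [Module ℂ W] {S : Submodule ℂ A} {p : ℕ}
    {f g : TT A →ₗ[ℂ] W}
    (h : ∀ l : List A, l.length = p → (∀ a ∈ l, a ∈ S) → f (tm l) = g (tm l)) {y : TT A}
    (hy : y ∈ Al S p) : f y = g y := by
  have := al_mem (f - g) (V := ⊥) (fun l h1 h2 => by simp [h l h1 h2]) hy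
  simpa [sub_eq_zero] using this

theorem Al_mono {S S' : Submodule ℂ A} (h : S ≤ S') (p : ℕ) : Al S p ≤ Al S' p := by
  induction p with
  | zero => exact le_rfl
  | succ p ih => exact Cn_mono h ih

theorem mul_mem_Al {S : Submodule ℂ A} {p p' : ℕ} {x y : TT A} (hx : x ∈ Al S p)
    (hy : y ∈ Al S p') : x * y ∈ Al S (p' + p) := by
  induction p generalizing x with
  | zero =>
    obtain ⟨c, rfl⟩ := Submodule.mem_span_singleton.1 hx
    simpa using Submodule.smul_mem _ c hy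
  | succ p ih =>
    refine cn_mem (LinearMap.mulRight ℂ y) (fun a ha x hx => ?_) hx
    rw [LinearMap.mulRight_apply, mul_assoc]
    exact cons_mem ha (ih hx)

theorem ι_mem_Al {S : Submodule ℂ A} {a : A} (ha : a ∈ S) : ι ℂ a ∈ Al S 1 := by
  simpa [Al] using cons_mem ha (one_mem_Al S)

theorem gam_of_mem {S : Submodule ℂ A} {p : ℕ} {x : TT A} (hx : x ∈ Al S p) :
    gam x = (-1 : ℂ) ^ p • x :=
  al_ext (f := gam.toLinearMap) (g := LinearMap.lsmul ℂ (TT A) ((-1 : ℂ) ^ p))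
    (fun l hl _ => by simp [gam_tm, hl]) hx

theorem gam_mem {S : Submodule ℂ A} {p : ℕ} {x : TT A} (hx : x ∈ Al S p) : gam x ∈ Al S p := by
  rw [gam_of_mem hx]
  exact Submodule.smul_mem _ _ hx

theorem tau_mem {S : Submodule ℂ A} {p : ℕ} {x : TT A} (hx : x ∈ Al S (p + 1)) :
    tau x ∈ Al S (p + 1) :=
  cn_mem tau (fun a ha x hx => by
    rw [tau_cons, add_comm]
    exact mul_mem_Al (gam_mem hx) (ι_mem_Al ha)) hx

theorem tau_pow_mem {S : Submodule ℂ A} {p : ℕ} {x : TT A} (hx : x ∈ Al S (p + 1)) (i : ℕ) :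
    (tau ^ i) x ∈ Al S (p + 1) := by
  induction i with
  | zero => simpa using hx
  | succ i ih => rw [pow_succ', Module.End.mul_apply]; exact tau_mem ih

theorem tt_tau {S : Submodule ℂ A} {p : ℕ} {x : TT A} (hx : x ∈ Al S (p + 1)) : tt (tau x) = x :=
  cn_ext (f := tt ∘ₗ tau) (g := LinearMap.id) (fun a _ x _ => tt_tau_cons a x) hx

theorem tau_pow_tm (l : List A) (p : ℕ) (hl : l.length = p + 1) (i : ℕ) :
    (tau ^ i) (tm l) = (-1 : ℂ) ^ (i * p) • tm (l.rotate i) := by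
  induction i generalizing l with
  | zero => simp
  | succ i ih =>
    obtain _ | ⟨a, w⟩ := l
    · simp at hl
    have hw : w.length = p := by simpa using hl
    have := ih (w ++ [a]) (by simp [hw])
    rw [pow_succ, Module.End.mul_apply, tm_cons, tau_cons, gam_tm, smul_mul_assoc, map_smul,
      List.rotate_cons_succ, hw, add_mul, pow_add, one_mul, mul_comm, mul_smul, ← this]
    simp

theorem tau_pow_len {S : Submodule ℂ A} {p : ℕ} {x : TT A} (hx : x ∈ Al S (p + 1)) :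
    (tau ^ (p + 1)) x = x :=
  al_ext (g := LinearMap.id) (fun l hl _ => by
    rw [tau_pow_tm l p hl, ← hl, List.rotate_length, hl, mul_comm,
      (Nat.even_mul_succ_self p).neg_one_pow]
    simp) hx

theorem tt_eq {S : Submodule ℂ A} {p : ℕ} {x : TT A} (hx : x ∈ Al S (p + 1)) :
    tt x = (tau ^ p) x := by
  conv_lhs => rw [← tau_pow_len hx, pow_succ', Module.End.mul_apply]
  exact tt_tau (tau_pow_mem hx p)

theorem tt_mem {S : Submodule ℂ A} {p : ℕ} {x : TT A} (hx : x ∈ Al S (p + 1)) :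
    tt x ∈ Al S (p + 1) := tt_eq hx ▸ tau_pow_mem hx p

theorem tau_tt {S : Submodule ℂ A} {p : ℕ} {x : TT A} (hx : x ∈ Al S (p + 1)) :
    tau (tt x) = x := by
  rw [tt_eq hx, ← Module.End.mul_apply, ← pow_succ', tau_pow_len hx]

/-- the norm operator -/
noncomputable def Nn (p : ℕ) : Module.End ℂ (TT A) := ∑ i ∈ Finset.range p, tau ^ i

theorem Nn_apply (p : ℕ) (x : TT A) : Nn p x = ∑ i ∈ Finset.range p, (tau ^ i) x := by
  simp [Nn, LinearMap.sum_apply]

theorem Nn_mem {S : Submodule ℂ A} {p : ℕ} {x : TT A} (hx : x ∈ Al S (p + 1)) (n : ℕ) :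
    Nn n x ∈ Al S (p + 1) := by
  rw [Nn_apply]
  exact sum_mem fun i _ => tau_pow_mem hx i

theorem Nn_tau {S : Submodule ℂ A} {p : ℕ} {x : TT A} (hx : x ∈ Al S (p + 1)) :
    Nn (p + 1) (tau x) = Nn (p + 1) x := by
  rw [Nn_apply, Nn_apply, Finset.sum_range_succ, Finset.sum_range_succ']
  simp only [← Module.End.mul_apply, ← pow_succ, tau_pow_len hx]
  simp

theorem Nn_tau_pow {S : Submodule ℂ A} {p : ℕ} {x : TT A} (hx : x ∈ Al S (p + 1)) (i : ℕ) :
    Nn (p + 1) ((tau ^ i) x) = Nn (p + 1) x := by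
  induction i with
  | zero => simp
  | succ i ih => rw [pow_succ', Module.End.mul_apply, Nn_tau (tau_pow_mem hx i), ih]

theorem tau_Nn {S : Submodule ℂ A} {p : ℕ} {x : TT A} (hx : x ∈ Al S (p + 1)) :
    tau (Nn (p + 1) x) = Nn (p + 1) x := by
  conv_rhs => rw [← Nn_tau hx]
  rw [Nn_apply, Nn_apply, map_sum]
  simp only [← Module.End.mul_apply, ← pow_succ, ← pow_succ']

theorem tau_pow_fix {x : TT A} (hx : tau x = x) (i : ℕ) : (tau ^ i) x = x := by
  induction i with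
  | zero => simp
  | succ i ih => rw [pow_succ, Module.End.mul_apply, hx, ih]

theorem tt_Nn {S : Submodule ℂ A} {p : ℕ} {x : TT A} (hx : x ∈ Al S (p + 1)) :
    tt (Nn (p + 1) x) = Nn (p + 1) x := by
  rw [tt_eq (Nn_mem hx _), tau_pow_fix (tau_Nn hx)]

theorem Nn_sub_tt {S : Submodule ℂ A} {p : ℕ} {x : TT A} (hx : x ∈ Al S (p + 1)) :
    Nn (p + 1) (x - tt x) = 0 := by
  rw [map_sub, tt_eq hx, Nn_tau_pow hx, sub_self]

theorem Nn_of_fix {S : Submodule ℂ A} {p : ℕ} {x : TT A} (hx : x ∈ Al S (p + 1))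
    (h : tt x = x) : Nn (p + 1) x = ((p + 1 : ℕ) : ℂ) • x := by
  have : tau x = x := by
    conv_lhs => rw [← h]
    exact tau_tt hx
  simp [Nn_apply, tau_pow_fix this, ← Nat.cast_smul_eq_nsmul ℂ]

theorem exists_Nn {S : Submodule ℂ A} {p : ℕ} {x : TT A} (hx : x ∈ Al S (p + 1))
    (h : tt x = x) : ∃ y ∈ Al S (p + 1), Nn (p + 1) y = x := by
  refine ⟨((p + 1 : ℕ) : ℂ)⁻¹ • x, Submodule.smul_mem _ _ hx, ?_⟩
  rw [map_smul, Nn_of_fix hx h, inv_smul_smul₀ (by exact_mod_cast p.succ_ne_zero)]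

theorem exists_sub_tt {S : Submodule ℂ A} {p : ℕ} {x : TT A} (hx : x ∈ Al S (p + 1))
    (h : Nn (p + 1) x = 0) : ∃ y ∈ Al S (p + 1), y - tt y = x := by
  have k : ∀ i, (tau ^ i) x - x ∈ (Al S (p + 1)).map (LinearMap.id - tt) := by
    intro i
    induction i with
    | zero => simp
    | succ i ih =>
      have := add_mem (Submodule.mem_map_of_mem (f := LinearMap.id - tt)
        (tau_mem (tau_pow_mem hx i))) ih
      rw [LinearMap.sub_apply, tt_tau (tau_pow_mem hx i)] at this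
      simpa [pow_succ'] using this
  have k2 := Submodule.smul_mem _ (-((p + 1 : ℕ) : ℂ)⁻¹)
    (sum_mem (t := Finset.range (p + 1)) fun i _ => k i)
  rw [Finset.sum_sub_distrib, ← Nn_apply, h, Finset.sum_const, Finset.card_range,
    ← Nat.cast_smul_eq_nsmul ℂ, zero_sub, neg_smul_neg,
    inv_smul_smul₀ (by exact_mod_cast p.succ_ne_zero)] at k2
  exact k2

omit [Algebra ℂ A] in
@[simp] theorem face_zero (a b : A) (l : List A) : face A (a :: b :: l) 0 = a * b :: l := by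
  simp [face]

omit [Algebra ℂ A] in
@[simp] theorem face_succ (a : A) (l : List A) (i : ℕ) :
    face A (a :: l) (i + 1) = a :: face A l i := by simp [face]

theorem bp_tm (l : List A) :
    bp (tm l) = ∑ i ∈ Finset.range (l.length - 1), (-1 : ℂ) ^ i • tm (face A l i) := by
  induction l with
  | nil => simp
  | cons a l ih =>
    obtain _ | ⟨b, l⟩ := l
    · simp
    rw [tm_cons, bp_cons, ih]
    simp only [List.length_cons, Nat.add_sub_cancel]
    rw [Finset.sum_range_succ', Finset.mul_sum, sub_eq_neg_add, ← Finset.sum_neg_distrib]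
    simp [pow_succ]

theorem d0_tm (l : List A) (h : 2 ≤ l.length) : d0 (tm l) = tm (face A l 0) := by
  obtain _ | ⟨a, _ | ⟨b, l⟩⟩ := l
  · simp at h
  · simp at h
  · simp

omit [Algebra ℂ A] in
theorem face_rot (l : List A) (p i : ℕ) (hl : l.length = p + 2) (hi : i ≤ p) :
    (face A l i).length = p + 1 ∧ (face A l i).rotate i = face A (l.rotate i) 0 := by
  obtain ⟨u, a, b, v, rfl, rfl⟩ : ∃ u a b v, l = u ++ a :: b :: v ∧ u.length = i := by
    refine ⟨l.take i, l[i], l[i + 1], l.drop (i + 2), ?_, by simp; omega⟩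
    rw [← List.drop_eq_getElem_cons, ← List.drop_eq_getElem_cons, List.take_append_drop]
  have e : face A (u ++ a :: b :: v) u.length = u ++ (a * b) :: v := by
    clear hl hi
    induction u with
    | nil => simp
    | cons c u ih => simpa using ih
  rw [e, List.rotate_append_length_eq, List.rotate_append_length_eq]
  simp at hl ⊢
  omega

theorem d0_mem {p : ℕ} {x : TT A} (hx : x ∈ Al ⊤ (p + 2)) : d0 x ∈ Al ⊤ (p + 1) :=
  cn_mem d0 (fun a _ x hx => cn_mem (d0 ∘ₗ cons a)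
    (fun b _ y hy => by simpa [Al] using cons_mem (R := ⊤) trivial hy) hx) hx

theorem bp_eq_sum {p : ℕ} {x : TT A} (hx : x ∈ Al ⊤ (p + 2)) :
    bp x = ∑ i ∈ Finset.range (p + 1), (tau ^ (p + 1 - i)) (d0 ((tau ^ i) x)) := by
  refine (al_ext (g := ∑ i ∈ Finset.range (p + 1), (tau ^ (p + 1 - i)) ∘ₗ d0 ∘ₗ (tau ^ i))
    (fun l hl _ => ?_) hx).trans (by simp [LinearMap.sum_apply])
  rw [bp_tm, hl, LinearMap.sum_apply]
  refine Finset.sum_congr rfl fun i hi => ?_
  have hi' : i ≤ p := Nat.lt_succ_iff.1 (Finset.mem_range.1 hi)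
  obtain ⟨h1, h2⟩ := face_rot l p i hl hi'
  have h3 : (tau ^ i) ((-1 : ℂ) ^ i • tm (face A l i)) = d0 ((tau ^ i) (tm l)) := by
    rw [map_smul, tau_pow_tm _ p h1, tau_pow_tm l (p + 1) hl, map_smul,
      d0_tm _ (by simp [hl]), h2, smul_smul, ← pow_add, mul_add, mul_one, add_comm]
  simp only [LinearMap.comp_apply]
  rw [← h3, ← Module.End.mul_apply, ← pow_add, Nat.sub_add_cancel (by omega), tau_pow_len]
  exact Submodule.smul_mem _ _ (h1 ▸ tm_mem (S := ⊤) fun _ _ => trivial)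

theorem Nn_bb {p : ℕ} {x : TT A} (hx : x ∈ Al ⊤ (p + 2)) :
    Nn (p + 1) (bb x) = bp (Nn (p + 2) x) := by
  have h1 : Nn (p + 1) (bb x) = Nn (p + 1) (d0 (Nn (p + 2) x)) := by
    rw [bb_apply, map_add, bp_eq_sum hx, map_sum, tt_eq hx, Nn_apply (p + 2), map_sum, map_sum,
      Finset.sum_range_succ _ (p + 1)]
    congr 1
    exact Finset.sum_congr rfl fun i _ => Nn_tau_pow (d0_mem (tau_pow_mem hx i)) _
  rw [h1, bp_eq_sum (Nn_mem hx _)]
  simp only [tau_pow_fix (tau_Nn hx)]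
  rw [← Nn_tau (d0_mem (Nn_mem hx _)), Nn_apply, ← Finset.sum_range_reflect]
  refine Finset.sum_congr rfl fun i hi => ?_
  have := Finset.mem_range.1 hi
  rw [← Module.End.mul_apply, ← pow_succ]
  congr 2
  omega

end Pool.Agent.P.MP_5bcbab_al
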