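import Mathlib

namespace Pool.Agent.P.MP_5bcbab_al

open Finsupp

/-- Defining relations of the `q`-Heisenberg algebra; the generators `(i, 0), (i, 1), (i, 2)` are
`x_i, y_i, z_i`. -/
inductive HRel (n : ℕ) (q : ℂ) :
    FreeAlgebra ℂ (Fin n × Fin 3) → FreeAlgebra ℂ (Fin n × Fin 3) → Prop
  | comm (i j : Fin n) (a b : Fin 3) (h : i ≠ j) :
      HRel n q (FreeAlgebra.ι ℂ (i, a) * FreeAlgebra.ι ℂ (j, b))
        (FreeAlgebra.ι ℂ (j, b) * FreeAlgebra.ι ℂ (i, a))
  | xz (i : Fin n) : HRel n q (FreeAlgebra.ι ℂ (i, 0) * FreeAlgebra.ι ℂ (i, 2))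
      (q • (FreeAlgebra.ι ℂ (i, 2) * FreeAlgebra.ι ℂ (i, 0)))
  | yz (i : Fin n) : HRel n q (FreeAlgebra.ι ℂ (i, 1) * FreeAlgebra.ι ℂ (i, 2))
      (q⁻¹ • (FreeAlgebra.ι ℂ (i, 2) * FreeAlgebra.ι ℂ (i, 1)))
  | xy (i : Fin n) : HRel n q (FreeAlgebra.ι ℂ (i, 0) * FreeAlgebra.ι ℂ (i, 1))
      (q⁻¹ • (FreeAlgebra.ι ℂ (i, 1) * FreeAlgebra.ι ℂ (i, 0)) + FreeAlgebra.ι ℂ (i, 2))

variable (A : Type) [Ring A] [Algebra ℂ A]

/-- The face `(a_0, ..., a_i a_{i+1}, ..., a_k)` of `(a_0, ..., a_k)`. -/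
def face (l : List A) (i : ℕ) : List A :=
  l.take i ++ (l.getD i 0 * l.getD (i + 1) 0) :: l.drop (i + 2)

/-- The Hochschild boundary `b` on formal combinations of tuples `(a_0, ..., a_k)`; the last term
is `(-1)^k (a_k a_0, a_1, ..., a_{k-1})`. -/
noncomputable def hochB : (List A →₀ ℂ) →ₗ[ℂ] (List A →₀ ℂ) :=
  linearCombination ℂ fun l =>
    ∑ i ∈ Finset.range (l.length - 1), single (face A l i) ((-1) ^ i) +
      single (face A (l.rotate (l.length - 1)) 0) ((-1) ^ (l.length - 1))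

/-- Connes' operator `B (a_0, ..., a_k) = ∑ (-1)^(i k) (1, a_i, ..., a_k, a_0, ..., a_{i-1})`. -/
noncomputable def connesB : (List A →₀ ℂ) →ₗ[ℂ] (List A →₀ ℂ) :=
  linearCombination ℂ fun l =>
    ∑ i ∈ Finset.range l.length, single (1 :: l.rotate i) ((-1) ^ (i * (l.length - 1)))

/-- Multilinearity relations and degenerate tuples: tuples of length `k + 1` modulo these span the
normalised chain space `A ⊗ (A / ℂ)^{⊗ k}`. -/
noncomputable def Rel : Submodule ℂ (List A →₀ ℂ) :=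
  Submodule.span ℂ {x | ∃ (u v : List A) (a a' : A) (c : ℂ),
    x = single (u ++ (a + a') :: v) 1 - single (u ++ a :: v) 1 - single (u ++ a' :: v) 1 ∨
    x = single (u ++ (c • a) :: v) 1 - single (u ++ a :: v) c ∨ x = single (a :: u ++ 1 :: v) 1}

/-- Families `(c_j)` of chains, `c_j` of degree `j`, vanishing for `j ∉ J` (a product over `J`). -/
noncomputable def Tot (J : Set ℕ) : Submodule ℂ (ℕ → List A →₀ ℂ) :=
  Submodule.pi Set.univ fun j => supported ℂ ℂ {l | l.length = j + 1 ∧ j ∈ J}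

/-- The total differential `((b + B) c)_j = b c_{j+1} + B c_{j-1}`. -/
noncomputable def totD : (ℕ → List A →₀ ℂ) →ₗ[ℂ] (ℕ → List A →₀ ℂ) :=
  LinearMap.pi fun j => hochB A ∘ₗ LinearMap.proj (j + 1) +
    if j = 0 then 0 else connesB A ∘ₗ LinearMap.proj (j - 1)

/-- Dimension of `Z / (B ∩ Z)`. -/
noncomputable def subqDim {V : Type} [AddCommGroup V] [Module ℂ V] (Z B : Submodule ℂ V) :
    Cardinal :=
  Module.rank ℂ (Z ⧸ B.submoduleOf Z)

/-- Dimension of the homology at `J` of `Tot I → Tot J → Tot K` (normalised chains, differential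
`b + B` followed by the projection to the degrees of the target). -/
noncomputable def hdim (I J K : Set ℕ) : Cardinal :=
  subqDim (Tot A J ⊓ (Submodule.pi K fun _ => Rel A).comap (totD A))
    ((Tot A I).map (totD A) ⊔ Submodule.pi J fun _ => Rel A)

/-- `dim HC_k(A)`, from the total complex of the `(b, B)` bicomplex. -/
noncomputable def dimHC (k : ℕ) : Cardinal :=
  hdim A {j | j ≤ k + 1 ∧ j % 2 = (k + 1) % 2} {j | j ≤ k ∧ j % 2 = k % 2}
    {j | j < k ∧ j % 2 = (k + 1) % 2}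

/-- `dim HP_e(A)` for `e = 0, 1`, from the periodic (product) total complex. -/
noncomputable def dimHP (e : ℕ) : Cardinal :=
  hdim A {j | j % 2 ≠ e} {j | j % 2 = e} {j | j % 2 ≠ e}

end Pool.Agent.P.MP_5bcbab_al
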