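import Pool.Agent.P.MP_5bcbab_al.Top

namespace Pool.Agent.P.MP_5bcbab_al

open Module TensorProduct

set_option maxHeartbeats 400000

section forms
variable {V : Type} [AddCommGroup V] [Module ℂ V]

/-- polynomial forms -/
def CC (V : Type) [AddCommGroup V] [Module ℂ V] : Type :=
  SymmetricAlgebra ℂ V ⊗[ℂ] ExteriorAlgebra ℂ V

noncomputable instance : Ring (CC V) :=
  inferInstanceAs (Ring (SymmetricAlgebra ℂ V ⊗[ℂ] ExteriorAlgebra ℂ V))
noncomputable instance : Algebra ℂ (CC V) :=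
  inferInstanceAs (Algebra ℂ (SymmetricAlgebra ℂ V ⊗[ℂ] ExteriorAlgebra ℂ V))

/-- inclusion of functions -/
noncomputable def iL : SymmetricAlgebra ℂ V →ₐ[ℂ] CC V := Algebra.TensorProduct.includeLeft
/-- inclusion of constant forms -/
noncomputable def iR : ExteriorAlgebra ℂ V →ₐ[ℂ] CC V := Algebra.TensorProduct.includeRight

theorem iL_iR (a : SymmetricAlgebra ℂ V) (b : ExteriorAlgebra ℂ V) : iL a * iR b = a ⊗ₜ[ℂ] b :=
  (Algebra.TensorProduct.tmul_mul_tmul a 1 1 b).trans (by simp)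

theorem iR_iL (a : SymmetricAlgebra ℂ V) (b : ExteriorAlgebra ℂ V) : iR b * iL a = iL a * iR b :=
  ((Algebra.TensorProduct.tmul_mul_tmul 1 a b 1).trans (by simp)).trans (iL_iR a b).symm

theorem CC_ind {P : CC V → Prop} (h0 : P 0) (h1 : ∀ a b, P (iL a * iR b))
    (h2 : ∀ x y, P x → P y → P (x + y)) (c : CC V) : P c :=
  TensorProduct.induction_on c h0 (fun a b => iL_iR a b ▸ h1 a b) h2

/-- functions -/
noncomputable def pp : V →ₗ[ℂ] CC V := iL.toLinearMap ∘ₗ SymmetricAlgebra.ι ℂ V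
/-- one-forms -/
noncomputable def dl : V →ₗ[ℂ] CC V := iR.toLinearMap ∘ₗ ExteriorAlgebra.ι ℂ

theorem pp_eq (v : V) : pp v = iL (SymmetricAlgebra.ι ℂ V v) := rfl
theorem dl_eq (v : V) : dl v = iR (ExteriorAlgebra.ι ℂ v) := rfl

theorem iL_comm (v : SymmetricAlgebra ℂ V) (c : CC V) : iL v * c = c * iL v := by
  induction c using CC_ind with
  | h0 => simp
  | h1 a b => rw [mul_assoc, iR_iL, ← mul_assoc, ← mul_assoc, ← map_mul, ← map_mul, mul_comm v]
  | h2 a b ha hb => simp [mul_add, add_mul, ha, hb]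

theorem pp_comm (v : V) (c : CC V) : pp v * c = c * pp v := iL_comm _ c

/-- substitution in functions -/
noncomputable def SM (g : V →ₗ[ℂ] V) : SymmetricAlgebra ℂ V →ₐ[ℂ] SymmetricAlgebra ℂ V :=
  SymmetricAlgebra.lift (SymmetricAlgebra.ι ℂ V ∘ₗ g)

/-- substitution -/
noncomputable def TM (g h : V →ₗ[ℂ] V) : CC V →ₐ[ℂ] CC V :=
  Algebra.TensorProduct.map (SM g) (ExteriorAlgebra.map h)

theorem TM_iL (g h : V →ₗ[ℂ] V) (a : SymmetricAlgebra ℂ V) : TM g h (iL a) = iL (SM g a) :=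
  (Algebra.TensorProduct.map_tmul _ _ a 1).trans (by rw [map_one]; rfl)
theorem TM_iR (g h : V →ₗ[ℂ] V) (a : ExteriorAlgebra ℂ V) :
    TM g h (iR a) = iR (ExteriorAlgebra.map h a) :=
  (Algebra.TensorProduct.map_tmul _ _ 1 a).trans (by rw [map_one]; rfl)

@[simp] theorem TM_pp (g h : V →ₗ[ℂ] V) (v : V) : TM g h (pp v) = pp (g v) := by
  simp [pp_eq, TM_iL, SM]
@[simp] theorem TM_dl (g h : V →ₗ[ℂ] V) (v : V) : TM g h (dl v) = dl (h v) := by
  simp [dl_eq, TM_iR]

theorem CC_ext {B : Type} [Ring B] [Algebra ℂ B] {φ ψ : CC V →ₐ[ℂ] B}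
    (h1 : ∀ v, φ (pp v) = ψ (pp v)) (h2 : ∀ v, φ (dl v) = ψ (dl v)) : φ = ψ := by
  have k1 : φ.comp iL = ψ.comp iL := AlgHom.ext fun a => by
    induction a using SymmetricAlgebra.induction with
    | algebraMap r => simp
    | ι v => exact h1 v
    | mul a b ha hb => rw [map_mul, map_mul, ha, hb]
    | add a b ha hb => rw [map_add, map_add, ha, hb]
  have k2 : φ.comp iR = ψ.comp iR := ExteriorAlgebra.hom_ext (LinearMap.ext h2)
  refine AlgHom.ext fun c => ?_
  induction c using CC_ind with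
  | h0 => simp
  | h1 a b =>
    rw [map_mul, map_mul]
    exact congrArg₂ _ (AlgHom.congr_fun k1 a) (AlgHom.congr_fun k2 b)
  | h2 a b ha hb => simp [ha, hb]

/-- product functional -/
noncomputable def PF (φ : SymmetricAlgebra ℂ V →ₗ[ℂ] ℂ) (ψ : ExteriorAlgebra ℂ V →ₗ[ℂ] ℂ) :
    CC V →ₗ[ℂ] ℂ := LinearMap.mul' ℂ ℂ ∘ₗ TensorProduct.map φ ψ

theorem PF_apply (φ : SymmetricAlgebra ℂ V →ₗ[ℂ] ℂ) (ψ : ExteriorAlgebra ℂ V →ₗ[ℂ] ℂ)
    (a : SymmetricAlgebra ℂ V) (b : ExteriorAlgebra ℂ V) : PF φ ψ (iL a * iR b) = φ a * ψ b := by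
  rw [iL_iR]
  rfl

/-- invertible substitution -/
noncomputable def TE (g h : V ≃ₗ[ℂ] V) : CC V ≃ₐ[ℂ] CC V :=
  AlgEquiv.ofAlgHom (TM g h) (TM g.symm h.symm) (CC_ext (by simp) (by simp))
    (CC_ext (by simp) (by simp))

@[simp] theorem TE_pp (g h : V ≃ₗ[ℂ] V) (v : V) : TE g h (pp v) = pp (g v) := by simp [TE]
@[simp] theorem TE_dl (g h : V ≃ₗ[ℂ] V) (v : V) : TE g h (dl v) = dl (h v) := by simp [TE]
@[simp] theorem TE_pp' (g h : V ≃ₗ[ℂ] V) (v : V) : (TE g h).symm (pp v) = pp (g.symm v) := by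
  simp [TE]
@[simp] theorem TE_dl' (g h : V ≃ₗ[ℂ] V) (v : V) : (TE g h).symm (dl v) = dl (h.symm v) := by
  simp [TE]

theorem CC_ext' {φ ψ : CC V ≃ₐ[ℂ] CC V} (h1 : ∀ v, φ (pp v) = ψ (pp v))
    (h2 : ∀ v, φ (dl v) = ψ (dl v)) : φ = ψ :=
  AlgEquiv.coe_toAlgHom_injective (CC_ext h1 h2)

/-- parity -/
noncomputable def par : CC V ≃ₐ[ℂ] CC V := TE (LinearEquiv.refl ℂ V) (LinearEquiv.neg ℂ)

@[simp] theorem par_pp (v : V) : par (pp v) = pp v := by simp [par]
@[simp] theorem par_dl (v : V) : par (dl v) = -dl v := by simp [par]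

theorem par_par : (par * par : CC V ≃ₐ[ℂ] CC V) = 1 := CC_ext' (by simp) (by simp)

theorem dl_mul (v : V) (c : CC V) : dl v * c = par c * dl v := by
  have : ∀ w : ExteriorAlgebra ℂ V, dl v * iR w = par (iR w) * dl v := by
    intro w
    induction w using ExteriorAlgebra.induction with
    | algebraMap r => rw [AlgHom.commutes, AlgEquiv.commutes, Algebra.commutes]
    | ι w =>
      rw [← dl_eq, par_dl, dl_eq, dl_eq, neg_mul, ← map_mul iR, ← map_mul iR, ← map_neg iR,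
        eq_neg_of_add_eq_zero_left (ExteriorAlgebra.ι_add_mul_swap v w)]
    | mul a b ha hb => rw [map_mul, ← mul_assoc, ha, mul_assoc, hb, map_mul, mul_assoc]
    | add a b ha hb => simp only [mul_add, add_mul, map_add, ha, hb]
  induction c using CC_ind with
  | h0 => simp
  | h2 a b ha hb => simp only [mul_add, add_mul, map_add, ha, hb]
  | h1 a b =>
    have h1 : par (iL a) = iL a := by simp [par, TE, TM_iL, SM]
    rw [map_mul, h1, mul_assoc, ← this, ← mul_assoc, ← mul_assoc, iL_comm]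

theorem dl_dl (v w : V) : dl v * dl w = -(dl w * dl v) := by simp [dl_mul v]

@[simp] theorem dl_sq (v : V) : dl v * dl v = 0 := by simp [dl_eq, ← map_mul]

/-- contraction -/
noncomputable abbrev ct (ξ : Dual ℂ V) : ExteriorAlgebra ℂ V →ₗ[ℂ] ExteriorAlgebra ℂ V :=
  CliffordAlgebra.contractLeft ξ

theorem ct_map (ξ : Dual ℂ V) (g : V →ₗ[ℂ] V) (w : ExteriorAlgebra ℂ V) :
    ct ξ (ExteriorAlgebra.map g w) = ExteriorAlgebra.map g (ct (ξ ∘ₗ g) w) := by
  induction w using CliffordAlgebra.left_induction with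
  | algebraMap r => simp
  | add x y hx hy => simp only [map_add, hx, hy]
  | ι_mul x v hx =>
    rw [map_mul, ExteriorAlgebra.map_apply_ι, CliffordAlgebra.contractLeft_ι_mul,
      CliffordAlgebra.contractLeft_ι_mul, hx]
    simp

/-- the crossed product -/
abbrev OO (V : Type) [AddCommGroup V] [Module ℂ V] : Type :=
  SkewMonoidAlgebra (CC V) (CC V ≃ₐ[ℂ] CC V)

open SkewMonoidAlgebra

/-- trace attached to a functional -/
noncomputable def TR (Λ : CC V →ₗ[ℂ] ℂ) : OO V →ₗ[ℂ] ℂ :=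
  Λ ∘ₗ Finsupp.lapply 1 ∘ₗ (coeffLinearEquiv (S := ℂ)).toLinearMap

theorem TR_apply (Λ : CC V →ₗ[ℂ] ℂ) (η : OO V) : TR Λ η = Λ (η.coeff 1) := rfl

/-- parity on the crossed product -/
noncomputable def parO : OO V →ₐ[ℂ] OO V :=
  AlgHom.ofLinearMap (LinearMap.mulLeftRight ℂ (single par 1, single par 1))
    (by simp [single_mul_single, par_par])
    (fun x y => by
      have : (single par 1 * single par 1 : OO V) = 1 := by simp [single_mul_single, par_par]
      simp only [LinearMap.mulLeftRight_apply, mul_assoc]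
      rw [← mul_assoc (single par 1) (single par 1), this, one_mul])

theorem parO_single {g : CC V ≃ₐ[ℂ] CC V} (h : par * g = g * par) (c : CC V) :
    parO (single g c) = single g (par c) := by
  simp [parO, single_mul_single, h, mul_assoc, par_par]

theorem TR_even {Λ : CC V →ₗ[ℂ] ℂ} {g : CC V ≃ₐ[ℂ] CC V} {c : CC V} (hg : ∀ s, Λ (g s) = Λ s)
    (hc : ∀ s, c * s = s * c) (η : OO V) : TR Λ (single g c * η) = TR Λ (η * single g c) := by
  rw [TR_apply, TR_apply, coeff_single_mul, coeff_mul_single, ← hg (_ * _ • c), hc]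
  simp

theorem TR_odd {Λ : CC V →ₗ[ℂ] ℂ} {g : CC V ≃ₐ[ℂ] CC V} {c : CC V} (hg : ∀ s, Λ (g s) = Λ s)
    (h : par * g = g * par) (hc : ∀ s, c * s = par s * c) (η : OO V) :
    TR Λ (single g c * η) = TR Λ (parO η * single g c) := by
  have h1 : par⁻¹ * (g⁻¹ * par⁻¹) = g⁻¹ := by
    rw [← mul_inv_rev, h, mul_inv_rev, ← mul_assoc, ← mul_inv_rev, par_par, inv_one, one_mul]
  rw [TR_apply, TR_apply, coeff_single_mul, coeff_mul_single, ← hg (_ * _ • c), hc, parO]
  simp only [AlgHom.ofLinearMap_apply, LinearMap.mulLeftRight_apply, coeff_single_mul,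
    coeff_mul_single, one_mul, mul_one, smul_one, h1, map_mul, AlgEquiv.smul_def]
  rw [← AlgEquiv.mul_apply, h]
  simp

end forms

end Pool.Agent.P.MP_5bcbab_al
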