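import Pool.Agent.P.MP_5bcbab_al.Forms

namespace Pool.Agent.P.MP_5bcbab_al

open Module SkewMonoidAlgebra

set_option maxHeartbeats 400000

variable {n : ℕ}

/-- coordinate space -/
abbrev VV (n : ℕ) : Type := Fin n → Fin 3 → ℂ

/-- basis vectors -/
def ev (i : Fin n) (a : Fin 3) : VV n := Pi.single i (Pi.single a 1)

/-- coordinates -/
def xi (i : Fin n) (a : Fin 3) : Dual ℂ (VV n) := LinearMap.proj a ∘ₗ LinearMap.proj i

theorem xi_ev (i j : Fin n) (a b : Fin 3) : xi i a (ev j b) = if i = j ∧ a = b then 1 else 0 := by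
  by_cases h : i = j <;> by_cases h' : a = b <;> simp [xi, ev, h, h']

/-- triangular substitution at an index -/
def gm (i : Fin n) (a b c : ℂ) : VV n →ₗ[ℂ] VV n where
  toFun v j := if j = i then ![v j 0, b * v j 1, c * v j 1 + a * v j 2] else v j
  map_add' v w := by
    ext j t
    by_cases h : j = i <;> fin_cases t <;> simp [h] <;> ring
  map_smul' r v := by
    ext j t
    by_cases h : j = i <;> fin_cases t <;> simp [h] <;> ring

theorem gm_ne {i j : Fin n} (h : j ≠ i) (a b c : ℂ) (t : Fin 3) : gm i a b c (ev j t) = ev j t := by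
  ext k s
  by_cases h' : k = i
  · fin_cases s <;> simp [gm, ev, h', h.symm]
  · simp [gm, h']

theorem gm_ev (i : Fin n) (a b c : ℂ) : gm i a b c (ev i 0) = ev i 0 ∧
    gm i a b c (ev i 1) = b • ev i 1 + c • ev i 2 ∧ gm i a b c (ev i 2) = a • ev i 2 := by
  refine ⟨?_, ?_, ?_⟩ <;> ext k s <;> by_cases h' : k = i <;> fin_cases s <;> simp [gm, ev, h']

theorem xi_gm (i j : Fin n) (a b c : ℂ) : xi j 0 ∘ₗ gm i a b c = xi j 0 ∧
    xi j 1 ∘ₗ gm i a b c = (if j = i then b else 1) • xi j 1 ∧ xi j 2 ∘ₗ gm i a b c =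
      (if j = i then c else 0) • xi j 1 + (if j = i then a else 1) • xi j 2 := by
  refine ⟨?_, ?_, ?_⟩ <;> refine LinearMap.ext fun v => ?_ <;> by_cases h : j = i <;>
    simp [gm, xi, h]

variable {q : ℂ} (hq : q ≠ 0)

/-- the substitution attached to `x_i` -/
noncomputable def gE (i : Fin n) : VV n ≃ₗ[ℂ] VV n :=
  LinearEquiv.ofLinearMap (gm i q q⁻¹ 1) (gm i q⁻¹ q (-1))
    (LinearMap.ext fun v => funext₂ fun j t => by
      by_cases h : j = i <;> fin_cases t <;> simp [gm, h, hq, mul_add])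
    (LinearMap.ext fun v => funext₂ fun j t => by
      by_cases h : j = i <;> fin_cases t <;> simp [gm, h, hq, mul_add])

/-- the automorphism attached to `x_i` -/
noncomputable def sg (i : Fin n) : CC (VV n) ≃ₐ[ℂ] CC (VV n) := TE (gE hq i) (gE hq i)
/-- its inverse -/
noncomputable def sg' (i : Fin n) : CC (VV n) ≃ₐ[ℂ] CC (VV n) := (sg hq i)⁻¹

@[simp] theorem sg_sg' (i : Fin n) : sg hq i * sg' hq i = 1 := mul_inv_cancel _
@[simp] theorem sg'_sg (i : Fin n) : sg' hq i * sg hq i = 1 := inv_mul_cancel _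
@[simp] theorem sg_pp (i : Fin n) (v : VV n) : sg hq i (pp v) = pp (gm i q q⁻¹ 1 v) := TE_pp _ _ v
@[simp] theorem sg_dl (i : Fin n) (v : VV n) : sg hq i (dl v) = dl (gm i q q⁻¹ 1 v) := TE_dl _ _ v
@[simp] theorem sg'_pp (i : Fin n) (v : VV n) : sg' hq i (pp v) = pp (gm i q⁻¹ q (-1) v) :=
  TE_pp' _ _ v
@[simp] theorem sg'_dl (i : Fin n) (v : VV n) : sg' hq i (dl v) = dl (gm i q⁻¹ q (-1) v) :=
  TE_dl' _ _ v

/-- automorphisms attached to the generators -/
noncomputable def GA (i : Fin n) : Fin 3 → (CC (VV n) ≃ₐ[ℂ] CC (VV n)) := ![sg hq i, sg' hq i, 1]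

/-- coefficients of the generators -/
noncomputable def PA (i : Fin n) : Fin 3 → CC (VV n) := ![1, pp (ev i 1), pp (ev i 2)]

/-- coefficients of their differentials -/
noncomputable def DA (i : Fin n) : Fin 3 → CC (VV n) :=
  ![dl (ev i 0), dl (ev i 1) - pp (ev i 1) * dl (ev i 0), dl (ev i 2)]

theorem GA_pp {i j : Fin n} (h : j ≠ i) (a b : Fin 3) : GA hq i a (pp (ev j b)) = pp (ev j b) := by
  fin_cases a <;> simp [GA, gm_ne h]

theorem GA_dl {i j : Fin n} (h : j ≠ i) (a b : Fin 3) : GA hq i a (dl (ev j b)) = dl (ev j b) := by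
  fin_cases a <;> simp [GA, gm_ne h]

theorem GA_PA {i j : Fin n} (h : j ≠ i) (a b : Fin 3) : GA hq i a (PA j b) = PA j b := by
  fin_cases b <;> simp [PA, GA_pp hq h]

theorem GA_DA {i j : Fin n} (h : j ≠ i) (a b : Fin 3) : GA hq i a (DA j b) = DA j b := by
  fin_cases b <;> simp [DA, GA_pp hq h, GA_dl hq h]

theorem GA_comm {i j : Fin n} (hij : i ≠ j) (a b : Fin 3) :
    GA hq i a * GA hq j b = GA hq j b * GA hq i a := by
  have : ∀ a b c a' b' c' v, gm i a b c (gm j a' b' c' v) = gm j a' b' c' (gm i a b c v) := by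
    intro a b c a' b' c' v
    ext k t
    by_cases h : k = i
    · simp [gm, h, hij]
    · by_cases h' : k = j
      · simp [gm, h', hij.symm]
      · simp [gm, h, h']
  fin_cases a <;> fin_cases b <;> exact CC_ext' (by simp [GA, this]) (by simp [GA, this])

theorem par_GA (i : Fin n) (a : Fin 3) : par * GA hq i a = GA hq i a * par := by
  fin_cases a <;> exact CC_ext' (by simp [GA]) (by simp [GA])

theorem PA_comm (i : Fin n) (a : Fin 3) (c : CC (VV n)) : PA i a * c = c * PA i a := by
  fin_cases a <;> simp [PA, pp_comm]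

theorem DA_mul (i : Fin n) (a : Fin 3) (c : CC (VV n)) : DA i a * c = par c * DA i a := by
  fin_cases a
  · exact dl_mul _ _
  · simp only [DA, Fin.mk_one, Matrix.cons_val_one, Matrix.cons_val_zero, sub_mul, mul_sub,
      mul_assoc, dl_mul _ c]
    rw [← mul_assoc, pp_comm, mul_assoc]
  · exact dl_mul _ _

theorem par_DA (i : Fin n) (a : Fin 3) : par (DA i a) = -DA i a := by
  fin_cases a <;> simp [DA]
  abel

theorem dl_pp (v w : VV n) (c : CC (VV n)) : dl v * (pp w * c) = pp w * (dl v * c) := by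
  rw [← mul_assoc, ← pp_comm, mul_assoc]

theorem pp_pp (v w : VV n) (c : CC (VV n)) : pp v * (pp w * c) = pp w * (pp v * c) := by
  rw [← mul_assoc, pp_comm v (pp w), mul_assoc]

theorem dl_dl' (v w : VV n) (c : CC (VV n)) : dl v * (dl w * c) = -(dl w * (dl v * c)) := by
  rw [← mul_assoc, dl_dl, neg_mul, mul_assoc]

theorem dl_sq' (v : VV n) (c : CC (VV n)) : dl v * (dl v * c) = 0 := by
  rw [← mul_assoc, dl_sq, zero_mul]

theorem model (n : ℕ) : ∃ (f : HH n q →ₐ[ℂ] OO (VV n)) (d : HH n q →ₗ[ℂ] OO (VV n)),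
    (∀ a b, d (a * b) = d a * f b + f a * d b) ∧
    (∀ i a, f (gen q i a) = single (GA hq i a) (PA i a)) ∧
    ∀ i a, d (gen q i a) = single (GA hq i a) (DA i a) := by
  refine exists_fd q _ _ (fun i j a b h => ?_) (fun i => ⟨?_, ?_⟩) (fun i => ⟨?_, ?_⟩)
    (fun i => ⟨?_, ?_⟩)
  · simp only [single_mul_single, AlgEquiv.smul_def, GA_PA hq h, GA_PA hq h.symm, GA_DA hq h,
      GA_DA hq h.symm, GA_comm hq h, PA_comm j b (PA i a), PA_comm j b (DA i a),
      PA_comm i a (DA j b), add_comm, and_self]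
  all_goals
    simp only [single_mul_single, AlgEquiv.smul_def, smul_single, GA, PA, DA, Matrix.cons_val,
      mul_one, one_mul, sg_sg', sg'_sg, ← single_add, map_one]
    congr 1
    simp [gm_ev, mul_add, add_mul, mul_sub, sub_mul, ← pp_comm _ (dl _), mul_assoc,
      pp_comm (ev i 2) (pp _), pp_pp (ev i 2) (ev i 1)]
  all_goals abel

open MvPolynomial in
variable (q) in
/-- diagonalising substitution -/
noncomputable def dg (i : Fin n) : SymmetricAlgebra ℂ (VV n) →ₐ[ℂ] MvPolynomial (Fin 2) ℂ :=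
  SymmetricAlgebra.lift ((xi i 1).smulRight (X 0 + X 1) + (xi i 2).smulRight ((q - q⁻¹) • X 0))

variable (q) in
/-- invariant functionals -/
noncomputable def lam (i : Fin n) (k : ℕ) : SymmetricAlgebra ℂ (VV n) →ₗ[ℂ] ℂ :=
  MvPolynomial.lcoeff ℂ (Finsupp.single 0 k + Finsupp.single 1 k) ∘ₗ (dg q i).toLinearMap

theorem lam_pow (i : Fin n) (k m : ℕ) : lam q i k (SymmetricAlgebra.ι ℂ _ (ev i 1) ^ m) =
    if k + k = m then (m.choose k : ℂ) else 0 := by
  simp [lam, dg, xi_ev, MvPolynomial.coeff_add_pow]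

open MvPolynomial in
include hq in
theorem lam_SM (i j : Fin n) (k : ℕ) (a : SymmetricAlgebra ℂ (VV n)) :
    lam q i k (SM (gm j q q⁻¹ 1) a) = lam q i k a := by
  have h1 : dg q i (SM (gm j q q⁻¹ 1) a) =
      aeval ![(if i = j then q else 1) • X 0, (if i = j then q⁻¹ else 1) • X 1] (dg q i a) := by
    induction a using SymmetricAlgebra.induction with
    | algebraMap r => simp
    | ι v =>
      by_cases h : i = j <;> simp [dg, SM, xi, gm, h]
      module
    | mul a b ha hb => simp only [map_mul, ha, hb]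
    | add a b ha hb => simp only [map_add, ha, hb]
  have h2 : ∀ (r s : ℂ) (P : MvPolynomial (Fin 2) ℂ) m,
      coeff m (aeval ![r • X 0, s • X 1] P : MvPolynomial (Fin 2) ℂ) =
        r ^ m 0 * s ^ m 1 * coeff m P := by
    intro r s P m
    induction P using MvPolynomial.induction_on' with
    | add a b ha hb => simp only [map_add, MvPolynomial.coeff_add, ha, hb, mul_add]
    | monomial u c =>
      have : (aeval ![r • X 0, s • X 1] (monomial u c) : MvPolynomial (Fin 2) ℂ) =
          (r ^ u 0 * s ^ u 1) • monomial u c := by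
        rw [aeval_monomial, monomial_eq, Finsupp.prod_fintype _ _ (by simp),
          Finsupp.prod_fintype _ _ (by simp)]
        simp [smul_pow, smul_smul, mul_comm]
      rw [this, MvPolynomial.coeff_smul, coeff_monomial]
      split_ifs with h <;> simp [h]
  simp only [lam, LinearMap.comp_apply, AlgHom.toLinearMap_apply, lcoeff_apply, h1, h2]
  split_ifs <;> simp [hq]

/-- top coefficient -/
noncomputable def top (i : Fin n) : List (Fin n) → ExteriorAlgebra ℂ (VV n) →ₗ[ℂ] ℂ
  | [] => ExteriorAlgebra.algebraMapInv.toLinearMap ∘ₗ ct (xi i 1) ∘ₗ ct (xi i 2)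
  | j :: l => top i l ∘ₗ ct (xi j 1) ∘ₗ ct (xi j 2) ∘ₗ ct (xi j 0)

include hq in
theorem top_map (i j : Fin n) (l : List (Fin n)) (w : ExteriorAlgebra ℂ (VV n)) :
    top i l (ExteriorAlgebra.map (gm j q q⁻¹ 1) w) = top i l w := by
  have h : ∀ i w, ct (xi i 1) (ct (xi i 2) (ExteriorAlgebra.map (gm j q q⁻¹ 1) w)) =
      ExteriorAlgebra.map (gm j q q⁻¹ 1) (ct (xi i 1) (ct (xi i 2) w)) := by
    intro i w
    rw [ct_map, ct_map, (xi_gm j i _ _ _).2.1, (xi_gm j i _ _ _).2.2]
    split_ifs <;> simp [CliffordAlgebra.contractLeft_contractLeft, smul_smul, hq]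
  induction l generalizing w with
  | nil =>
    have : ExteriorAlgebra.algebraMapInv.comp (ExteriorAlgebra.map (gm j q q⁻¹ 1)) =
        ExteriorAlgebra.algebraMapInv := by
      ext v
      simp [ExteriorAlgebra.algebraMapInv]
    simp only [top, LinearMap.comp_apply, h]
    exact AlgHom.congr_fun this _
  | cons k l ih => simp only [top, LinearMap.comp_apply, ct_map _ _ w, (xi_gm j k _ _ _).1, h, ih]

/-- volume forms -/
noncomputable def vol (i : Fin n) : ExteriorAlgebra ℂ (VV n) :=
  ExteriorAlgebra.ι ℂ (ev i 0) * (ExteriorAlgebra.ι ℂ (ev i 2) * ExteriorAlgebra.ι ℂ (ev i 1))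

theorem top_vol (i : Fin n) (l : List (Fin n)) (h : (i :: l).Nodup) : top i l ((l.map vol).prod *
    (ExteriorAlgebra.ι ℂ (ev i 2) * ExteriorAlgebra.ι ℂ (ev i 1))) = 1 := by
  induction l with
  | nil => simp [top, CliffordAlgebra.contractLeft_ι_mul, xi_ev]
  | cons j l ih =>
    have h1 : ∀ a, ∀ l' : List (Fin n), j ∉ l' → ct (xi j a) ((l'.map vol).prod *
        (ExteriorAlgebra.ι ℂ (ev i 2) * ExteriorAlgebra.ι ℂ (ev i 1))) = 0 := by
      intro a l' hl
      induction l' with
      | nil =>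
        have : j ≠ i := by rintro rfl; simp at h
        simp [CliffordAlgebra.contractLeft_ι_mul, xi_ev, this]
      | cons k l' ih =>
        simp only [List.mem_cons, not_or] at hl
        simp [vol, mul_assoc, CliffordAlgebra.contractLeft_ι_mul, xi_ev, hl.1, ih hl.2]
    have h2 := fun a => h1 a l (by simp at h; tauto)
    rw [← ih (by simp at h ⊢; tauto)]
    simp [top, vol, mul_assoc, CliffordAlgebra.contractLeft_ι_mul, xi_ev, h2]

include hq in
theorem inf_low (m : ℕ) :
    Inf (eps q (m + 1)) (0 + 3 * m) ∧ Inf (eps q (m + 1)) (1 + 3 * m) := by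
  obtain ⟨f, d, hd, h1, h2⟩ := model hq (m + 1)
  have ssub : ∀ g c c', (single g (c - c') : OO (VV (m + 1))) = single g c - single g c' :=
    fun g c c' => by rw [sub_eq_add_neg, single_add, single_neg, sub_eq_add_neg]
  set L := Fin.last m with hL
  set l := (List.finRange m).map Fin.castSucc with hl
  have g1 : ∀ a, parO (f a) = f a := by
    intro a
    induction a using gen_ind with
    | hadd x y hx hy => simp only [map_add, hx, hy]
    | halg c => simp only [AlgHom.commutes]
    | hmul x y hx hy => simp only [map_mul, hx, hy]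
    | hg i a =>
      rw [h1, parO_single (par_GA hq i a)]
      fin_cases a <;> simp [PA]
  have d1 : ∀ c, d (algebraMap ℂ _ c) = 0 := fun c => by
    rw [Algebra.algebraMap_eq_smul_one, map_smul, dd_one f d hd, smul_zero]
  have g2 : ∀ a, parO (d a) = -d a := by
    intro a
    induction a using gen_ind with
    | hadd x y hx hy => simp only [map_add, hx, hy, neg_add]
    | halg c => simp [d1]
    | hmul x y hx hy => simp only [hd, map_add, map_mul, hx, hy, g1, neg_add, neg_mul, mul_neg]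
    | hg i a => rw [h2, parO_single (par_GA hq i a), par_DA, single_neg]
  have h3 : ∀ i j, i ≠ j → SS q j ≤ Rm d 1 (SS q i) := fun i j h => Submodule.span_le.2 (by
    rintro _ ⟨b, rfl⟩
    refine le_Rm q d 1 i fun a => ⟨gen_comm q h _ _, ?_⟩
    simp only [h2, single_mul_single, AlgEquiv.smul_def, GA_DA hq h, GA_DA hq h.symm,
      GA_comm hq h, one_smul, DA_mul j b, par_DA, neg_mul, single_neg])
  have h4 : ∀ i ∈ l, i ≠ L := by
    intro i hi
    obtain ⟨i, -, rfl⟩ := List.mem_map.1 hi
    exact (Fin.castSucc_lt_last i).ne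
  have h5 : l.Nodup := (List.nodup_finRange m).map (Fin.castSucc_injective m)
  have h6 : ∀ l : List (Fin (m + 1)), (l.map fun i => TensorAlgebra.lift ℂ d (om q i)).prod =
      single 1 ((6 : ℂ) ^ l.length • iR (l.map vol).prod) := by
    intro l
    induction l with
    | nil => simp
    | cons i l ih =>
      have : TensorAlgebra.lift ℂ d (om q i) = single 1 ((6 : ℂ) • iR (vol i)) := by
        simp only [om, w3, map_sub, map_add, map_smul, map_mul, TensorAlgebra.lift_ι_apply, h2,
          single_mul_single, AlgEquiv.smul_def, smul_single, GA, DA, Matrix.cons_val, mul_one,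
          one_mul, sg_sg', sg'_sg, ← single_add, vol, ← dl_eq, ← ssub]
        congr 1
        simp only [AlgEquiv.one_apply, mul_sub, sub_mul, sg_pp, sg_dl, sg'_dl, gm_ev,
          map_add, map_smul, mul_add, add_mul, mul_neg, smul_mul_assoc, mul_smul_comm,
          mul_assoc, dl_pp, dl_sq', dl_sq, dl_dl' (ev i 1) (ev i 0), dl_dl' (ev i 2) (ev i 0),
          dl_dl (ev i 1) (ev i 0), dl_dl (ev i 2) (ev i 0),
          dl_dl (ev i 1) (ev i 2), mul_zero, neg_zero, smul_zero]
        match_scalars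
        field_simp
        norm_num
      rw [List.map_cons, List.prod_cons, ih, this, single_mul_single]
      simp [smul_smul, pow_succ]
  have key : ∀ p t (κ : CC (VV (m + 1))) (u : ℕ → TT (HH (m + 1) q)), (∀ i, sg hq i κ = κ) →
      (∀ j, Good (Ap (eps q _) ⊓ ⨅ i ∈ l, Rm d 1 (SS q i)) p (u j)) →
      (∀ j, ∃ s, ∃ c : ℂ, c ≠ 0 ∧ TensorAlgebra.lift ℂ d (u j) = single 1 s ∧
        s * κ = c • (pp (ev L 1) ^ (j + t + (j + t)) * (dl (ev L 2) * dl (ev L 1)))) →
      Inf (eps q (m + 1)) (p + 3 * m) := by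
    intro p t κ u k1 k2 k3
    choose W k4 k5 using fun j => chain d 1 (SS q) (om q) (om_good hq) (k2 j) l
      (h5.imp fun h => h3 _ _ h) fun i hi => inf_le_right.trans (iInf₂_le i hi)
    have k6 := fun j => k4 j _ inf_le_left fun i _ => SS_le q i
    rw [hl, List.length_map, List.length_finRange] at k6
    let Λ := fun i => PF (lam q L (i + t)) (top L l) ∘ₗ LinearMap.mulRight ℂ κ
    have k7 : ∀ k i s, Λ k (sg hq i s) = Λ k s := by
      intro k i s
      simp only [Λ, LinearMap.comp_apply, LinearMap.mulRight_apply]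
      nth_rw 1 [← k1 i]
      rw [← map_mul]
      induction s * κ using CC_ind with
      | h0 => simp
      | h2 a b ha hb => simp only [map_add, ha, hb]
      | h1 a b =>
        rw [map_mul, PF_apply, ← lam_SM hq L i, ← top_map hq L i, ← PF_apply, ← TM_iL,
          ← TM_iR]
        rfl
    have k8 : ∀ k i a s, Λ k (GA hq i a s) = Λ k s := by
      intro k i a s
      fin_cases a
      · exact k7 k i s
      · rw [← k7 k i, ← AlgEquiv.mul_apply]
        exact congrArg (fun g : _ ≃ₐ[ℂ] _ => Λ k (g s)) (sg_sg' hq i)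
      · rfl
    have k9 : ∀ k a η, TR (Λ k) (f a * η) = TR (Λ k) (η * f a) := by
      intro k a
      induction a using gen_ind with
      | hadd x y hx hy => simp only [map_add, hx, hy, mul_add, add_mul, implies_true]
      | halg c => simp only [AlgHom.commutes, Algebra.commutes, implies_true]
      | hmul x y hx hy => intro η; rw [map_mul f, mul_assoc, hx, mul_assoc, hy, mul_assoc]
      | hg i a => exact h1 i a ▸ TR_even (k8 k i a) (PA_comm i a)
    refine inf_of_phi _ W (fun j => (k6 j).mem) (fun j => (k6 j).tt) (fun j => (k6 j).bp)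
      (fun i => TR (Λ i) ∘ₗ (TensorAlgebra.lift ℂ d).toLinearMap) (fun k x hx =>
        int_bb f d hd _ parO g1 g2 (k9 k) (fun a => ?_) (GG_le _ _ hx))
      (fun i y => by simp [dd_one f d hd]) fun i j => ?_
    · induction a using gen_ind with
      | hadd x y hx hy => simp only [map_add, hx, hy, mul_add, add_mul, implies_true]
      | halg c => simp [d1]
      | hmul x y hx hy =>
        intro η
        rw [hd, add_mul, map_add, mul_assoc, hx, mul_assoc, k9 k x, mul_assoc, hy, map_mul parO,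
          map_mul parO, g1, g1, mul_assoc, k9 k y, mul_add, map_add, mul_assoc, mul_assoc]
      | hg i a => exact h2 i a ▸ TR_odd (k8 k i a) (par_GA hq i a) (DA_mul i a)
    · obtain ⟨c, hc, e1⟩ := k5 j
      obtain ⟨s, c', hc', e2, e3⟩ := k3 j
      rw [LinearMap.comp_apply, AlgHom.toLinearMap_apply, e1, e2, h6, single_mul_single, map_nsmul,
        TR_apply, one_mul, coeff_single, Finsupp.single_eq_same, one_smul]
      simp only [Λ, LinearMap.comp_apply, LinearMap.mulRight_apply, mul_assoc, e3, smul_mul_assoc,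
        mul_smul_comm, map_smul, pp_eq, dl_eq, ← map_pow]
      rw [← mul_assoc, iR_iL, mul_assoc, ← map_mul, ← map_mul, PF_apply, lam_pow,
        top_vol L l (List.nodup_cons.2 ⟨fun h => h4 L h rfl, h5⟩)]
      by_cases h : i = j
      · simp [h, hc.ne', hc', (Nat.choose_pos (Nat.le_add_right _ _)).ne']
      · simp [h, show ¬ i + t + (i + t) = j + t + (j + t) by omega]
  have e1 : f (gen q L 1 * gen q L 0) = single 1 (pp (ev L 1)) := by
    simp [h1, single_mul_single, GA, PA]
  have e2 : ∀ a : ℕ, d ((gen q L 1 * gen q L 0) ^ (a + 1)) =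
      single 1 (((a + 1 : ℕ) : ℂ) • (pp (ev L 1) ^ a * dl (ev L 1))) := by
    have e : d (gen q L 1 * gen q L 0) = single 1 (dl (ev L 1)) := by
      simp [hd, h1, h2, single_mul_single, GA, PA, DA, gm_ev, ← single_add]
    intro a
    induction a with
    | zero => simp [e]
    | succ a ih =>
      rw [pow_succ, hd, ih, e, e1, map_pow, e1, show (single 1 (pp (ev L 1)) : OO _) ^ (a + 1) =
        single 1 (pp (ev L 1) ^ (a + 1)) from (map_pow singleOneRingHom _ _).symm,
        single_mul_single, single_mul_single, ← single_add]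
      simp [← pp_comm (ev L 1) (dl _), mul_assoc, add_smul, pow_succ, add_mul]
  have e3 : ∀ a : ℕ, (gen q L 1 * gen q L 0) ^ (a + 1) ∈
      Ap (eps q _) ⊓ ⨅ i ∈ l, Rm d 1 (SS q i) := fun a =>
    ⟨by simp [mem_Ap], (Submodule.mem_iInf _).2 fun i => (Submodule.mem_iInf _).2 fun hi =>
      le_Rm q d 1 i fun b => ⟨((gen_comm q (h4 i hi) _ _).mul_right
        (gen_comm q (h4 i hi) _ _)).pow_right _, by
        simp [e2, h2, single_mul_single, GA_pp hq (h4 i hi).symm, GA_dl hq (h4 i hi).symm, DA_mul]⟩⟩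
  have e4 : gen q L 2 ∈ Ap (eps q _) ⊓ ⨅ i ∈ l, Rm d 1 (SS q i) :=
    ⟨eps_gen q _ _, (Submodule.mem_iInf _).2 fun i => (Submodule.mem_iInf _).2 fun hi =>
      h3 i L (h4 i hi) (Submodule.subset_span ⟨2, rfl⟩)⟩
  have e5 : ∀ k (c : CC (VV (m + 1))), dl (ev L 2) * (pp (ev L 1) ^ k * c) =
      pp (ev L 1) ^ k * (dl (ev L 2) * c) := fun k c => by
    rw [← mul_assoc, ← (Commute.pow_left (pp_comm (ev L 1) (dl (ev L 2))) k).eq, mul_assoc]
  constructor
  · refine key 0 1 (pp (ev L 2) * dl (ev L 1) - pp (ev L 1) * dl (ev L 2))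
      (fun j => TensorAlgebra.ι ℂ ((gen q L 1 * gen q L 0) ^ (j + 1 + j + 1))) (fun i => ?_)
      (fun j => ⟨ι_mem_Al (e3 _), by simp, by simp⟩) fun j => ⟨_, _,
        Nat.cast_ne_zero.2 (j + 1 + j).succ_ne_zero, by rw [TensorAlgebra.lift_ι_apply, e2], ?_⟩
    · by_cases h : L = i
      · simp only [← h, map_sub, map_mul, sg_pp, sg_dl, gm_ev, map_add, map_smul, mul_add, add_mul,
          smul_mul_assoc, mul_smul_comm]
        match_scalars <;> simp [hq]
      · simp [gm_ne h]
    · simp [mul_assoc, mul_sub, dl_pp, dl_dl (ev L 1) (ev L 2), ← add_assoc, pow_succ]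
  · refine key 1 0 1 (fun j => TensorAlgebra.ι ℂ ((gen q L 1 * gen q L 0) ^ (j + j + 1)) *
      TensorAlgebra.ι ℂ (gen q L 2) - TensorAlgebra.ι ℂ (gen q L 2) *
        TensorAlgebra.ι ℂ ((gen q L 1 * gen q L 0) ^ (j + j + 1))) (by simp) (fun j => ⟨sub_mem
          (cons_mem (e3 _) (ι_mem_Al e4)) (cons_mem e4 (ι_mem_Al (e3 _))), by simp [tt_snoc, neg_add_eq_sub], ?_⟩)
      fun j => ⟨_, -2 * ((j + j + 1 : ℕ) : ℂ), mul_ne_zero (by simp)
        (Nat.cast_ne_zero.2 (j + j).succ_ne_zero), by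
          simp only [map_sub, map_mul, TensorAlgebra.lift_ι_apply, e2, h2, single_mul_single, GA, DA,
            Matrix.cons_val, one_smul, mul_one, ← ssub]; rfl, ?_⟩
    · have : Commute (gen q L 1 * gen q L 0) (gen q L 2) := by
        rw [Commute, SemiconjBy, mul_assoc, gen_xz, mul_smul_comm, ← mul_assoc, gen_yz,
          smul_mul_assoc, smul_smul, mul_inv_cancel₀ hq, one_smul, mul_assoc]
      simp [bp_cons, (this.pow_left _).eq]
    · simp only [mul_assoc, smul_mul_assoc, mul_smul_comm, e5, dl_dl (ev L 1) (ev L 2), mul_neg,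
        mul_one, add_zero]
      module

theorem inf_le {m n k : ℕ} (h : m ≤ n) (hI : Inf (eps q m) k) : Inf (eps q n) k := by
  let φ : HH m q →ₐ[ℂ] HH n q := hlift q (fun i a => gen q (Fin.castLE h i) a)
    (fun i j a b hij => gen_comm q ((Fin.castLE_injective h).ne hij) a b)
    (fun _ => gen_xz q _) (fun _ => gen_yz q _) fun _ => gen_xy q _
  let ψ : HH n q →ₐ[ℂ] HH m q :=
    hlift q (fun i a => if hi : (i : ℕ) < m then gen q ⟨i, hi⟩ a else 0)
      (fun i j a b hij => by
        split_ifs with h1 h2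
        · exact gen_comm q (fun hc => hij (Fin.ext (by simpa using hc))) a b
        all_goals simp)
      (fun i => by split_ifs <;> simp [gen_xz]) (fun i => by split_ifs <;> simp [gen_yz])
      fun i => by split_ifs <;> simp [gen_xy]
  refine hI.map φ (AlgHom.congr_fun (hext q (φ := (eps q n).comp φ) fun i a => by simp [φ])) ψ
    (AlgHom.congr_fun (hext q (φ := (eps q m).comp ψ) fun i a => ?_))
    (AlgHom.congr_fun (hext q (φ := ψ.comp φ) (ψ := AlgHom.id ℂ _) fun i a => by simp [φ, ψ]))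
  simp only [ψ, AlgHom.comp_apply, hlift_gen]
  split_ifs <;> simp

include hq in
theorem inf_all {n k : ℕ} (h : k < 3 * n) : Inf (eps q n) k := by
  refine inf_le (m := k / 3 + 1) (by omega) ?_
  obtain h | h | h : k = 0 + 3 * (k / 3) ∨ k = 1 + 3 * (k / 3) ∨ k = 3 * (k / 3) + 2 := by omega
  · exact (congrArg _ h).mpr (inf_low hq _).1
  · exact (congrArg _ h).mpr (inf_low hq _).2
  · exact (congrArg _ h).mpr (inf_top hq _)

end Pool.Agent.P.MP_5bcbab_al
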