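import Pool.Agent.P.MP_5bcbab_al.Cyc

namespace Pool.Agent.P.MP_5bcbab_al

open TensorAlgebra

set_option maxHeartbeats 400000

variable {A : Type} [Ring A] [Algebra ℂ A]

/-- act on the tail -/
noncomputable def tl (φ : TT A →ₗ[ℂ] TT A) : TT A →ₗ[ℂ] TT A := hd (cons.compl₂ φ)
/-- act on the first letter -/
noncomputable def fl (φ : A →ₗ[ℂ] A) : TT A →ₗ[ℂ] TT A := hd (cons ∘ₗ φ)
/-- contract the first letter -/
noncomputable def co (φ : A →ₗ[ℂ] ℂ) : TT A →ₗ[ℂ] TT A := hd (LinearMap.lsmul ℂ (TT A) ∘ₗ φ)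

@[simp] theorem tl_cons (φ : TT A →ₗ[ℂ] TT A) (a : A) (x : TT A) :
    tl φ (ι ℂ a * x) = ι ℂ a * φ x := by simp [tl]
@[simp] theorem fl_cons (φ : A →ₗ[ℂ] A) (a : A) (x : TT A) :
    fl φ (ι ℂ a * x) = ι ℂ (φ a) * x := by simp [fl]
@[simp] theorem co_cons (φ : A →ₗ[ℂ] ℂ) (a : A) (x : TT A) :
    co φ (ι ℂ a * x) = φ a • x := by simp [co]
@[simp] theorem tl_one (φ : TT A →ₗ[ℂ] TT A) : tl φ 1 = 0 := by simp [tl]
@[simp] theorem fl_one (φ : A →ₗ[ℂ] A) : fl φ (1 : TT A) = 0 := by simp [fl]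
@[simp] theorem co_one (φ : A →ₗ[ℂ] ℂ) : co φ (1 : TT A) = 0 := by simp [co]

theorem fl_mem {R R' : Submodule ℂ A} {U : Submodule ℂ (TT A)} {φ : A →ₗ[ℂ] A}
    (h : ∀ a ∈ R, φ a ∈ R') {x : TT A} (hx : x ∈ Cn R U) : fl φ x ∈ Cn R' U :=
  cn_mem _ (fun a ha y hy => by rw [fl_cons]; exact cons_mem (h a ha) hy) hx

theorem tl_mem {R : Submodule ℂ A} {U U' : Submodule ℂ (TT A)} {φ : TT A →ₗ[ℂ] TT A}
    (h : ∀ a ∈ U, φ a ∈ U') {x : TT A} (hx : x ∈ Cn R U) : tl φ x ∈ Cn R U' :=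
  cn_mem _ (fun a ha y hy => by rw [tl_cons]; exact cons_mem ha (h y hy)) hx

theorem co_mem {R : Submodule ℂ A} {U : Submodule ℂ (TT A)} (φ : A →ₗ[ℂ] ℂ) {x : TT A}
    (hx : x ∈ Cn R U) : co φ x ∈ U :=
  cn_mem _ (fun a _ y hy => by rw [co_cons]; exact U.smul_mem _ hy) hx

theorem exists_proj {V : Type} [AddCommGroup V] [Module ℂ V] (R : Submodule ℂ V) :
    ∃ φ : V →ₗ[ℂ] V, (∀ a, φ a ∈ R) ∧ ∀ a ∈ R, φ a = a := by
  obtain ⟨g, hg⟩ := LinearMap.exists_extend (LinearMap.id : R →ₗ[ℂ] R)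
  exact ⟨R.subtype ∘ₗ g, fun a => (g a).2, fun a ha => by
    simpa using congrArg Subtype.val (LinearMap.congr_fun hg ⟨a, ha⟩)⟩

theorem exists_inner {V V' : Type} [AddCommGroup V] [Module ℂ V] [AddCommGroup V'] [Module ℂ V']
    (f : V →ₗ[ℂ] V') (U : Submodule ℂ V) :
    ∃ s : V' →ₗ[ℂ] V, (∀ y, s y ∈ U) ∧ ∀ x ∈ U, f (s (f x)) = f x := by
  obtain ⟨g, hg⟩ := (f ∘ₗ U.subtype).rangeRestrict.exists_rightInverse_of_surjective
    (LinearMap.range_rangeRestrict _)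
  obtain ⟨g', hg'⟩ := LinearMap.exists_extend g
  refine ⟨U.subtype ∘ₗ g', fun y => (g' y).2, fun x hx => ?_⟩
  have h1 := LinearMap.congr_fun hg' ⟨f x, ⟨x, hx⟩, rfl⟩
  have h2 := congrArg Subtype.val (LinearMap.congr_fun hg ⟨f x, ⟨x, hx⟩, rfl⟩)
  simp only [LinearMap.comp_apply, Submodule.subtype_apply] at h1 h2 ⊢
  rw [h1]
  exact h2

theorem mem_Cn_inf {R : Submodule ℂ A} {U : Submodule ℂ (TT A)} {x : TT A} (h1 : x ∈ Cn ⊤ U)
    (h2 : x ∈ Cn R ⊤) : x ∈ Cn R U := by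
  obtain ⟨φ, h3, h4⟩ := exists_proj R
  have : fl φ x = x := cn_ext (g := LinearMap.id) (fun a ha y _ => by simp [h4 a ha]) h2
  exact this ▸ fl_mem (fun a _ => h3 a) h1

variable (e : A →ₐ[ℂ] ℂ)

/-- augmentation ideal -/
noncomputable def Ap : Submodule ℂ A := LinearMap.ker e.toLinearMap

theorem mem_Ap {a : A} : a ∈ Ap e ↔ e a = 0 := Iff.rfl

/-- projection to the augmentation ideal -/
noncomputable def pr : A →ₗ[ℂ] A := LinearMap.id - e.toLinearMap.smulRight 1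

theorem pr_apply (a : A) : pr e a = a - e a • 1 := rfl

theorem pr_mem (a : A) : pr e a ∈ Ap e := by simp [mem_Ap, pr_apply]

theorem pr_of_mem {a : A} (ha : a ∈ Ap e) : pr e a = a := by simp [pr_apply, (mem_Ap e).1 ha]

@[simp] theorem pr_one : pr e 1 = 0 := by simp [pr_apply]

/-- normalise all letters -/
noncomputable def rho : TT A →ₐ[ℂ] TT A := lift ℂ (ι ℂ ∘ₗ pr e)

@[simp] theorem rho_ι (a : A) : rho e (ι ℂ a) = ι ℂ (pr e a) := by simp [rho]

theorem rho_mem {p : ℕ} {x : TT A} (hx : x ∈ Al ⊤ p) : rho e x ∈ Al (Ap e) p := by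
  induction p generalizing x with
  | zero =>
    obtain ⟨c, rfl⟩ := Submodule.mem_span_singleton.1 hx
    simpa using Submodule.smul_mem _ c (one_mem_Al _)
  | succ p ih =>
    exact cn_mem (rho e).toLinearMap (fun a _ y hy => by
      simpa [Al] using cons_mem (pr_mem e a) (ih hy)) hx

theorem rho_of_mem {p : ℕ} {x : TT A} (hx : x ∈ Al (Ap e) p) : rho e x = x := by
  induction p generalizing x with
  | zero =>
    obtain ⟨c, rfl⟩ := Submodule.mem_span_singleton.1 hx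
    simp
  | succ p ih =>
    exact cn_ext (f := (rho e).toLinearMap) (g := LinearMap.id) (fun a ha y hy => by
      simp [pr_of_mem e ha, ih hy]) hx

theorem rho_rho (x : TT A) : rho e (rho e x) = rho e x :=
  left_ext (f := (rho e).toLinearMap ∘ₗ (rho e).toLinearMap) (g := (rho e).toLinearMap) (by simp)
    (fun a x h => by simp at h; simp [h, pr_of_mem e (pr_mem e a)]) x

theorem rho_gam (x : TT A) : rho e (gam x) = gam (rho e x) :=
  left_ext (f := (rho e).toLinearMap ∘ₗ gam.toLinearMap)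
    (g := gam.toLinearMap ∘ₗ (rho e).toLinearMap) (by simp) (fun a x h => by simp at h; simp [h]) x

theorem rho_tau (x : TT A) : rho e (tau x) = tau (rho e x) :=
  left_ext (f := (rho e).toLinearMap ∘ₗ tau) (g := tau ∘ₗ (rho e).toLinearMap) (by simp)
    (fun a x _ => by simp [rho_gam]) x

theorem rho_Nn (p : ℕ) (x : TT A) : rho e (Nn p x) = Nn p (rho e x) := by
  rw [Nn_apply, Nn_apply, map_sum]
  refine Finset.sum_congr rfl fun i hi => ?_
  clear hi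
  induction i with
  | zero => simp
  | succ i ih => simp only [pow_succ', Module.End.mul_apply, rho_tau, ih]

theorem rho_mul1 (a : A) (x : TT A) : rho e (mul1 a (rho e x)) = mul1 a (rho e x) :=
  left_ext (f := (rho e).toLinearMap ∘ₗ mul1 a ∘ₗ (rho e).toLinearMap)
    (g := mul1 a ∘ₗ (rho e).toLinearMap) (by simp) (fun b x _ => by
      have : a * pr e b ∈ Ap e := by simp [mem_Ap, (mem_Ap e).1 (pr_mem e b)]
      simp [rho_rho, pr_of_mem e this]) x

theorem rho_bp (x : TT A) : rho e (bp (rho e x)) = bp (rho e x) :=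
  left_ext (f := (rho e).toLinearMap ∘ₗ bp ∘ₗ (rho e).toLinearMap)
    (g := bp ∘ₗ (rho e).toLinearMap) (by simp) (fun b x h => by
      simp at h
      simp [bp_cons, rho_mul1, h, pr_of_mem e (pr_mem e b)]) x

/-- normalisation -/
noncomputable def nrm : TT A →ₗ[ℂ] TT A := recT 1 (cons.compl₂ (rho e).toLinearMap) 0

@[simp] theorem nrm_one : nrm e 1 = 1 := by simp [nrm]
@[simp] theorem nrm_cons (a : A) (x : TT A) : nrm e (ι ℂ a * x) = ι ℂ a * rho e x := by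
  simp [nrm]
@[simp] theorem nrm_ι (a : A) : nrm e (ι ℂ a) = ι ℂ a := by simpa using nrm_cons e a 1

theorem rho_nrm (x : TT A) : rho e (nrm e x) = rho e x :=
  left_ext (f := (rho e).toLinearMap ∘ₗ nrm e) (g := (rho e).toLinearMap) (by simp)
    (fun b x _ => by simp [rho_rho]) x

theorem mul1_one_snoc (x : TT A) (a : A) : mul1 1 (x * ι ℂ a) = x * ι ℂ a :=
  left_ext (f := mul1 1 ∘ₗ LinearMap.mulRight ℂ (ι ℂ a)) (g := LinearMap.mulRight ℂ (ι ℂ a))
    (by simp) (fun b x _ => by simp [mul_assoc]) x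

theorem nrm_bp (y : TT A) (a c : A) : nrm e (bp (ι ℂ a * (y * ι ℂ c))) =
    bp (ι ℂ a * rho e (y * ι ℂ c)) + e c • (ι ℂ a * gam (rho e y)) := by
  induction y using left_ind generalizing a with
  | hadd x y hx hy => simp only [add_mul, mul_add, map_add, hx, hy, smul_add]; abel
  | hsmul r x hx =>
    simp only [smul_mul_assoc, mul_smul_comm, map_smul, hx, smul_add, smul_comm r (e c)]
  | h1 => simp [bp_cons, pr_apply, mul_sub]
  | hc b y ih =>
    have h1 : rho e (bp (ι ℂ b * (y * ι ℂ c))) = bp (rho e (ι ℂ b * (y * ι ℂ c))) +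
        e b • rho e (y * ι ℂ c) + e c • (ι ℂ (pr e b) * gam (rho e y)) := by
      have h2 : ι ℂ b * rho e (y * ι ℂ c) =
          rho e (ι ℂ b * (y * ι ℂ c)) + e b • (ι ℂ 1 * rho e (y * ι ℂ c)) := by
        rw [map_mul (rho e) (ι ℂ b), rho_ι, pr_apply]
        simp [sub_mul]
      have h3 : rho e (mul1 1 (rho e (y * ι ℂ c))) = rho e (y * ι ℂ c) := by
        rw [rho_mul1, map_mul, rho_ι, mul1_one_snoc]
      rw [← rho_nrm, ih, h2, map_add bp, map_add, map_add, rho_bp, map_smul bp, bp_cons, map_smul,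
        map_sub, h3]
      simp [rho_gam, rho_rho]
    rw [mul_assoc, bp_cons, map_sub, mul1_cons, nrm_cons, nrm_cons, h1, bp_cons,
      map_mul (rho e) (ι ℂ b), rho_ι, mul1_cons, pr_apply e b, mul_sub a]
    simp only [map_sub, map_smul, mul_smul_comm, mul_one, map_mul, rho_ι, pr_apply e b, gam_ι,
      sub_mul, mul_sub, mul_add, smul_mul_assoc, neg_mul, mul_neg, smul_sub, smul_neg]
    abel

theorem nrm_bb (x : TT A) : nrm e (bb x) = bb (nrm e x) := by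
  refine left_ext (f := nrm e ∘ₗ bb) (g := bb ∘ₗ nrm e) (by simp) (fun a x _ => ?_) x
  refine right_ext (f := nrm e ∘ₗ bb ∘ₗ cons a) (g := bb ∘ₗ nrm e ∘ₗ cons a) (by simp)
    (fun c y _ => ?_) x
  simp only [LinearMap.comp_apply, cons_apply, bb_apply, map_add, nrm_bp, nrm_cons]
  rw [map_mul (rho e), rho_ι, ← mul_assoc, ← mul_assoc, tt_snoc, tt_snoc]
  simp [rho_gam, pr_apply, sub_mul]
  abel

/-- normalised chains of degree `j` -/
noncomputable def GG (j : ℕ) : Submodule ℂ (TT A) := Cn ⊤ (Al (Ap e) j)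

theorem T_le_GG (j : ℕ) : Al (Ap e) (j + 1) ≤ GG e j := Cn_mono le_top le_rfl

theorem GG_le (j : ℕ) : GG e j ≤ Al ⊤ (j + 1) := Cn_mono le_rfl (Al_mono le_top j)

theorem nrm_mem {j : ℕ} {x : TT A} (hx : x ∈ Al ⊤ (j + 1)) : nrm e x ∈ GG e j :=
  cn_mem _ (fun a _ y hy => by rw [nrm_cons]; exact cons_mem trivial (rho_mem e hy)) hx

theorem nrm_of_mem {j : ℕ} {x : TT A} (hx : x ∈ GG e j) : nrm e x = x :=
  cn_ext (g := LinearMap.id) (fun a _ y hy => by simp [rho_of_mem e hy]) hx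

theorem mul1_mem {p : ℕ} (a : A) {x : TT A} (hx : x ∈ Al ⊤ (p + 1)) : mul1 a x ∈ Al ⊤ (p + 1) :=
  cn_mem _ (fun b _ y hy => by rw [mul1_cons]; exact cons_mem trivial hy) hx

theorem bp_mem_top {p : ℕ} {x : TT A} (hx : x ∈ Al ⊤ (p + 1)) : bp x ∈ Al ⊤ p := by
  induction p generalizing x with
  | zero =>
    refine cn_mem bp (fun a _ y hy => ?_) hx
    obtain ⟨c, rfl⟩ := Submodule.mem_span_singleton.1 hy
    simp
  | succ p ih =>
    refine cn_mem bp (fun a _ y hy => ?_) hx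
    rw [bp_cons]
    exact sub_mem (mul1_mem a hy) (cons_mem trivial (ih hy))

theorem bp_mem {p : ℕ} {x : TT A} (hx : x ∈ Al (Ap e) (p + 1)) : bp x ∈ Al (Ap e) p := by
  have := rho_mem e (bp_mem_top (Al_mono le_top _ hx))
  rwa [← rho_of_mem e hx, rho_bp, rho_of_mem e hx] at this

theorem bp_mem_GG {p : ℕ} {x : TT A} (hx : x ∈ GG e (p + 1)) : bp x ∈ GG e p := by
  refine cn_mem bp (fun a _ y hy => ?_) hx
  rw [bp_cons]
  refine sub_mem (cn_mem _ (fun b _ y hy => ?_) hy) (cons_mem trivial (bp_mem e hy))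
  rw [mul1_cons]
  exact cons_mem trivial hy

theorem bb_mem_GG {p : ℕ} {x : TT A} (hx : x ∈ GG e (p + 1)) : bb x ∈ GG e p := by
  have h := GG_le e _ hx
  rw [← nrm_of_mem e hx, ← nrm_bb]
  exact nrm_mem e (bb_apply x ▸ add_mem (bp_mem_top h) (d0_mem (tt_mem h)))

theorem bb_zero {x : TT A} (hx : x ∈ Al ⊤ 1) : bb x = 0 :=
  cn_ext (g := 0) (fun a _ y hy => by
    obtain ⟨c, rfl⟩ := Submodule.mem_span_singleton.1 hy
    simp) hx

theorem bp_zero {x : TT A} (hx : x ∈ Al ⊤ 1) : bp x = 0 :=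
  cn_ext (g := 0) (fun a _ y hy => by
    obtain ⟨c, rfl⟩ := Submodule.mem_span_singleton.1 hy
    simp) hx

theorem bb_mem {p : ℕ} {x : TT A} (hx : x ∈ Al (Ap e) (p + 2)) : bb x ∈ Al (Ap e) (p + 1) := by
  rw [bb_apply]
  refine add_mem (bp_mem e hx) (cn_mem d0 (fun a _ y hy => ?_) (tt_mem hx))
  rw [d0_cons]
  refine cn_mem (mul1 a) (fun b hb z hz => ?_) hy
  rw [mul1_cons]
  exact cons_mem (by simp [mem_Ap, (mem_Ap e).1 hb]) hz

theorem bb_one_cons {p : ℕ} {v : TT A} (hv : v ∈ Al ⊤ (p + 1)) :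
    bb (ι ℂ 1 * v) = v - tt v - ι ℂ 1 * bp v := by
  refine al_ext (f := bb ∘ₗ cons 1) (g := LinearMap.id - tt - cons 1 ∘ₗ bp) (fun l hl _ => ?_) hv
  obtain rfl | ⟨l, c, rfl⟩ := l.eq_nil_or_concat'
  · simp at hl
  simp only [LinearMap.comp_apply, cons_apply, LinearMap.sub_apply, LinearMap.id_apply, tm_append,
    tm_cons, tm_nil, mul_one, bb_apply, bp_cons, mul1_one_snoc]
  rw [← mul_assoc, tt_snoc, tt_snoc]
  simp
  abel

theorem GG_split {j : ℕ} {x : TT A} (hx : x ∈ GG e j) :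
    x = rho e x + ι ℂ 1 * co e.toLinearMap x :=
  cn_ext (f := LinearMap.id) (g := (rho e).toLinearMap + cons 1 ∘ₗ co e.toLinearMap)
    (fun a _ y hy => by simp [rho_of_mem e hy, pr_apply, sub_mul]) hx

theorem rho_GG {j : ℕ} {x : TT A} (hx : x ∈ GG e j) : rho e x ∈ Al (Ap e) (j + 1) :=
  rho_mem e (GG_le e j hx)

theorem co_T {j : ℕ} {x : TT A} (hx : x ∈ Al (Ap e) (j + 1)) : co e.toLinearMap x = 0 :=
  cn_ext (g := 0) (fun a ha y _ => by simp [(mem_Ap e).1 ha]) hx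

theorem sep {j : ℕ} {u v : TT A} (hu : u ∈ Al (Ap e) (j + 1)) (h : u + ι ℂ 1 * v = 0) :
    u = 0 ∧ v = 0 := by
  have := congrArg (co e.toLinearMap) h
  rw [map_add, co_T e hu] at this
  simp at this
  simpa [this] using h

theorem bb_GG {j : ℕ} {x : TT A} (hx : x ∈ GG e (j + 1)) : bb x =
    (bb (rho e x) + (co e.toLinearMap x - tt (co e.toLinearMap x))) +
      ι ℂ 1 * (-bp (co e.toLinearMap x)) := by
  conv_lhs => rw [GG_split e hx, map_add, bb_one_cons (Al_mono le_top _ (co_mem _ hx))]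
  noncomm_ring

theorem bb_GG_mem {j : ℕ} {x : TT A} (hx : x ∈ GG e (j + 1)) :
    bb (rho e x) + (co e.toLinearMap x - tt (co e.toLinearMap x)) ∈ Al (Ap e) (j + 1) :=
  add_mem (bb_mem e (rho_GG e hx)) (sub_mem (co_mem _ hx) (tt_mem (co_mem _ hx)))

/-- Connes' operator on words of length `p` -/
noncomputable def Bt (p : ℕ) : TT A →ₗ[ℂ] TT A := cons 1 ∘ₗ Nn p ∘ₗ (rho e).toLinearMap

theorem Bt_apply (p : ℕ) (x : TT A) : Bt e p x = ι ℂ 1 * Nn p (rho e x) := rfl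

theorem Bt_mem {j : ℕ} {x : TT A} (hx : x ∈ GG e j) : Bt e (j + 1) x ∈ GG e (j + 1) :=
  cons_mem trivial (Nn_mem (rho_GG e hx) _)

theorem Bt_Bt (p p' : ℕ) (x : TT A) : Bt e p (Bt e p' x) = 0 := by simp [Bt_apply]

theorem bb_Bt {j : ℕ} {x : TT A} (hx : x ∈ GG e (j + 1)) :
    bb (Bt e (j + 2) x) = -Bt e (j + 1) (bb x) := by
  have h := Al_mono le_top _ (rho_GG e hx)
  rw [Bt_apply, Bt_apply, bb_one_cons (Nn_mem h _), tt_Nn h, ← Nn_bb h, bb_GG e hx, map_add,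
    rho_of_mem e (bb_GG_mem e hx), map_mul, rho_ι, pr_one, map_zero, zero_mul, add_zero, map_add,
    Nn_sub_tt (co_mem _ hx)]
  simp

theorem bb_Bt_zero {x : TT A} (hx : x ∈ GG e 0) : bb (Bt e 1 x) = 0 := by
  have h := Al_mono le_top _ (rho_GG e hx)
  rw [Bt_apply, bb_one_cons (Nn_mem h _), tt_Nn h, bp_zero (Nn_mem h _)]
  simp

end Pool.Agent.P.MP_5bcbab_al
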