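import Pool.Agent.P.MP_5bcbab_al.Bridge

namespace Pool.Agent.P.MP_5bcbab_al

open Module Finsupp Function

set_option maxHeartbeats 400000

variable {n : ℕ} (q : ℂ)

/-- the algebra -/
abbrev HH (n : ℕ) (q : ℂ) : Type := RingQuot (HRel n q)

/-- generators -/
noncomputable def gen (i : Fin n) (a : Fin 3) : HH n q :=
  RingQuot.mkAlgHom ℂ (HRel n q) (FreeAlgebra.ι ℂ (i, a))

theorem gen_comm {i j : Fin n} (h : i ≠ j) (a b : Fin 3) : Commute (gen q i a) (gen q j b) := by
  simpa [gen, Commute, SemiconjBy] using RingQuot.mkAlgHom_rel ℂ (HRel.comm (q := q) i j a b h)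

theorem gen_xz (i : Fin n) : gen q i 0 * gen q i 2 = q • (gen q i 2 * gen q i 0) := by
  simpa [gen] using RingQuot.mkAlgHom_rel ℂ (HRel.xz (q := q) i)

theorem gen_yz (i : Fin n) : gen q i 1 * gen q i 2 = q⁻¹ • (gen q i 2 * gen q i 1) := by
  simpa [gen] using RingQuot.mkAlgHom_rel ℂ (HRel.yz (q := q) i)

theorem gen_xy (i : Fin n) :
    gen q i 0 * gen q i 1 = q⁻¹ • (gen q i 1 * gen q i 0) + gen q i 2 := by
  simpa [gen] using RingQuot.mkAlgHom_rel ℂ (HRel.xy (q := q) i)

section lift
variable {B : Type} [Ring B] [Algebra ℂ B] (f : Fin n → Fin 3 → B)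
  (h1 : ∀ i j a b, i ≠ j → f i a * f j b = f j b * f i a)
  (h2 : ∀ i, f i 0 * f i 2 = q • (f i 2 * f i 0)) (h3 : ∀ i, f i 1 * f i 2 = q⁻¹ • (f i 2 * f i 1))
  (h4 : ∀ i, f i 0 * f i 1 = q⁻¹ • (f i 1 * f i 0) + f i 2)

/-- universal property -/
noncomputable def hlift : HH n q →ₐ[ℂ] B :=
  RingQuot.liftAlgHom ℂ ⟨FreeAlgebra.lift ℂ fun p => f p.1 p.2, fun _ _ h => by
    cases h with
    | comm i j a b h => simp [h1 i j a b h]
    | xz i => simp [h2]
    | yz i => simp [h3]
    | xy i => simp [h4]⟩

@[simp] theorem hlift_gen (i : Fin n) (a : Fin 3) :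
    hlift q f h1 h2 h3 h4 (gen q i a) = f i a := by simp [hlift, gen]

theorem hext {φ ψ : HH n q →ₐ[ℂ] B} (h : ∀ i a, φ (gen q i a) = ψ (gen q i a)) : φ = ψ := by
  ext ⟨i, a⟩
  exact h i a

end lift

theorem gen_ind {P : HH n q → Prop} (hadd : ∀ x y, P x → P y → P (x + y))
    (halg : ∀ c, P (algebraMap ℂ _ c)) (hmul : ∀ x y, P x → P y → P (x * y))
    (hg : ∀ i a, P (gen q i a)) (x : HH n q) : P x := by
  obtain ⟨x, rfl⟩ := RingQuot.mkAlgHom_surjective ℂ (HRel n q) x
  induction x using FreeAlgebra.induction with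
  | grade0 c => simpa using halg c
  | grade1 p => exact hg p.1 p.2
  | mul a b ha hb => simpa using hmul _ _ ha hb
  | add a b ha hb => simpa using hadd _ _ ha hb

/-- augmentation -/
noncomputable def eps (n : ℕ) : HH n q →ₐ[ℂ] ℂ :=
  hlift q (fun _ _ => 0) (by simp) (by simp) (by simp) (by simp)

@[simp] theorem eps_gen (i : Fin n) (a : Fin 3) : eps q n (gen q i a) = 0 := by simp [eps]

/-- leading coefficient -/
noncomputable def al (a : Fin 3) (t : Fin 3 → ℕ) : ℂ := ![q ^ t 2 * q⁻¹ ^ t 1, q⁻¹ ^ t 2, 1] a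
/-- geometric sum -/
noncomputable def gs (b : ℕ) : ℂ := ∑ j ∈ Finset.range b, (q⁻¹ * q⁻¹) ^ j
@[simp] theorem gs_zero : gs q 0 = 0 := by simp [gs]
theorem gs_succ (b : ℕ) : gs q (b + 1) = q⁻¹ * q⁻¹ * gs q b + 1 := geom_sum_succ
theorem gs_succ' (b : ℕ) : gs q (b + 1) = gs q b + (q⁻¹ * q⁻¹) ^ b := Finset.sum_range_succ _ _
/-- second coefficient -/
noncomputable def be (a : Fin 3) (t : Fin 3 → ℕ) : ℂ := ![q ^ t 2 * gs q (t 1), 0, 0] a
/-- second shift -/
def sw (t : Fin 3 → ℕ) : Fin 3 → ℕ := ![t 0, t 1 - 1, t 2 + 1]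
/-- raise an exponent -/
def up (κ : Fin n → Fin 3 → ℕ) (i : Fin n) (a : Fin 3) : Fin n → Fin 3 → ℕ :=
  update κ i (κ i + Pi.single a 1)

/-- action on monomials -/
noncomputable def op (i : Fin n) (a : Fin 3) : Module.End ℂ ((Fin n → Fin 3 → ℕ) →₀ ℂ) :=
  linearCombination ℂ fun κ => al q a (κ i) • single (up κ i a) 1 +
    be q a (κ i) • single (Function.update κ i (sw (κ i))) 1

theorem op_single (i : Fin n) (a : Fin 3) (κ : Fin n → Fin 3 → ℕ) :
    op q i a (single κ 1) = al q a (κ i) • single (up κ i a) 1 +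
      be q a (κ i) • single (Function.update κ i (sw (κ i))) 1 := by simp [op]

variable {q} (hq : q ≠ 0)

/-- the regular representation -/
noncomputable def rep (n : ℕ) : HH n q →ₐ[ℂ] Module.End ℂ ((Fin n → Fin 3 → ℕ) →₀ ℂ) :=
  hlift q (op q)
    (fun i j a b h => by
      ext κ : 2
      simp only [LinearMap.comp_apply, lsingle_apply, Module.End.mul_apply, op_single, map_add, up,
        map_smul, update_of_ne h, update_of_ne h.symm, update_comm h]
      module)
    (fun i => by
      ext κ : 2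
      have : sw (κ i + Pi.single 2 1) = sw (κ i) + Pi.single 2 1 := by
        ext a
        fin_cases a <;> simp [sw]
      simp only [LinearMap.comp_apply, lsingle_apply, Module.End.mul_apply, op_single, map_add, up,
        map_smul, Function.update_self, Function.update_idem, LinearMap.smul_apply, this,
        add_right_comm (κ i) (Pi.single 2 1)]
      match_scalars <;> simp [al, be, pow_succ', mul_assoc])
    (fun i => by
      ext κ : 2
      simp only [LinearMap.comp_apply, lsingle_apply, Module.End.mul_apply, op_single, map_add, up,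
        map_smul, Function.update_self, Function.update_idem, LinearMap.smul_apply,
        add_right_comm (κ i) (Pi.single 2 1)]
      match_scalars <;> simp [al, be, pow_succ'])
    (fun i => by
      ext κ : 2
      have h1 : sw (κ i + Pi.single 1 1) = κ i + Pi.single 2 1 := by
        ext a
        fin_cases a <;> simp [sw]
      have h2 : κ i 1 ≠ 0 → sw (κ i) + Pi.single 1 1 = κ i + Pi.single 2 1 := fun h => by
        ext a
        fin_cases a <;> simp [sw]
        omega
      simp only [LinearMap.comp_apply, lsingle_apply, Module.End.mul_apply, op_single, map_add, up,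
        map_smul, Function.update_self, Function.update_idem, LinearMap.smul_apply, h1,
        LinearMap.add_apply, add_right_comm (κ i) (Pi.single 1 1)]
      by_cases h : κ i 1 = 0
      · match_scalars <;> simp [al, be, h, hq, gs_succ]
      · rw [h2 h]
        match_scalars <;> simp [al, be, sw, pow_succ, gs_succ] <;> field_simp)

theorem rep_gen (i : Fin n) (a : Fin 3) : rep hq n (gen q i a) = op q i a := by simp [rep]

variable (q) in
/-- monomial in one index -/
noncomputable def mono (i : Fin n) (t : Fin 3 → ℕ) : HH n q :=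
  gen q i 2 ^ t 2 * (gen q i 1 ^ t 1 * gen q i 0 ^ t 0)

theorem qpow {B : Type} [Ring B] [Algebra ℂ B] {x z : B} {c : ℂ} (h : x * z = c • (z * x))
    (k : ℕ) : x * z ^ k = c ^ k • (z ^ k * x) := by
  induction k with
  | zero => simp
  | succ k ih =>
    rw [pow_succ, ← mul_assoc, ih, smul_mul_assoc, mul_assoc, h, mul_smul_comm, smul_smul,
      pow_succ, mul_assoc]

theorem gen_mono (i : Fin n) (a : Fin 3) (t : Fin 3 → ℕ) : gen q i a * mono q i t =
    al q a t • mono q i (t + Pi.single a 1) + be q a t • mono q i (sw t) := by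
  fin_cases a
  · have : ∀ b, gen q i 0 * gen q i 1 ^ b = q⁻¹ ^ b • (gen q i 1 ^ b * gen q i 0) +
        gs q b • (gen q i 2 * gen q i 1 ^ (b - 1)) := by
      intro b
      induction b with
      | zero => simp
      | succ b ih =>
        have h1 : gs q b • (gen q i 2 * gen q i 1 ^ (b - 1) * gen q i 1) =
            gs q b • (gen q i 2 * gen q i 1 ^ b) := by
          obtain _ | b := b
          · simp
          · simp [pow_succ, mul_assoc]
        have h2 : gen q i 1 ^ b * gen q i 2 = q⁻¹ ^ b • (gen q i 2 * gen q i 1 ^ b) := by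
          clear ih h1
          induction b with
          | zero => simp
          | succ b ih =>
            rw [pow_succ', mul_assoc, ih, mul_smul_comm, ← mul_assoc, gen_yz, smul_mul_assoc,
              smul_smul, pow_succ, mul_assoc]
        rw [pow_succ, ← mul_assoc, ih, add_mul, smul_mul_assoc, smul_mul_assoc, h1, mul_assoc,
          gen_xy, mul_add, h2, gs_succ', mul_smul_comm, ← mul_assoc, mul_pow, pow_succ q⁻¹,
          Nat.add_sub_cancel]
        module
    simp only [mono, al, be, sw, Fin.zero_eta, Pi.add_apply]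
    rw [← mul_assoc, qpow (gen_xz q i), smul_mul_assoc, mul_assoc, ← mul_assoc (gen q i 0), this]
    simp [mul_add, add_mul, mul_assoc, pow_succ' (gen q i 0), pow_succ (gen q i 2), smul_smul]
  · simp only [mono, al, be, sw, Fin.mk_one, Pi.add_apply]
    rw [← mul_assoc, qpow (gen_yz q i)]
    simp [mul_assoc, pow_succ']
  · simp [mono, al, be, pow_succ', mul_assoc]

theorem mono_comm (κ : Fin n → Fin 3 → ℕ) (s : Finset (Fin n)) :
    (s : Set (Fin n)).Pairwise (Commute on fun i => mono q i (κ i)) := fun _ _ _ _ h => by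
  simp only [onFun, mono]
  refine Commute.mul_left ?_ (Commute.mul_left ?_ ?_) <;>
    refine Commute.mul_right ?_ (Commute.mul_right ?_ ?_) <;> exact (gen_comm q h _ _).pow_pow _ _

variable (q) in
/-- monomials -/
noncomputable def mon (κ : Fin n → Fin 3 → ℕ) : HH n q :=
  Finset.univ.noncommProd (fun i => mono q i (κ i)) (mono_comm κ _)

theorem mon_update (κ : Fin n → Fin 3 → ℕ) (i : Fin n) (t : Fin 3 → ℕ) :
    mon q (Function.update κ i t) = mono q i t *
      (Finset.univ.erase i).noncommProd (fun i => mono q i (κ i)) (mono_comm κ _) := by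
  rw [mon, ← Finset.mul_noncommProd_erase _ (Finset.mem_univ i), Function.update_self]
  congr 1
  exact Finset.noncommProd_congr rfl (fun j hj => by
    rw [update_of_ne (Finset.ne_of_mem_erase hj)]) _

theorem gen_mon (i : Fin n) (a : Fin 3) (κ : Fin n → Fin 3 → ℕ) : gen q i a * mon q κ =
    al q a (κ i) • mon q (up κ i a) + be q a (κ i) • mon q (Function.update κ i (sw (κ i))) := by
  conv_lhs => rw [← update_eq_self i κ]
  simp only [up, mon_update, ← mul_assoc, gen_mono, add_mul, smul_mul_assoc]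

@[simp] theorem mon_zero : mon q (0 : Fin n → Fin 3 → ℕ) = 1 := by
  rw [mon, Finset.noncommProd_eq_pow_card _ _ _ 1 (by simp [mono]), one_pow]

/-- weight of a monomial -/
def wt (κ : Fin n → Fin 3 → ℕ) : ℕ := ∑ i, (κ i 0 + κ i 1 + 2 * κ i 2)

theorem wt_update (κ : Fin n → Fin 3 → ℕ) (i : Fin n) (t : Fin 3 → ℕ) (w : ℕ)
    (h : t 0 + t 1 + 2 * t 2 = κ i 0 + κ i 1 + 2 * κ i 2 + w) :
    wt (Function.update κ i t) = wt κ + w := by
  rw [wt, wt, ← Finset.add_sum_erase _ _ (Finset.mem_univ i),
    ← Finset.add_sum_erase _ _ (Finset.mem_univ i), Function.update_self, h, add_right_comm]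
  congr 2
  exact Finset.sum_congr rfl fun j hj => by rw [update_of_ne (Finset.ne_of_mem_erase hj)]

theorem wt_up (κ : Fin n → Fin 3 → ℕ) (i : Fin n) (a : Fin 3) :
    wt (up κ i a) = wt κ + ![1, 1, 2] a :=
  wt_update κ i _ _ (by fin_cases a <;> simp <;> omega)

theorem peel {κ : Fin n → Fin 3 → ℕ} {i : Fin n} {a : Fin 3} (h : κ i a ≠ 0)
    (h' : ∀ b, a < b → κ i b = 0) : ∃ κ', κ = up κ' i a ∧ al q a (κ' i) = 1 ∧ be q a (κ' i) = 0 := by
  refine ⟨Function.update κ i (κ i - Pi.single a 1), ?_, ?_, ?_⟩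
  · rw [up, Function.update_idem, Function.update_self, tsub_add_cancel_of_le, update_eq_self]
    intro b
    by_cases hb : b = a
    · simpa [hb] using Nat.one_le_iff_ne_zero.2 h
    · simp [hb]
  · fin_cases a
    · simp [al, h' 1 (by decide), h' 2 (by decide)]
    · simp [al, h' 2 (by decide)]
    · simp [al]
  · fin_cases a
    · simp [be, h' 1 (by decide)]
    all_goals simp [be]

theorem exists_top {t : Fin 3 → ℕ} {a : Fin 3} (h : t a ≠ 0) :
    ∃ a', a ≤ a' ∧ t a' ≠ 0 ∧ ∀ b, a' < b → t b = 0 := by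
  obtain ⟨a', h1, h2⟩ := (Finset.univ.filter fun b => t b ≠ 0).exists_max_image id ⟨a, by simpa⟩
  exact ⟨a', h2 a (by simpa), by simpa using h1, fun b hb => by
    by_contra hc
    exact hb.not_ge (h2 b (by simpa))⟩

variable (q) in
theorem mon_ind {P : (Fin n → Fin 3 → ℕ) → Prop} (h0 : P 0) (h : ∀ κ i a, al q a (κ i) = 1 →
    be q a (κ i) = 0 → P κ → P (up κ i a)) (κ : Fin n → Fin 3 → ℕ) : P κ := by
  induction hw : wt κ using Nat.strong_induction_on generalizing κ with
  | _ w ih =>
  by_cases hκ : κ = 0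
  · exact hκ ▸ h0
  obtain ⟨i, hi⟩ := Function.ne_iff.1 hκ
  obtain ⟨a, ha⟩ := Function.ne_iff.1 hi
  obtain ⟨a, -, h1, h2⟩ := exists_top ha
  obtain ⟨κ', rfl, h3, h4⟩ := peel (q := q) h1 h2
  refine h _ _ _ h3 h4 (ih _ ?_ _ rfl)
  rw [← hw, wt_up]
  fin_cases a <;> simp

/-- the PBW basis -/
noncomputable def pbw (n : ℕ) : Basis (Fin n → Fin 3 → ℕ) ℂ (HH n q) :=
  Basis.ofRepr (LinearEquiv.ofLinearMap (LinearMap.applyₗ (single 0 1) ∘ₗ (rep hq n).toLinearMap)
    (linearCombination ℂ (mon q))
    (by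
      ext κ : 2
      simp only [LinearMap.comp_apply, lsingle_apply, linearCombination_single, one_smul,
        LinearMap.applyₗ_apply_apply, AlgHom.toLinearMap_apply, LinearMap.id_apply]
      induction κ using mon_ind q with
      | h0 => simp
      | h κ i a h1 h2 ih =>
        have := gen_mon (q := q) i a κ
        rw [h1, h2, one_smul, zero_smul, add_zero] at this
        rw [← this, map_mul, Module.End.mul_apply, ih, rep_gen, op_single, h1, h2]
        simp)
    (by
      have : ∀ x v, linearCombination ℂ (mon q) (rep hq n x v) =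
          x * linearCombination ℂ (mon q) v := by
        intro x
        induction x using gen_ind with
        | hadd x y hx hy => simp [hx, hy, add_mul]
        | halg c => simp [Algebra.smul_def]
        | hmul x y hx hy => simp [hx, hy, mul_assoc]
        | hg i a =>
          intro v
          induction v using Finsupp.induction_linear with
          | zero => simp
          | add v w hv hw => simp only [map_add, hv, hw, mul_add]
          | single κ c =>
            rw [← smul_single_one, map_smul, rep_gen, op_single]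
            simp [gen_mon, smul_smul, -single_mul]
      ext x
      simp [this]))

theorem pbw_apply (κ : Fin n → Fin 3 → ℕ) : pbw hq n κ = mon q κ := by
  simp [pbw, Basis.coe_ofRepr]

/-- the Euler derivation -/
noncomputable def eul (n : ℕ) : HH n q →ₗ[ℂ] HH n q :=
  (pbw hq n).constr ℂ fun κ => (wt κ : ℂ) • mon q κ

theorem eul_mon (κ : Fin n → Fin 3 → ℕ) : eul hq n (mon q κ) = (wt κ : ℂ) • mon q κ := by
  rw [← pbw_apply hq, eul, Basis.constr_basis, pbw_apply]

theorem eul_gen (i : Fin n) (a : Fin 3) (x : HH n q) : eul hq n (gen q i a * x) =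
    ((![1, 1, 2] a : ℕ) : ℂ) • (gen q i a * x) + gen q i a * eul hq n x := by
  have : eul hq n ∘ₗ LinearMap.mulLeft ℂ (gen q i a) = ((![1, 1, 2] a : ℕ) : ℂ) •
      LinearMap.mulLeft ℂ (gen q i a) + LinearMap.mulLeft ℂ (gen q i a) ∘ₗ eul hq n :=
    (pbw hq n).ext fun κ => by
      simp only [LinearMap.comp_apply, LinearMap.mulLeft_apply, LinearMap.add_apply,
        LinearMap.smul_apply, pbw_apply, eul_mon, gen_mon, map_add, map_smul, wt_up]
      by_cases h : be q a (κ i) = 0
      · rw [h]
        push_cast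
        module
      · have h1 : a = 0 ∧ κ i 1 ≠ 0 := by
          fin_cases a <;> simp [be] at h ⊢
          exact fun hc => by simp [hc] at h
        rw [wt_update κ i _ (![1, 1, 2] a) (by simp [h1.1, sw]; omega)]
        push_cast
        module
  exact LinearMap.congr_fun this x

theorem mon_up {κ : Fin n → Fin 3 → ℕ} {i : Fin n} {a : Fin 3} (h1 : al q a (κ i) = 1)
    (h2 : be q a (κ i) = 0) : mon q (up κ i a) = gen q i a * mon q κ := by
  simp [gen_mon, h1, h2]

theorem hgr (n : ℕ) : Gr (eps q n) (pbw hq n) wt (eul hq n) where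
  der a b := by
    have : eul hq n ∘ₗ LinearMap.mulRight ℂ b = LinearMap.mulRight ℂ b ∘ₗ eul hq n +
        LinearMap.mulRight ℂ (eul hq n b) := (pbw hq n).ext fun κ => by
      simp only [LinearMap.comp_apply, LinearMap.mulRight_apply, LinearMap.add_apply, pbw_apply]
      induction κ using mon_ind q with
      | h0 => simpa [wt] using congrArg (· * b) (eul_mon hq (0 : Fin n → Fin 3 → ℕ))
      | h κ i a h1 h2 ih =>
        rw [mon_up h1 h2, mul_assoc, eul_gen, eul_gen, ih]
        simp [mul_add, add_mul, mul_assoc, add_assoc]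
    exact LinearMap.congr_fun this a
  eig κ := by rw [pbw_apply, eul_mon]
  pos κ := by
    rw [pbw_apply]
    induction κ using mon_ind q with
    | h0 => simp [wt]
    | h κ i a h1 h2 _ =>
      refine Or.inr ⟨?_, by simp [mon_up h1 h2]⟩
      rw [wt_up]
      fin_cases a <;> simp

/-- span of the non-standard monomials -/
noncomputable def RR (lev : Fin n → ℕ) : Submodule ℂ (HH n q) :=
  Submodule.span ℂ (pbw hq n '' {κ | ∃ i, ∃ a : Fin 3, 3 ≤ lev i + a ∧ κ i a ≠ 0})

theorem RR_gen {lev : Fin n → ℕ} {i : Fin n} {a : Fin 3} {κ : Fin n → Fin 3 → ℕ}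
    (h : 2 ≤ lev i + a) (h' : 3 ≤ lev i + a ∨ ∃ i, ∃ a : Fin 3, 3 ≤ lev i + a ∧ κ i a ≠ 0) :
    gen q i a * mon q κ ∈ RR hq lev := by
  rw [gen_mon]
  refine add_mem (Submodule.smul_mem _ _ (Submodule.subset_span ⟨_, ?_, pbw_apply hq _⟩)) ?_
  · rcases h' with h' | ⟨j, b, h1, h2⟩
    · exact ⟨i, a, h', by simp [up]⟩
    · refine ⟨j, b, h1, ?_⟩
      by_cases hj : j = i
      · subst hj
        simp [up, h2]
      · simpa [up, hj]
  · by_cases ha : a = 0
    · refine Submodule.smul_mem _ _ (Submodule.subset_span ⟨_, ⟨i, 2, ?_, by simp [sw]⟩,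
        pbw_apply hq _⟩)
      simp [ha] at h ⊢
      omega
    · have : be q a (κ i) = 0 := by fin_cases a <;> simp [be] at ha ⊢
      simp [this]

theorem RR_gen' {lev : Fin n → ℕ} {i : Fin n} {a : Fin 3} (h : 3 ≤ lev i + a) (x : HH n q) :
    gen q i a * x ∈ RR hq lev := by
  have : x ∈ Submodule.span ℂ (Set.range (pbw hq n)) := by simp
  refine (Submodule.span_le (p := (RR hq lev).comap (LinearMap.mulLeft ℂ (gen q i a)))).2 ?_ this
  rintro _ ⟨κ, rfl⟩
  simpa [pbw_apply] using RR_gen hq (by omega) (Or.inl h)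

theorem PT_RR (lev : Fin n → ℕ) (hl : ∀ i, lev i ≤ 3) :
    PT (eps q n) (RR hq lev) (∑ i, lev i) := by
  induction hw : ∑ i, lev i generalizing lev with
  | zero =>
    have : RR hq lev = ⊥ := Submodule.span_eq_bot.2 (by
      rintro _ ⟨κ, ⟨i, a, h, -⟩, rfl⟩
      have := Finset.sum_eq_zero_iff.1 hw i (Finset.mem_univ i)
      omega)
    exact this ▸ PT_bot _
  | succ r ih =>
  obtain ⟨i, -, hi⟩ := Finset.exists_ne_zero_of_sum_ne_zero (hw.trans_ne r.succ_ne_zero)
  obtain ⟨a, ha⟩ : ∃ a : Fin 3, lev i + a = 3 :=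
    ⟨⟨3 - lev i, by omega⟩, Nat.add_sub_cancel' (hl i)⟩
  set lev' := Function.update lev i (lev i - 1) with hlev
  have l1 : lev' i = lev i - 1 := by simp [hlev]
  have l2 : ∀ j, j ≠ i → lev' j = lev j := fun j hj => by simp [hlev, hj]
  have l3 : ∀ j, lev' j ≤ lev j := fun j => by
    by_cases hj : j = i
    · rw [hj, l1]
      omega
    · exact (l2 j hj).le
  refine PT_step _ (g := gen q i a) (fun x hx y => ?_) (fun x hx => ?_) (fun x hx => ?_) ?_
    (RR_gen' hq ha.ge) (fun x hx => ?_) (ih lev' (fun j => (l3 j).trans (hl j)) ?_)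
  · refine (Submodule.span_le (p := (RR hq lev').comap (LinearMap.mulRight ℂ y))).2 ?_ hx
    rintro _ ⟨κ, ⟨j, b, h1, h2⟩, rfl⟩
    obtain ⟨b', h3, h4, h5⟩ := exists_top h2
    obtain ⟨κ', rfl, h6, h7⟩ := peel (q := q) h4 h5
    simpa [pbw_apply, mon_up h6 h7, mul_assoc] using RR_gen' hq (by omega) _
  · refine (Submodule.span_le (p := (RR hq lev').comap (LinearMap.mulLeft ℂ (gen q i a)))).2 ?_ hx
    rintro _ ⟨κ, hκ, rfl⟩
    simpa [pbw_apply] using RR_gen hq (by omega) (Or.inr hκ)
  · rw [RR, Basis.mem_span_image] at hx ⊢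
    intro κ hκ
    by_contra hc
    have key : (pbw hq n).coord (up κ i a) ∘ₗ LinearMap.mulLeft ℂ (gen q i a) =
        al q a (κ i) • (pbw hq n).coord κ := (pbw hq n).ext fun κ' => by
      have h1 : be q a (κ' i) • (pbw hq n).coord (up κ i a)
          (mon q (Function.update κ' i (sw (κ' i)))) = 0 := by
        by_cases h : a = 0
        · rw [← pbw_apply hq, Basis.coord_apply, Basis.repr_self, single_eq_of_ne, smul_zero]
          intro h2
          have := congrFun (congrFun h2 i) 2
          refine hc ⟨i, 2, by simp [h] at ha ⊢; omega, ?_⟩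
          simp [up, sw, h] at this
          omega
        · have : be q a (κ' i) = 0 := by fin_cases a <;> simp [be] at h ⊢
          simp [this]
      simp only [LinearMap.comp_apply, LinearMap.mulLeft_apply, pbw_apply, gen_mon, map_add,
        map_smul, h1, add_zero, LinearMap.smul_apply]
      simp only [← pbw_apply hq, Basis.coord_apply, Basis.repr_self]
      by_cases h : κ' = κ
      · simp [h]
      · rw [single_eq_of_ne (Ne.symm h), single_eq_of_ne, smul_zero, smul_zero]
        intro h2
        refine h (funext fun j => ?_)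
        have := congrFun h2 j
        by_cases hj : j = i
        · subst hj
          simpa [up] using this.symm
        · simpa [up, hj] using this.symm
    have k2 := LinearMap.congr_fun key x
    have k3 : al q a (κ i) ≠ 0 := by fin_cases a <;> simp [al, hq]
    obtain ⟨j, b, h1, h2⟩ := @hx (up κ i a) (by
      simp only [LinearMap.comp_apply, LinearMap.mulLeft_apply, Basis.coord_apply,
        LinearMap.smul_apply] at k2
      rw [Finset.mem_coe, Finsupp.mem_support_iff] at hκ ⊢
      rw [k2]
      exact smul_ne_zero k3 hκ)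
    refine hc ⟨j, b, h1, ?_⟩
    by_cases hj : j = i
    · subst hj
      simpa [up, Pi.single_eq_of_ne (by omega : b ≠ a)] using h2
    · simpa [up, hj] using h2
  · exact Submodule.span_mono (Set.image_mono fun κ ⟨j, b, h1, h2⟩ =>
      ⟨j, b, by have := l3 j; omega, h2⟩)
  · have : x ∈ RR hq lev' ⊔ LinearMap.range (LinearMap.mulLeft ℂ (gen q i a)) := by
      refine Submodule.span_le.2 ?_ hx
      rintro _ ⟨κ, ⟨j, b, h1, h2⟩, rfl⟩
      by_cases hc : ∃ i, ∃ a : Fin 3, 3 ≤ lev' i + a ∧ κ i a ≠ 0
      · exact Submodule.mem_sup_left (Submodule.subset_span ⟨κ, hc, rfl⟩)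
      push Not at hc
      obtain rfl : j = i := by
        by_contra hj
        exact h2 (hc j b (l2 j hj ▸ h1))
      obtain rfl : b = a := by
        by_contra hb
        exact h2 (hc j b (by omega))
      obtain ⟨κ', rfl, h6, h7⟩ := peel (q := q) h2 fun c hcb => hc j c (by omega)
      exact Submodule.mem_sup_right ⟨mon q κ', by simp [pbw_apply, mon_up h6 h7]⟩
    obtain ⟨y, hy, _, ⟨z, rfl⟩, rfl⟩ := Submodule.mem_sup.1 this
    exact ⟨z, by simpa using hy⟩
  · rw [← Finset.add_sum_erase _ _ (Finset.mem_univ i)] at hw ⊢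
    rw [Finset.sum_congr rfl fun j hj => l2 j (Finset.ne_of_mem_erase hj), l1,
      ← Nat.add_right_cancel_iff (n := 1), ← hw, add_right_comm, Nat.sub_add_cancel (by omega)]

include hq in
theorem htor (n : ℕ) : Tor (eps q n) (3 * n) := by
  have h := PT_RR hq (n := n) (fun _ => 3) fun _ => le_rfl
  have : RR hq (fun _ => 3) = Ap (eps q n) := by
    rw [(hgr hq n).Ap_eq, RR, Zw]
    congr 2
    ext κ
    induction κ using mon_ind q with
    | h0 => simp [wt]
    | h κ i a _ _ _ =>
      refine iff_of_true ⟨i, a, by simp, by simp [up]⟩ ?_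
      rw [Set.mem_ofPred_eq, wt_up]
      fin_cases a <;> simp
  rw [this] at h
  exact tor_of_PT _ (by simpa [mul_comm] using h)

end Pool.Agent.P.MP_5bcbab_al
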