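import Pool.Agent.P.MP_5bcbab_al.Van

namespace Pool.Agent.P.MP_5bcbab_al

open TensorAlgebra Module

set_option maxHeartbeats 400000

variable {A : Type} [Ring A] [Algebra ℂ A] (e : A →ₐ[ℂ] ℂ)

/-- total differential -/
noncomputable def DD (c : ℕ → TT A) (j : ℕ) : TT A := bb (c (j + 1)) + Bt e j (c (j - 1))

/-- families of normalised chains -/
def InT (J : Set ℕ) (c : ℕ → TT A) : Prop := ∀ j, c j ∈ GG e j ∧ (j ∉ J → c j = 0)

/-- degrees of the cyclic complex -/
def JK (K : ℕ) : Set ℕ := {j | j ≤ K ∧ j % 2 = K % 2}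

/-- cyclic cycles -/
def Cyc (K : ℕ) (c : ℕ → TT A) : Prop :=
  InT e (JK K) c ∧ ∀ j < K, j % 2 = (K + 1) % 2 → DD e c j = 0

@[simp] theorem Bt_zero (x : TT A) : Bt e 0 x = 0 := by simp [Bt_apply, Nn]

theorem InT.add {J : Set ℕ} {c c' : ℕ → TT A} (h : InT e J c) (h' : InT e J c') :
    InT e J (c + c') := fun j =>
  ⟨add_mem (h j).1 (h' j).1, fun hj => by simp [(h j).2 hj, (h' j).2 hj]⟩

theorem InT.single {J : Set ℕ} {i : ℕ} {x : TT A} (hi : i ∈ J) (hx : x ∈ GG e i) :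
    InT e J (Pi.single i x) := fun j => by
  by_cases h : j = i
  · subst h
    simp [hx, hi]
  · simp [h]

theorem InT.mono {J J' : Set ℕ} {c : ℕ → TT A} (h : InT e J c) (hJ : J ⊆ J') : InT e J' c :=
  fun j => ⟨(h j).1, fun hj => (h j).2 fun hj' => hj (hJ hj')⟩

theorem JK_sub (K : ℕ) : JK K ⊆ JK (K + 2) := fun j hj =>
  ⟨by have := hj.1; omega, by have := hj.2; omega⟩

theorem top_eq {K : ℕ} {x y : TT A} (hx : x ∈ GG e (K + 1)) (h : bb x + Bt e K y = 0) :
    bb (rho e x) + (co e.toLinearMap x - tt (co e.toLinearMap x)) = 0 := by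
  rw [bb_GG e hx, Bt_apply, add_assoc, ← mul_add] at h
  exact (sep e (bb_GG_mem e hx) h).1

theorem top_kill {K : ℕ} {x y : TT A} (hx : x ∈ GG e (K + 1)) (h : bb x + Bt e K y = 0)
    (hN : Nn (K + 2) (rho e x) = 0) : ∃ z ∈ Al (Ap e) (K + 2), ∃ s ∈ Al (Ap e) (K + 1),
      x = bb (ι ℂ 1 * z) + Bt e (K + 1) s := by
  obtain ⟨z, hz, h1⟩ := exists_sub_tt (rho_GG e hx) hN
  have h2 := top_eq e hx h
  rw [← h1, bb_sub_tt] at h2
  obtain ⟨s, hs, h3⟩ := exists_Nn (add_mem (bp_mem e hz) (co_mem e.toLinearMap hx)) (by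
    rw [map_add, eq_comm, ← sub_eq_zero, ← h2]; abel)
  refine ⟨z, hz, s, hs, ?_⟩
  rw [bb_one_cons (Al_mono le_top _ hz), Bt_apply, rho_of_mem e hs, h3, h1, mul_add,
    ← add_assoc, sub_add_cancel]
  exact GG_split e hx

theorem bdry_of_top (K : ℕ) (c : ℕ → TT A) (hc : Cyc e K c) (hN : Nn (K + 1) (rho e (c K)) = 0)
    (h0 : co e.toLinearMap (c 0) = 0) : ∃ x, InT e (JK (K + 1)) x ∧ rho e (x (K + 1)) = 0 ∧
      ∀ j ∈ JK K, c j = DD e x j := by
  induction K using Nat.strong_induction_on generalizing c with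
  | _ K ih =>
  obtain _ | _ | K := K
  · refine ⟨0, fun j => by simp, by simp, fun j hj => ?_⟩
    obtain rfl : j = 0 := Nat.le_zero.1 hj.1
    rw [GG_split e (hc.1 0).1, h0]
    simpa [Nn, DD] using hN
  · obtain ⟨z, hz, s, hs, h1⟩ := top_kill e (hc.1 1).1 (hc.2 0 (by omega) rfl) hN
    refine ⟨Pi.single 2 (ι ℂ 1 * z) + Pi.single 0 s, (InT.single e (by simp [JK])
      (cons_mem trivial hz)).add e (InT.single e (by simp [JK]) (T_le_GG e 0 hs)), by simp,
      fun j hj => ?_⟩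
    obtain rfl : j = 1 := by
      have := hj.1
      have := hj.2
      omega
    simpa [DD] using h1
  · have hD := hc.2 (K + 1) (by omega) (by omega)
    obtain ⟨z, hz, s, hs, h1⟩ := top_kill e (hc.1 (K + 2)).1 hD hN
    have hs' := T_le_GG e _ hs
    rw [DD, h1, map_add, bb_bb, zero_add, bb_Bt e hs', neg_add_eq_sub, ← map_sub, Bt_apply,
      ← zero_add (ι ℂ 1 * _)] at hD
    obtain ⟨x, x1, x2, x3⟩ := ih K (by omega)
      (fun j => if j = K then c K - bb s else if j < K then c j else 0)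
      ⟨fun j => ⟨by
        beta_reduce
        split_ifs with h h'
        · rw [h]
          exact sub_mem (hc.1 K).1 (bb_mem_GG e hs')
        · exact (hc.1 j).1
        · exact zero_mem _, fun hj => by
        simp only [JK, Set.mem_ofPred_eq] at hj
        beta_reduce
        rw [if_neg (by omega)]
        split_ifs
        · exact (hc.1 j).2 (by simp only [JK, Set.mem_ofPred_eq]; omega)
        · rfl⟩, fun j hj hp => by
        rw [← hc.2 j (by omega) (by omega), DD, DD, if_neg (by omega : j - 1 ≠ K),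
          if_pos (by omega : j - 1 < K)]
        split_ifs with h h'
        · rw [map_sub, bb_bb, sub_zero, h]
        · rfl
        · omega⟩
      (by simpa using (sep e (j := 0) (zero_mem _) hD).2)
      (by
        split_ifs with h h'
        · rw [map_sub, ← h, h0, co_T e (bb_mem e hs), sub_zero]
        · exact h0
        · simp)
    have x4 : x (K + 3) = 0 := (x1 _).2 (by simp [JK])
    refine ⟨x + Pi.single (K + 3) (ι ℂ 1 * z) + Pi.single (K + 1) s,
      ((x1.mono e (JK_sub (K + 1))).add e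
        (InT.single e ⟨le_rfl, rfl⟩ (cons_mem trivial hz))).add e
        (InT.single e ⟨by omega, by omega⟩ hs'), by simp [x4], fun j hj => ?_⟩
    have j1 := hj.1
    have j2 := hj.2
    by_cases h2 : j = K + 2
    · subst h2
      simp [DD, x4, h1, Bt_apply, x2]
    · have := x3 j ⟨by omega, by omega⟩
      simp only [DD, Pi.add_apply] at this ⊢
      rw [Pi.single_eq_of_ne (by omega : j + 1 ≠ K + 3), Pi.single_eq_of_ne (by omega : j - 1 ≠ _),
        Pi.single_eq_of_ne (by omega : j - 1 ≠ _)]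
      by_cases h3 : j = K
      · subst h3
        rw [if_pos rfl, sub_eq_iff_eq_add] at this
        simp only [this, Pi.single_eq_same, add_zero, map_add]
        abel
      · rw [if_neg h3, if_pos (by omega)] at this
        simp [this, Pi.single_eq_of_ne (by omega : j + 1 ≠ K + 1)]

theorem Nn_bb' {p : ℕ} {x : TT A} (hx : x ∈ Al ⊤ (p + 1)) (h : bp (Nn (p + 1) x) = 0) :
    Nn p (bb x) = 0 := by
  obtain _ | p := p
  · simp [Nn]
  · rw [Nn_bb hx, h]

theorem exists_cyc (K : ℕ) (u : TT A) (hu : u ∈ Al (Ap e) (K + 1)) (h : Nn K (bb u) = 0) :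
    ∃ c, Cyc e K c ∧ rho e (c K) = u := by
  induction K using Nat.strong_induction_on generalizing u with
  | _ K ih =>
  obtain _ | K := K
  · exact ⟨Pi.single 0 u, ⟨InT.single e (by simp [JK]) (T_le_GG e 0 hu), fun j hj => by omega⟩,
      by simp [rho_of_mem e hu]⟩
  obtain ⟨y, hy, h1⟩ := exists_sub_tt (bb_mem e hu) h
  have h2 : bb (u - ι ℂ 1 * y) = ι ℂ 1 * bp y := by
    rw [map_sub, bb_one_cons (Al_mono le_top _ hy), h1, sub_sub_cancel]
  have h3 : u - ι ℂ 1 * y ∈ GG e (K + 1) := sub_mem (T_le_GG e _ hu) (cons_mem trivial hy)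
  have h4 : rho e (u - ι ℂ 1 * y) = u := by simp [rho_of_mem e hu]
  obtain _ | K := K
  · refine ⟨Pi.single 1 (u - ι ℂ 1 * y), ⟨InT.single e (by simp [JK]) h3, fun j hj _ => ?_⟩,
      by simpa using h4⟩
    obtain rfl : j = 0 := by omega
    simp only [DD, zero_add, Pi.single_eq_same, h2, bp_zero (Al_mono le_top _ hy)]
    simp
  obtain ⟨u', hu', h5⟩ := exists_Nn (neg_mem (bp_mem e hy)) (by
    rw [map_neg, neg_inj, eq_comm, ← sub_eq_zero, ← bb_sub_tt, h1, bb_bb])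
  obtain ⟨c, hc, h6⟩ := ih K (by omega) u' hu'
    (Nn_bb' (Al_mono le_top _ hu') (by rw [h5, map_neg, bp_bp, neg_zero]))
  have h7 : c (K + 2) = 0 := (hc.1 _).2 (by simp [JK])
  refine ⟨c + Pi.single (K + 2) (u - ι ℂ 1 * y), ⟨(hc.1.mono e (JK_sub K)).add e
    (InT.single e ⟨le_rfl, rfl⟩ h3),
    fun j hj hp => ?_⟩, by simpa [h7] using h4⟩
  simp only [DD, Pi.add_apply]
  rw [Pi.single_eq_of_ne (by omega : j - 1 ≠ _), add_zero]
  by_cases h8 : j = K + 1
  · subst h8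
    rw [Pi.single_eq_same, h7, zero_add, h2, Bt_apply, Nat.add_sub_cancel, h6, h5]
    simp
  · rw [Pi.single_eq_of_ne (by omega), add_zero]
    exact hc.2 j (by omega) (by omega)

/-- infinitely many independent classes in degree `K` -/
def Inf (K : ℕ) : Prop :=
  ∃ c : ℕ → ℕ → TT A, (∀ i, Cyc e K (c i)) ∧ ∀ (a : ℕ →₀ ℂ), ∀ x ∈ GG e (K + 1), ∀ y,
    Finsupp.linearCombination ℂ (fun i => c i K) a = bb x + Bt e K y → a = 0

theorem inf_of_phi {K : ℕ} (w : ℕ → TT A) (h1 : ∀ i, w i ∈ Al (Ap e) (K + 1))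
    (h2 : ∀ i, tt (w i) = w i) (h3 : ∀ i, bp (w i) = 0) (Φ : ℕ → TT A →ₗ[ℂ] ℂ)
    (h4 : ∀ i, ∀ x ∈ GG e (K + 1), Φ i (bb x) = 0) (h5 : ∀ i y, Φ i (ι ℂ 1 * y) = 0)
    (h6 : ∀ i j, Φ i (w j) = 0 ↔ i ≠ j) : Inf e K := by
  choose c hc hc' using fun i => exists_cyc e K (w i) (h1 i) (Nn_bb' (Al_mono le_top _ (h1 i))
    (by rw [Nn_of_fix (h1 i) (h2 i), map_smul, h3, smul_zero]))
  refine ⟨c, hc, fun a x hx y h => Finsupp.ext fun i => ?_⟩
  have k : ∀ j, Φ i (c j K) = Φ i (w j) := fun j => by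
    rw [GG_split e ((hc j).1 K).1, map_add, h5, hc', add_zero]
  have := congrArg (Φ i) h
  rw [map_add, h4 i x hx, Bt_apply, h5, Finsupp.linearCombination_apply, Finsupp.sum, map_sum,
    Finset.sum_eq_single i (fun j _ hj => by rw [map_smul, k, (h6 i j).2 hj.symm, smul_zero])
      (fun hi => by simp [Finsupp.notMem_support_iff.1 hi]), map_smul, k, add_zero] at this
  exact (smul_eq_zero.1 this).resolve_right fun h => (h6 i i).1 h rfl

variable {e} {J : Type} {m : Basis J ℂ A} {wt : J → ℕ} {E : A →ₗ[ℂ] A} (h : Gr e m wt E)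
  {N : ℕ} (hT : Tor e N)
include h hT

theorem Gr.hc_van {K : ℕ} (hK : N ≤ K + 1) {c : ℕ → TT A} (hc : Cyc e (K + 1) c)
    (h0 : co e.toLinearMap (c 0) = 0) :
    ∃ x, InT e (JK (K + 2)) x ∧ ∀ j ∈ JK (K + 1), c j = DD e x j := by
  have hx := (hc.1 (K + 1)).1
  obtain ⟨y, hy, y', hy', h1⟩ := h.connes hT hK (rho_GG e hx) (by
    rw [eq_neg_of_add_eq_zero_left (top_eq e hx (hc.2 K (by omega) (by omega))), map_neg,
      Nn_sub_tt (co_mem _ hx), neg_zero])
  obtain ⟨x, x1, -, x3⟩ := bdry_of_top e (K + 1) (c + Pi.single (K + 1) (-bb y))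
    ⟨hc.1.add e (InT.single e (by simp [JK]) (neg_mem (T_le_GG e _ (bb_mem e hy)))),
      fun j hj hp => by
        rw [← hc.2 j hj hp, DD, DD, Pi.add_apply, Pi.add_apply,
          Pi.single_eq_of_ne (by omega : j - 1 ≠ _), add_zero, map_add]
        by_cases h2 : j = K
        · simp [h2, bb_bb]
        · simp [h2]⟩
    (by
      rw [Pi.add_apply, Pi.single_eq_same, map_add, h1, map_neg, rho_of_mem e (bb_mem e hy),
        add_neg_cancel_comm, Nn_sub_tt hy'])
    (by simpa using h0)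
  refine ⟨x + Pi.single (K + 2) y, x1.add e (InT.single e ⟨le_rfl, rfl⟩ (T_le_GG e _ hy)),
    fun j hj => ?_⟩
  have := x3 j hj
  have j1 := hj.1
  simp only [DD, Pi.add_apply] at this ⊢
  rw [Pi.single_eq_of_ne (by omega : j - 1 ≠ _), add_zero, map_add, add_right_comm, ← this]
  by_cases h2 : j = K + 1
  · simp [h2]
  · simp [h2]

theorem Gr.hp_van {r : ℕ} (hr : r < 2) {c : ℕ → TT A} (hc : InT e {j | j % 2 = r} c)
    (hD : ∀ j, j % 2 ≠ r → DD e c j = 0) (h0 : co e.toLinearMap (c 0) = 0) :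
    ∃ x, InT e {j | j % 2 ≠ r} x ∧ ∀ j, j % 2 = r → c j = DD e x j := by
  classical
  obtain ⟨K, hK, hKr⟩ : ∃ K, N ≤ K + 1 ∧ (K + 1) % 2 = r := ⟨2 * N + 1 + r, by omega, by omega⟩
  obtain ⟨x, x1, x2⟩ := h.hc_van hT hK (c := fun j => if j ≤ K + 1 then c j else 0)
    ⟨fun j => ⟨by beta_reduce; split_ifs; exacts [(hc j).1, zero_mem _], fun hj => by
      simp only [JK, Set.mem_ofPred_eq] at hj
      beta_reduce
      split_ifs
      · exact (hc j).2 (by simp only [Set.mem_ofPred_eq]; omega)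
      · rfl⟩, fun j hj hp => by
      rw [← hD j (by omega), DD, DD, if_pos (by omega), if_pos (by omega)]⟩ (by simpa using h0)
  have hs : ∀ k z, ∃ y, N < k → z ∈ GG e k → bb z = 0 → y ∈ GG e (k + 1) ∧ bb y = z := by
    intro k z
    by_cases hz : N < k ∧ z ∈ GG e k ∧ bb z = 0
    · obtain ⟨y, hy⟩ := h.hh hT hz.1 hz.2.1 hz.2.2
      exact ⟨y, fun _ _ _ => hy⟩
    · exact ⟨0, fun a b c => absurd ⟨a, b, c⟩ hz⟩
  choose s hs using hs
  let f : ℕ → TT A := fun n => Nat.rec (x (K + 2))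
    (fun n y => s (K + 3 + 2 * n) (c (K + 3 + 2 * n) - Bt e (K + 3 + 2 * n) y)) n
  have hf : ∀ n, f n ∈ GG e (K + 2 + 2 * n) ∧ Bt e (K + 2 + 2 * n) (bb (f n)) =
      Bt e (K + 2 + 2 * n) (c (K + 1 + 2 * n)) ∧
        bb (f (n + 1)) = c (K + 3 + 2 * n) - Bt e (K + 3 + 2 * n) (f n) ∧
        f (n + 1) ∈ GG e (K + 2 + 2 * (n + 1)) := by
    have st : ∀ n, f n ∈ GG e (K + 2 + 2 * n) → Bt e (K + 2 + 2 * n) (bb (f n)) =
        Bt e (K + 2 + 2 * n) (c (K + 1 + 2 * n)) →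
        bb (f (n + 1)) = c (K + 3 + 2 * n) - Bt e (K + 3 + 2 * n) (f n) ∧
        f (n + 1) ∈ GG e (K + 2 + 2 * (n + 1)) := by
      intro n h1 h2
      have e1 : K + 2 + 2 * n = K + 1 + 2 * n + 1 := by omega
      have e2 : K + 3 + 2 * n = K + 1 + 2 * n + 2 := by omega
      have e3 : K + 2 + 2 * (n + 1) = K + 3 + 2 * n + 1 := by omega
      have h3 := hD (K + 1 + 2 * n + 1) (by omega)
      rw [e1] at h1 h2
      have := hs (K + 3 + 2 * n) (c (K + 3 + 2 * n) - Bt e (K + 3 + 2 * n) (f n)) (by omega)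
        (sub_mem (hc _).1 (e2 ▸ Bt_mem e h1))
        (by rw [map_sub, e2, bb_Bt e h1, h2, sub_neg_eq_add]; exact h3)
      exact ⟨this.2, e3 ▸ this.1⟩
    intro n
    induction n with
    | zero =>
      have h1 : f 0 ∈ GG e (K + 2 + 2 * 0) := (x1 _).1
      have h2 : Bt e (K + 2 + 2 * 0) (bb (f 0)) = Bt e (K + 2 + 2 * 0) (c (K + 1 + 2 * 0)) := by
        have := x2 (K + 1) ⟨le_rfl, rfl⟩
        rw [if_pos le_rfl] at this
        simp only [mul_zero, add_zero, this, DD, map_add, Bt_Bt]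
        rfl
      exact ⟨h1, h2, st 0 h1 h2⟩
    | succ n ih =>
      have h2 : Bt e (K + 2 + 2 * (n + 1)) (bb (f (n + 1))) =
          Bt e (K + 2 + 2 * (n + 1)) (c (K + 1 + 2 * (n + 1))) := by
        rw [ih.2.2.1, map_sub, Bt_Bt, sub_zero]
        congr 2
        omega
      exact ⟨ih.2.2.2, h2, st _ ih.2.2.2 h2⟩
  refine ⟨fun j => if j ≤ K + 1 then x j else if j % 2 = r then 0 else f ((j - (K + 2)) / 2),
    fun j => ⟨?_, fun hj => ?_⟩, fun j hj => ?_⟩
  · beta_reduce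
    split_ifs
    · exact (x1 j).1
    · exact zero_mem _
    · have := (hf ((j - (K + 2)) / 2)).1
      rwa [show K + 2 + 2 * ((j - (K + 2)) / 2) = j by omega] at this
  · simp only [Set.mem_ofPred_eq, not_not] at hj
    beta_reduce
    split_ifs
    · exact (x1 j).2 (by simp only [JK, Set.mem_ofPred_eq]; omega)
    · rfl
  · by_cases h1 : j ≤ K + 1
    · have := x2 j ⟨h1, by omega⟩
      rw [if_pos h1] at this
      rw [this, DD, DD, if_pos (by omega : j - 1 ≤ K + 1)]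
      split_ifs with h2 h3
      · rfl
      · omega
      · obtain rfl : j = K + 1 := by omega
        simp [f]
    · obtain ⟨n, rfl⟩ : ∃ n, j = K + 3 + 2 * n := ⟨(j - (K + 3)) / 2, by omega⟩
      rw [DD, if_neg (by omega), if_neg (by omega), if_neg (by omega), if_neg (by omega),
        show (K + 3 + 2 * n + 1 - (K + 2)) / 2 = n + 1 by omega,
        show (K + 3 + 2 * n - 1 - (K + 2)) / 2 = n by omega, (hf n).2.2.1, sub_add_cancel]

omit h hT in
theorem Gr.inf_top {K : ℕ} (h : Gr e m wt E) (hT : Tor e (K + 1)) {ω : TT A}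
    (h0 : ω ∈ Al (Ap e) (K + 1)) (h1 : ∀ y ∈ Al (Ap e) (K + 2), bp y ≠ ω) (h2 : tt ω = ω)
    (h3 : bp ω = 0) (s : ℕ → A) (s1 : ∀ i, s i ∈ Ap e) (s2 : ∀ i a, s i * a = a * s i)
    (s3 : LinearIndependent ℂ s) : Inf e K := by
  have key : ∀ i, ∃ c, Cyc e K c ∧ ∃ x ∈ GG e (K + 2),
      ι ℂ (s i) * ω = bb x + Bt e (K + 1) (c K) := by
    intro i
    have k1 : bb (ι ℂ (s i) * ω) = 0 := by
      have : d0 (tt (ι ℂ (s i) * ω)) = -mul1 (s i) (tt ω) := by
        refine al_ext (f := d0 ∘ₗ tt ∘ₗ cons (s i)) (g := -(mul1 (s i) ∘ₗ tt))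
          (fun l hl _ => ?_) h0
        obtain rfl | ⟨l, c, rfl⟩ := l.eq_nil_or_concat'
        · simp at hl
        simp only [LinearMap.comp_apply, cons_apply, tm_append, tm_cons, tm_nil, mul_one,
          LinearMap.neg_apply]
        rw [← mul_assoc, tt_snoc, tt_snoc]
        simp [s2]
      rw [bb_apply, bp_cons, this, h2, h3]
      simp
    obtain ⟨y, hy, y', hy', k2⟩ := h.connes hT le_rfl (cons_mem (s1 i) h0) (by rw [k1, map_zero])
    obtain ⟨u, hu, k3⟩ := exists_Nn (neg_mem (bp_mem e hy')) (by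
      rw [k2, map_add, bb_bb, zero_add, bb_sub_tt, sub_eq_zero] at k1
      rw [map_neg, ← k1])
    obtain ⟨c, hc, k4⟩ := exists_cyc e K (-u) (neg_mem hu) (Nn_bb' (Al_mono le_top _ (neg_mem hu))
      (by rw [map_neg, k3, neg_neg, bp_bp]))
    refine ⟨c, hc, y + ι ℂ 1 * y', add_mem (T_le_GG e _ hy) (cons_mem trivial hy'), ?_⟩
    rw [k2, map_add, bb_one_cons (Al_mono le_top _ hy'), Bt_apply, k4, map_neg, k3, neg_neg]
    abel
  choose c hc x hx key using key
  refine ⟨c, hc, fun a z hz y ha => linearIndependent_iff.1 s3 a ?_⟩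
  refine h.not_bdry hT h1 (x := Finsupp.linearCombination ℂ x a - Bt e (K + 2) z)
    (sub_mem (sum_mem fun i _ => Submodule.smul_mem _ _ (hx i)) (Bt_mem e hz)) ?_
  have := congrArg (Bt e (K + 1)) ha
  rw [map_add, Bt_Bt, add_zero] at this
  rw [map_sub, bb_Bt e hz, ← this]
  simp only [Finsupp.linearCombination_apply, Finsupp.sum, map_sum, map_smul, Finset.sum_mul,
    smul_mul_assoc, key, smul_add, Finset.sum_add_distrib, sub_neg_eq_add]

end Pool.Agent.P.MP_5bcbab_al
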