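import Pool.Agent.P.MP_5bcbab_al.PBW

namespace Pool.Agent.P.MP_5bcbab_al

open TensorAlgebra Module

set_option maxHeartbeats 400000

variable {A : Type} [Ring A] [Algebra ℂ A]

/-- auxiliary recursion -/
noncomputable def Rz : TT A →ₗ[ℂ] (TT A →ₗ[ℂ] TT A) →ₗ[ℂ] TT A :=
  recT (LinearMap.applyₗ 1) (cons.compr₂ LinearMap.applyₗ)
    (LinearMap.llcomp ℂ _ _ _ ∘ₗ cons)

/-- shuffle product -/
noncomputable def sh : TT A →ₗ[ℂ] TT A →ₗ[ℂ] TT A :=
  (recT LinearMap.id 0 ((LinearMap.llcomp ℂ _ _ _ ∘ₗ cons).compr₂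
    (Rz.flip ∘ₗ LinearMap.lcomp ℂ _ gam.toLinearMap))).flip

@[simp] theorem sh_one (u : TT A) : sh u 1 = u := by simp [sh]

theorem sh_cons' (u v : TT A) (b : A) :
    sh u (ι ℂ b * v) = Rz u (cons b ∘ₗ sh.flip v ∘ₗ gam.toLinearMap) := by
  simp [sh]
  rfl

@[simp] theorem one_sh (v : TT A) : sh 1 v = v :=
  left_ext (f := sh 1) (g := LinearMap.id) (by simp) (fun b v h => by
    simp [sh_cons', Rz, h]) v

theorem sh_cons (a b : A) (u v : TT A) : sh (ι ℂ a * u) (ι ℂ b * v) =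
    ι ℂ a * sh u (ι ℂ b * v) - ι ℂ b * sh (ι ℂ a * gam u) v := by
  rw [sh_cons', sh_cons', Rz, recT_cons]
  simp
  abel

attribute [irreducible] sh

theorem gam_sh (u v : TT A) : gam (sh u v) = sh (gam u) (gam v) := by
  induction v using left_ind generalizing u with
  | hadd x y hx hy => simp only [map_add, hx, hy]
  | hsmul r x hx => simp only [map_smul, hx]
  | h1 => simp
  | hc b v ih =>
    induction u using left_ind with
    | hadd x y hx hy => simp only [map_add, hx, hy, LinearMap.add_apply]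
    | hsmul r x hx => simp only [map_smul, hx, LinearMap.smul_apply]
    | h1 => simp
    | hc a u ih' =>
      simp [sh_cons, ih, ih']

theorem sh_snoc (a b : A) (u v : TT A) : sh (u * ι ℂ a) (v * ι ℂ b) =
    sh (u * ι ℂ a) v * ι ℂ b - sh u (gam v * ι ℂ b) * ι ℂ a := by
  induction v using left_ind generalizing u with
  | hadd x y hx hy => simp only [map_add, hx, hy, add_mul]; abel
  | hsmul r x hx => simp only [map_smul, hx, smul_mul_assoc, smul_sub]
  | h1 =>
    induction u using left_ind with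
    | hadd x y hx hy => simp only [map_add, hx, hy, LinearMap.add_apply, add_mul]; abel
    | hsmul r x hx => simp only [map_smul, hx, LinearMap.smul_apply, smul_mul_assoc, smul_sub]
    | h1 => simpa using sh_cons a b 1 1
    | hc c u ih =>
      have h1 := sh_cons c b (u * ι ℂ a) 1
      have h2 := sh_cons c b u 1
      simp only [mul_one, one_mul, map_one, sh_one, map_mul, gam_ι] at ih h1 h2 ⊢
      rw [mul_assoc, h1, h2, ih]
      noncomm_ring
  | hc d v ih =>
    induction u using left_ind with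
    | hadd x y hx hy => simp only [map_add, hx, hy, LinearMap.add_apply, add_mul]; abel
    | hsmul r x hx => simp only [map_smul, hx, LinearMap.smul_apply, smul_mul_assoc, smul_sub]
    | h1 =>
      have h1 := sh_cons a d 1 (v * ι ℂ b)
      have h2 := sh_cons a d 1 v
      have h3 := ih 1
      simp only [mul_one, one_mul, map_one, one_sh, map_mul, gam_ι] at h1 h2 h3 ⊢
      rw [mul_assoc, h1, h2, h3]
      noncomm_ring
    | hc c u ih' =>
      have h3 := ih (ι ℂ c * gam u)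
      simp only [mul_assoc, map_mul, gam_ι, neg_mul, map_neg, sh_cons, mul_neg,
        LinearMap.neg_apply] at ih' h3 ⊢
      rw [ih', h3]
      noncomm_ring

/-- left part of the shuffle product -/
noncomputable def shL : TT A →ₗ[ℂ] TT A →ₗ[ℂ] TT A :=
  hd ((LinearMap.llcomp ℂ _ _ _ ∘ₗ cons).compl₂ sh)
/-- right part of the shuffle product -/
noncomputable def shR : TT A →ₗ[ℂ] TT A →ₗ[ℂ] TT A :=
  (hd ((LinearMap.llcomp ℂ _ _ _ ∘ₗ cons).compl₂
    (LinearMap.lcomp ℂ _ gam.toLinearMap ∘ₗ sh.flip))).flip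

@[simp] theorem shL_one (y : TT A) : shL 1 y = 0 := by simp [shL]
@[simp] theorem shR_one (y : TT A) : shR y 1 = 0 := by simp [shR]
@[simp] theorem shL_cons (a : A) (x y : TT A) : shL (ι ℂ a * x) y = ι ℂ a * sh x y := by simp [shL]
@[simp] theorem shR_cons (a : A) (x y : TT A) : shR x (ι ℂ a * y) = ι ℂ a * sh (gam x) y := by
  simp [shR]

theorem snoc_ext {W : Type} [AddCommGroup W] [Module ℂ W] {S : Submodule ℂ A} {p : ℕ}
    {f g : TT A →ₗ[ℂ] W} (h : ∀ u a, f (u * ι ℂ a) = g (u * ι ℂ a)) {x : TT A}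
    (hx : x ∈ Al S (p + 1)) : f x = g x :=
  al_ext (fun l hl _ => by
    obtain rfl | ⟨l, c, rfl⟩ := l.eq_nil_or_concat'
    · simp at hl
    · simpa using h _ _) hx

theorem tt_sh {S S' : Submodule ℂ A} {p r : ℕ} {x y : TT A} (hx : x ∈ Al S (p + 1))
    (hy : y ∈ Al S' (r + 1)) (h1 : tt x = x) (h2 : tt y = y) : tt (sh x y) = sh x y := by
  have k1 : tt (sh x y) = shL (tt x) y + shR x (tt y) := by
    refine snoc_ext (f := tt ∘ₗ sh.flip y) (g := shL.flip y ∘ₗ tt + shR.flip (tt y))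
      (fun u a => ?_) hx
    refine snoc_ext (f := tt ∘ₗ sh (u * ι ℂ a))
      (g := shL (tt (u * ι ℂ a)) + shR (u * ι ℂ a) ∘ₗ tt) (fun v b => ?_) hy
    simp [sh_snoc, tt_snoc, gam_sh]
    abel
  rw [k1, h1, h2]
  refine cn_ext (f := shL.flip y + shR.flip y) (g := sh.flip y) (fun a _ u _ => ?_) hx
  refine cn_ext (f := shL (ι ℂ a * u) + shR (ι ℂ a * u)) (g := sh (ι ℂ a * u))
    (fun b _ v _ => ?_) hy
  simp [sh_cons, sub_eq_add_neg]

theorem al_two {P : ℕ → ℕ → TT A → TT A → Prop} {S S' : Submodule ℂ A}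
    (a1 : ∀ p r u u' v, P p r u v → P p r u' v → P p r (u + u') v)
    (a2 : ∀ p r u v v', P p r u v → P p r u v' → P p r u (v + v'))
    (s1 : ∀ p r (c : ℂ) u v, P p r u v → P p r (c • u) v)
    (s2 : ∀ p r (c : ℂ) u v, P p r u v → P p r u (c • v))
    (o1 : ∀ r, ∀ v ∈ Al S' r, P 0 r 1 v) (o2 : ∀ p, ∀ u ∈ Al S p, P p 0 u 1)
    (z1 : ∀ p r v, P p r 0 v) (z2 : ∀ p r u, P p r u 0)
    (h : ∀ p r, ∀ a ∈ S, ∀ b ∈ S', ∀ u ∈ Al S p, ∀ v ∈ Al S' r, P p (r + 1) u (ι ℂ b * v) →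
      P (p + 1) r (ι ℂ a * gam u) v → P (p + 1) (r + 1) (ι ℂ a * u) (ι ℂ b * v))
    (p r : ℕ) : ∀ u ∈ Al S p, ∀ v ∈ Al S' r, P p r u v := by
  induction r generalizing p with
  | zero =>
    intro u hu v hv
    obtain ⟨c, rfl⟩ := Submodule.mem_span_singleton.1 hv
    exact s2 _ _ _ _ _ (o2 p u hu)
  | succ r ih =>
    induction p with
    | zero =>
      intro u hu v hv
      obtain ⟨c, rfl⟩ := Submodule.mem_span_singleton.1 hu
      exact s1 _ _ _ _ _ (o1 _ v hv)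
    | succ p ih' =>
      intro u hu v hv
      rw [Al, Cn, Submodule.map₂_eq_span_image2] at hu hv
      induction hu using Submodule.span_induction with
      | zero => exact z1 _ _ _
      | add x y _ _ hx hy => exact a1 _ _ _ _ _ hx hy
      | smul c x _ hx => exact s1 _ _ _ _ _ hx
      | mem x hx =>
        obtain ⟨a, ha, u, hu, rfl⟩ := hx
        induction hv using Submodule.span_induction with
        | zero => exact z2 _ _ _
        | add x y _ _ hx hy => exact a2 _ _ _ _ _ hx hy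
        | smul c x _ hx => exact s2 _ _ _ _ _ hx
        | mem x hx =>
          obtain ⟨b, hb, v, hv, rfl⟩ := hx
          exact h p r a ha b hb u hu v hv (ih' u hu _ (cons_mem hb hv))
            (ih _ _ (cons_mem ha (gam_mem hu)) v hv)

theorem sh_mem {S : Submodule ℂ A} {p r : ℕ} {u v : TT A} (hu : u ∈ Al S p) (hv : v ∈ Al S r) :
    sh u v ∈ Al S (p + r) := by
  refine al_two (P := fun p r u v => sh u v ∈ Al S (p + r))
    (fun _ _ _ _ _ h h' => by simpa using add_mem h h')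
    (fun _ _ _ _ _ h h' => by simpa using add_mem h h')
    (fun _ _ c _ _ h => by simpa using Submodule.smul_mem _ c h)
    (fun _ _ c _ _ h => by simpa using Submodule.smul_mem _ c h) (by simp) (by simp) (by simp)
    (by simp) (fun p r a ha b hb u _ v _ h1 h2 => ?_) p r u hu v hv
  rw [sh_cons, add_right_comm p]
  exact sub_mem (cons_mem ha h1) (cons_mem hb (by rwa [add_right_comm] at h2))

theorem mul1_sh (a b : A) (u v : TT A) : mul1 a (sh u (ι ℂ b * v)) =
    shL (mul1 a u) (ι ℂ b * v) + ι ℂ (a * b) * sh (gam u) v :=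
  left_ext (f := mul1 a ∘ₗ sh.flip (ι ℂ b * v)) (g := shL.flip (ι ℂ b * v) ∘ₗ mul1 a +
    cons (a * b) ∘ₗ sh.flip v ∘ₗ gam.toLinearMap) (by simp)
    (fun c u _ => by simp [sh_cons, sub_eq_add_neg]) u

theorem mul1_sh' (a b : A) (u v : TT A) : mul1 b (sh (ι ℂ a * u) v) =
    ι ℂ (b * a) * sh u v + shR (ι ℂ a * u) (mul1 b v) :=
  left_ext (f := mul1 b ∘ₗ sh (ι ℂ a * u)) (g := cons (b * a) ∘ₗ sh u +
    shR (ι ℂ a * u) ∘ₗ mul1 b) (by simp)
    (fun c v _ => by simp [sh_cons, sub_eq_add_neg]) v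

theorem sh_left (x : TT A) (b : A) (v : TT A) :
    sh x (ι ℂ b * v) = shL x (ι ℂ b * v) + ι ℂ b * sh (gam x) v :=
  left_ext (f := sh.flip (ι ℂ b * v)) (g := shL.flip (ι ℂ b * v) +
    cons b ∘ₗ sh.flip v ∘ₗ gam.toLinearMap) (by simp)
    (fun c u _ => by simp [sh_cons, sub_eq_add_neg]) x

theorem sh_right (a : A) (u y : TT A) :
    sh (ι ℂ a * u) y = ι ℂ a * sh u y + shR (ι ℂ a * u) y :=
  left_ext (f := sh (ι ℂ a * u)) (g := cons a ∘ₗ sh u + shR (ι ℂ a * u)) (by simp)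
    (fun c v _ => by simp [sh_cons, sub_eq_add_neg]) y

theorem bp_sh {S S' : Submodule ℂ A} (hc : ∀ a ∈ S, ∀ b ∈ S', a * b = b * a) {p r : ℕ}
    {u v : TT A} (hu : u ∈ Al S p) (hv : v ∈ Al S' r) :
    bp (sh u v) = sh (bp u) v + sh (gam u) (bp v) := by
  refine al_two (P := fun _ _ u v => bp (sh u v) = sh (bp u) v + sh (gam u) (bp v))
    (fun _ _ _ _ _ h h' => by simp only [map_add, LinearMap.add_apply, h, h']; abel)
    (fun _ _ _ _ _ h h' => by simp only [map_add, h, h']; abel)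
    (fun _ _ c _ _ h => by simp [h]) (fun _ _ c _ _ h => by simp [h]) (by simp) (by simp) (by simp)
    (by simp) (fun p r a ha b hb u _ v _ h1 h2 => ?_) p r u hu v hv
  rw [sh_cons, map_sub, bp_cons, bp_cons, h1, h2, mul1_sh, mul1_sh', sh_left (bp (ι ℂ a * u)),
    map_mul gam _ u, gam_ι, neg_mul, map_neg sh, LinearMap.neg_apply, sh_right a (gam u) (bp _)]
  simp only [bp_cons, bp_gam, map_sub, LinearMap.sub_apply, shL_cons, shR_cons, gam_gam, map_mul,
    gam_ι, hc a ha b hb, neg_mul, map_neg, LinearMap.neg_apply, gam_mul1, mul_neg]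
  noncomm_ring

/-- cyclically invariant bar cycles -/
structure Good (S : Submodule ℂ A) (p : ℕ) (w : TT A) : Prop where
  mem : w ∈ Al S (p + 1)
  tt : tt w = w
  bp : bp w = 0

theorem Good.sh {S S' T : Submodule ℂ A} {p r : ℕ} {u v : TT A} (hu : Good S p u)
    (hv : Good S' r v) (hc : ∀ a ∈ S, ∀ b ∈ S', a * b = b * a) (h1 : S ≤ T) (h2 : S' ≤ T) :
    Good T (p + 1 + r) (sh u v) :=
  ⟨sh_mem (p := p + 1) (r := r + 1) (Al_mono h1 _ hu.mem) (Al_mono h2 _ hv.mem), tt_sh hu.mem hv.mem hu.tt hv.tt, by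
    simp [bp_sh hc hu.mem hv.mem, hu.bp, hv.bp]⟩

section dga
variable {Ω : Type} [Ring Ω] [Algebra ℂ Ω] (f : A →ₐ[ℂ] Ω) (d : A →ₗ[ℂ] Ω)

theorem dd_sh {S S' : Submodule ℂ A} (μ : ℕ) (h : ∀ a ∈ S, ∀ b ∈ S', d b * d a = -(μ • (d a * d b)))
    (p r : ℕ) : ∃ c : ℕ, 0 < c ∧ ∀ u ∈ Al S p, ∀ v ∈ Al S' r,
      lift ℂ d (sh u v) = c • (lift ℂ d u * lift ℂ d v) := by
  have k : ∀ b ∈ S', ∀ p, ∀ u ∈ Al S p, d b * lift ℂ d (gam u) = μ ^ p • (lift ℂ d u * d b) := by
    intro b hb p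
    induction p with
    | zero =>
      intro u hu
      obtain ⟨c, rfl⟩ := Submodule.mem_span_singleton.1 hu
      simp
    | succ p ih =>
      intro u hu
      refine cn_ext (f := LinearMap.mulLeft ℂ (d b) ∘ₗ (lift ℂ d).toLinearMap ∘ₗ gam.toLinearMap)
        (g := μ ^ (p + 1) • LinearMap.mulRight ℂ (d b) ∘ₗ (lift ℂ d).toLinearMap)
        (fun a ha x hx => ?_) hu
      simp only [LinearMap.comp_apply, LinearMap.mulLeft_apply, AlgHom.toLinearMap_apply, map_mul,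
        gam_ι, map_neg, lift_ι_apply, LinearMap.smul_apply, LinearMap.mulRight_apply]
      rw [neg_mul, mul_neg, ← mul_assoc, h a ha b hb, neg_mul, neg_neg, smul_mul_assoc, mul_assoc,
        ih x hx, mul_smul_comm, smul_smul, pow_succ', mul_assoc]
  let c : ℕ → ℕ → ℕ := fun r => Nat.rec (fun _ => 1)
    (fun _ c p => Nat.rec 1 (fun p x => x + μ ^ (p + 1) * c (p + 1)) p) r
  have c0 : ∀ r p, 0 < c r p := by
    intro r p
    obtain _ | r := r
    · exact one_pos
    · induction p with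
      | zero => exact one_pos
      | succ p ih => exact Nat.add_pos_left ih _
  refine ⟨c r p, c0 r p, al_two
    (P := fun p r u v => lift ℂ d (sh u v) = c r p • (lift ℂ d u * lift ℂ d v))
    (fun _ _ _ _ _ h h' => by simp only [map_add, LinearMap.add_apply, h, h', add_mul, smul_add])
    (fun _ _ _ _ _ h h' => by simp only [map_add, h, h', mul_add, smul_add])
    (fun _ _ c _ _ h => by simp [h]) (fun _ _ c _ _ h => by simp [h])
    (fun r v _ => by cases r <;> simp [c]) (by simp [c]) (by simp) (by simp)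
    (fun p r a ha b hb u hu v _ h1 h2 => ?_) p r⟩
  have e : c (r + 1) (p + 1) = c (r + 1) p + μ ^ (p + 1) * c r (p + 1) := rfl
  have h3 := k b hb (p + 1) _ (cons_mem ha hu)
  simp only [map_mul, gam_ι, neg_mul, map_neg, mul_neg, lift_ι_apply] at h1 h2 h3
  simp only [sh_cons, map_sub, map_mul (lift ℂ d), h1, h2, e, lift_ι_apply, mul_smul_comm]
  rw [← mul_assoc (d b), neg_eq_iff_eq_neg.1 h3, mul_comm (μ ^ _)]
  simp [add_smul, mul_smul, mul_assoc]

variable (hd : ∀ a b, d (a * b) = d a * f b + f a * d b)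
include hd

theorem dd_bp (x : TT A) (a c : A) : lift ℂ d (bp (ι ℂ a * (x * ι ℂ c))) =
    f a * lift ℂ d (x * ι ℂ c) + lift ℂ d (ι ℂ a * gam x) * f c := by
  induction x using left_ind generalizing a with
  | hadd x y hx hy => simp only [add_mul, mul_add, map_add, hx, hy]; abel
  | hsmul r x hx => simp only [smul_mul_assoc, mul_smul_comm, map_smul, hx, smul_add]
  | h1 => simp [bp_cons, hd, add_comm]
  | hc b x ih =>
    rw [mul_assoc, bp_cons, mul1_cons, map_sub, map_mul, map_mul (lift ℂ d) (ι ℂ a), ih]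
    simp [hd, mul_add, add_mul, mul_assoc]
    abel

theorem dd_one : d 1 = 0 := by simpa using hd 1 1

theorem int_bp (I : Ω →ₗ[ℂ] ℂ) {S : Submodule ℂ A} (h1 : ∀ a ∈ S, ∀ η, I (f a * η) = 0)
    (h2 : ∀ a ∈ S, ∀ η, I (η * f a) = 0) {p : ℕ} {x : TT A} (hx : x ∈ Al S (p + 2)) :
    I (lift ℂ d (bp x)) = 0 := by
  refine cn_ext (f := I ∘ₗ (lift ℂ d).toLinearMap ∘ₗ bp) (g := 0) (fun a ha y hy => ?_) hx
  refine al_ext (f := I ∘ₗ (lift ℂ d).toLinearMap ∘ₗ bp ∘ₗ cons a) (g := 0) (fun l hl hS => ?_) hy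
  obtain rfl | ⟨l, c, rfl⟩ := l.eq_nil_or_concat'
  · simp at hl
  simp only [LinearMap.comp_apply, cons_apply, tm_append, tm_cons, tm_nil, mul_one,
    AlgHom.toLinearMap_apply]
  rw [dd_bp f d hd, map_add, h1 a ha, h2 c (hS c (by simp))]
  simp

theorem int_bb (I : Ω →ₗ[ℂ] ℂ) (γ : Ω →ₐ[ℂ] Ω) (g1 : ∀ a, γ (f a) = f a) (g2 : ∀ a, γ (d a) = -d a)
    (h1 : ∀ a η, I (f a * η) = I (η * f a)) (h2 : ∀ a η, I (d a * η) = I (γ η * d a))
    {p : ℕ} {x : TT A} (hx : x ∈ Al ⊤ (p + 2)) : I (lift ℂ d (bb x)) = 0 := by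
  have g3 : ∀ x, γ (lift ℂ d x) = lift ℂ d (gam x) := left_ext
    (f := γ.toLinearMap ∘ₗ (lift ℂ d).toLinearMap) (g := (lift ℂ d).toLinearMap ∘ₗ gam.toLinearMap)
    (by simp) (fun a x h => by simp at h; simp [h, g2])
  refine cn_ext (f := I ∘ₗ (lift ℂ d).toLinearMap ∘ₗ bb) (g := 0) (fun a _ y hy => ?_) hx
  refine snoc_ext (f := I ∘ₗ (lift ℂ d).toLinearMap ∘ₗ bb ∘ₗ cons a) (g := 0) (fun x c => ?_) hy
  simp only [LinearMap.comp_apply, cons_apply, AlgHom.toLinearMap_apply, bb_apply, map_add]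
  rw [dd_bp f d hd, ← mul_assoc, tt_snoc, map_mul gam, gam_ι, d0_cons, neg_mul, map_neg, mul1_cons,
    map_neg, map_mul _ (ι ℂ (c * a)), lift_ι_apply, hd, add_mul, mul_assoc, mul_assoc, map_neg,
    map_add, map_add, h2 c, h1 c]
  simp [g1, g3, mul_assoc]

end dga

end Pool.Agent.P.MP_5bcbab_al
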