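import Pool.Agent.P.MP_5bcbab_al.Defs

namespace Pool.Agent.P.MP_5bcbab_al

open TensorAlgebra

variable {A : Type} [Ring A] [Algebra ℂ A]

/-- tensor algebra -/
abbrev TT (A : Type) [Ring A] [Algebra ℂ A] : Type := TensorAlgebra ℂ A

/-- pure tensors -/
def tm (l : List A) : TT A := (l.map (ι ℂ)).prod

@[simp] theorem tm_nil : tm ([] : List A) = 1 := rfl
@[simp] theorem tm_cons (a : A) (l : List A) : tm (a :: l) = ι ℂ a * tm l := by simp [tm]
@[simp] theorem tm_append (l l' : List A) : tm (l ++ l') = tm l * tm l' := by simp [tm]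

theorem list_ind {P : TT A → Prop} (h0 : P 0) (hadd : ∀ x y, P x → P y → P (x + y))
    (hsmul : ∀ (c : ℂ) x, P x → P (c • x)) (hl : ∀ l, P (tm l)) (x : TT A) : P x := by
  have : x ∈ Submodule.span ℂ (Set.range (tm (A := A))) := by
    induction x using TensorAlgebra.induction with
    | algebraMap r =>
      rw [Algebra.algebraMap_eq_smul_one]
      exact Submodule.smul_mem _ _ (Submodule.subset_span ⟨[], rfl⟩)
    | ι a => exact Submodule.subset_span ⟨[a], by simp⟩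
    | add a b ha hb => exact add_mem ha hb
    | mul a b ha hb =>
      have := Submodule.mul_mem_mul ha hb
      rw [Submodule.span_mul_span] at this
      refine Submodule.span_mono ?_ this
      rintro _ ⟨_, ⟨l, rfl⟩, _, ⟨l', rfl⟩, rfl⟩
      exact ⟨l ++ l', by simp⟩
  induction this using Submodule.span_induction with
  | mem x hx => obtain ⟨l, rfl⟩ := hx; exact hl l
  | zero => exact h0
  | add x y _ _ hx hy => exact hadd x y hx hy
  | smul c x _ hx => exact hsmul c x hx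

theorem left_ind {P : TT A → Prop} (hadd : ∀ x y, P x → P y → P (x + y))
    (hsmul : ∀ (c : ℂ) x, P x → P (c • x)) (h1 : P 1) (hc : ∀ a x, P x → P (ι ℂ a * x))
    (x : TT A) : P x := by
  refine list_ind (by simpa using hsmul 0 1 h1) hadd hsmul (fun l => ?_) x
  induction l with
  | nil => exact h1
  | cons a l ih => rw [tm_cons]; exact hc a _ ih

theorem right_ind {P : TT A → Prop} (hadd : ∀ x y, P x → P y → P (x + y))
    (hsmul : ∀ (c : ℂ) x, P x → P (c • x)) (h1 : P 1) (hc : ∀ a x, P x → P (x * ι ℂ a))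
    (x : TT A) : P x := by
  refine list_ind (by simpa using hsmul 0 1 h1) hadd hsmul (fun l => ?_) x
  induction l using List.reverseRecOn with
  | nil => exact h1
  | append_singleton l a ih => simpa using hc a _ ih

section rec
variable {W : Type} [AddCommGroup W] [Module ℂ W]

theorem left_ext {f g : TT A →ₗ[ℂ] W} (h1 : f 1 = g 1)
    (hc : ∀ a x, f x = g x → f (ι ℂ a * x) = g (ι ℂ a * x)) (x : TT A) : f x = g x :=
  left_ind (P := fun x => f x = g x) (fun x y hx hy => by simp [hx, hy])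
    (fun c x hx => by simp [hx]) h1 hc x

theorem right_ext {f g : TT A →ₗ[ℂ] W} (h1 : f 1 = g 1)
    (hc : ∀ a x, f x = g x → f (x * ι ℂ a) = g (x * ι ℂ a)) (x : TT A) : f x = g x :=
  right_ind (P := fun x => f x = g x) (fun x y hx hy => by simp [hx, hy])
    (fun c x hx => by simp [hx]) h1 hc x

/-- prepend a letter -/
noncomputable def cons : A →ₗ[ℂ] TT A →ₗ[ℂ] TT A := LinearMap.mul ℂ (TT A) ∘ₗ ι ℂ

@[simp] theorem cons_apply (a : A) (x : TT A) : cons a x = ι ℂ a * x := rfl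

/-- state machine -/
noncomputable def recStep (F : A →ₗ[ℂ] TT A →ₗ[ℂ] W) (G : A →ₗ[ℂ] W →ₗ[ℂ] W) :
    A →ₗ[ℂ] Module.End ℂ (TT A × W) :=
  LinearMap.mk₂ ℂ (fun a p => (ι ℂ a * p.1, F a p.1 + G a p.2))
    (fun a b p => by simp [add_mul]; abel) (fun c a p => by simp)
    (fun a p p' => by simp [mul_add]; abel) (fun c a p => by simp)

/-- recursion over the first letter -/
noncomputable def recT (w : W) (F : A →ₗ[ℂ] TT A →ₗ[ℂ] W) (G : A →ₗ[ℂ] W →ₗ[ℂ] W) :
    TT A →ₗ[ℂ] W :=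
  LinearMap.snd ℂ _ _ ∘ₗ LinearMap.applyₗ (1, w) ∘ₗ (lift ℂ (recStep F G)).toLinearMap

theorem recT_fst (w : W) (F : A →ₗ[ℂ] TT A →ₗ[ℂ] W) (G : A →ₗ[ℂ] W →ₗ[ℂ] W) (x : TT A) :
    (lift ℂ (recStep F G) x (1, w)).1 = x :=
  left_ext (f := LinearMap.fst ℂ _ _ ∘ₗ LinearMap.applyₗ (1, w) ∘ₗ
    (lift ℂ (recStep F G)).toLinearMap) (g := LinearMap.id) (by simp)
    (fun a x h => by
      simp only [LinearMap.comp_apply, AlgHom.toLinearMap_apply, LinearMap.applyₗ_apply_apply,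
        LinearMap.fst_apply, LinearMap.id_apply, map_mul, lift_ι_apply, Module.End.mul_apply,
        recStep, LinearMap.mk₂_apply] at h ⊢
      rw [h]) x

@[simp] theorem recT_one (w : W) (F : A →ₗ[ℂ] TT A →ₗ[ℂ] W) (G : A →ₗ[ℂ] W →ₗ[ℂ] W) :
    recT w F G 1 = w := by simp [recT]

@[simp] theorem recT_cons (w : W) (F : A →ₗ[ℂ] TT A →ₗ[ℂ] W) (G : A →ₗ[ℂ] W →ₗ[ℂ] W)
    (a : A) (x : TT A) : recT w F G (ι ℂ a * x) = F a x + G a (recT w F G x) := by
  have := recT_fst w F G x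
  simp only [recT, LinearMap.comp_apply, AlgHom.toLinearMap_apply, LinearMap.applyₗ_apply_apply,
    LinearMap.snd_apply, map_mul, lift_ι_apply, Module.End.mul_apply] at this ⊢
  rw [recStep, LinearMap.mk₂_apply, ← recStep, this]

/-- head-tail decomposition -/
noncomputable def hd (F : A →ₗ[ℂ] TT A →ₗ[ℂ] W) : TT A →ₗ[ℂ] W := recT 0 F 0

@[simp] theorem hd_one (F : A →ₗ[ℂ] TT A →ₗ[ℂ] W) : hd F 1 = 0 := by simp [hd]
@[simp] theorem hd_cons (F : A →ₗ[ℂ] TT A →ₗ[ℂ] W) (a : A) (x : TT A) :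
    hd F (ι ℂ a * x) = F a x := by simp [hd]

end rec

/-- parity -/
noncomputable def gam : TT A →ₐ[ℂ] TT A := lift ℂ (-ι ℂ)

@[simp] theorem gam_ι (a : A) : gam (ι ℂ a) = -ι ℂ a := by simp [gam]

@[simp] theorem gam_gam (x : TT A) : gam (gam x) = x :=
  left_ext (f := gam.toLinearMap ∘ₗ gam.toLinearMap) (g := LinearMap.id) (by simp)
    (fun a x h => by simp at h; simp [h]) x

theorem gam_tm (l : List A) : gam (tm l) = (-1 : ℂ) ^ l.length • tm l := by
  induction l with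
  | nil => simp
  | cons a l ih => simp [ih, pow_succ]

/-- multiply the first letter -/
noncomputable def mul1 : A →ₗ[ℂ] TT A →ₗ[ℂ] TT A :=
  (hd (LinearMap.mk₂ ℂ (fun b x => cons.flip x ∘ₗ LinearMap.mulRight ℂ b)
    (fun a b x => by ext; simp [mul_add]) (fun c a x => by ext; simp)
    (fun a x y => by ext; simp) (fun c a x => by ext; simp))).flip

@[simp] theorem mul1_one (a : A) : mul1 a 1 = 0 := by simp [mul1]
@[simp] theorem mul1_cons (a b : A) (x : TT A) : mul1 a (ι ℂ b * x) = ι ℂ (a * b) * x := by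
  simp [mul1]
@[simp] theorem mul1_ι (a b : A) : mul1 a (ι ℂ b) = ι ℂ (a * b) := by
  simpa using mul1_cons a b 1

theorem mul1_mul1 (a b : A) (x : TT A) : mul1 a (mul1 b x) = mul1 (a * b) x :=
  left_ext (f := mul1 a ∘ₗ mul1 b) (by simp) (fun c x _ => by simp [mul_assoc]) x

theorem mul1_snoc (a b : A) (x y : TT A) : mul1 a (x * ι ℂ b * y) = mul1 a (x * ι ℂ b) * y :=
  left_ext (f := mul1 a ∘ₗ LinearMap.mulRight ℂ y ∘ₗ LinearMap.mulRight ℂ (ι ℂ b))
    (g := LinearMap.mulRight ℂ y ∘ₗ mul1 a ∘ₗ LinearMap.mulRight ℂ (ι ℂ b)) (by simp)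
    (fun c x _ => by simp [mul_assoc]) x

theorem gam_mul1 (a : A) (x : TT A) : gam (mul1 a x) = mul1 a (gam x) :=
  left_ext (f := gam.toLinearMap ∘ₗ mul1 a) (g := mul1 a ∘ₗ gam.toLinearMap) (by simp)
    (fun c x _ => by simp) x

/-- the bar differential -/
noncomputable def bp : TT A →ₗ[ℂ] TT A := recT 0 mul1 (-cons)

@[simp] theorem bp_one : bp (1 : TT A) = 0 := by simp [bp]
theorem bp_cons (a : A) (x : TT A) : bp (ι ℂ a * x) = mul1 a x - ι ℂ a * bp x := by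
  simp [bp, sub_eq_add_neg]
@[simp] theorem bp_ι (a : A) : bp (ι ℂ a) = 0 := by simpa using bp_cons a 1

theorem bp_mul1 (a : A) (x : TT A) : bp (mul1 a x) = mul1 a (bp x) :=
  left_ext (f := bp ∘ₗ mul1 a) (g := mul1 a ∘ₗ bp) (by simp)
    (fun c x _ => by simp [bp_cons, mul1_mul1]) x

theorem bp_bp (x : TT A) : bp (bp x) = 0 :=
  left_ext (f := bp ∘ₗ bp) (g := 0) (by simp)
    (fun c x h => by simp at h; simp [bp_cons, bp_mul1, h]) x

theorem bp_gam (x : TT A) : bp (gam x) = -gam (bp x) :=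
  left_ext (f := bp ∘ₗ gam.toLinearMap) (g := -(gam.toLinearMap ∘ₗ bp)) (by simp)
    (fun c x h => by simp at h; simp [bp_cons, gam_mul1, h]) x

theorem bp_snoc (x : TT A) (a c : A) :
    bp (x * ι ℂ a * ι ℂ c) = bp (x * ι ℂ a) * ι ℂ c + gam x * ι ℂ (a * c) := by
  induction x using left_ind with
  | hadd x y hx hy => simp only [add_mul, map_add, hx, hy]; abel
  | hsmul r x hx => simp only [smul_mul_assoc, map_smul, hx, smul_add]
  | h1 => simp [bp_cons]
  | hc e x hx =>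
    rw [mul_assoc (ι ℂ e), mul_assoc (ι ℂ e), bp_cons, bp_cons, hx, mul1_snoc, map_mul gam, gam_ι]
    noncomm_ring

/-- first face -/
noncomputable def d0 : TT A →ₗ[ℂ] TT A := hd mul1

@[simp] theorem d0_one : d0 (1 : TT A) = 0 := by simp [d0]
@[simp] theorem d0_cons (a : A) (x : TT A) : d0 (ι ℂ a * x) = mul1 a x := by simp [d0]
@[simp] theorem d0_ι (a : A) : d0 (ι ℂ a) = 0 := by simpa using d0_cons a 1

/-- signed rotation, first letter to the end -/
noncomputable def tau : TT A →ₗ[ℂ] TT A :=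
  hd ((LinearMap.mul ℂ (TT A)).flip.compl₁₂ (ι ℂ) gam.toLinearMap)

@[simp] theorem tau_one : tau (1 : TT A) = 0 := by simp [tau]
@[simp] theorem tau_cons (a : A) (x : TT A) : tau (ι ℂ a * x) = gam x * ι ℂ a := by simp [tau]

/-- insert a letter in second position -/
noncomputable def ins : A →ₗ[ℂ] TT A →ₗ[ℂ] TT A :=
  (hd (LinearMap.mk₂ ℂ (fun b x => cons b ∘ₗ cons.flip x)
    (fun a b x => by ext; simp) (fun c a x => by ext; simp)
    (fun a x y => by ext; simp [mul_add]) (fun c a x => by ext; simp))).flip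

/-- signed rotation, last letter to the front -/
noncomputable def tt : TT A →ₗ[ℂ] TT A :=
  recT 0 ((LinearMap.lsmul ℂ (TT A)).flip.compl₁₂ (ι ℂ) algebraMapInv.toLinearMap) (-ins)

@[simp] theorem tt_one : tt (1 : TT A) = 0 := by simp [tt]

theorem tt_snoc (x : TT A) (a : A) : tt (x * ι ℂ a) = ι ℂ a * gam x := by
  have h0 : ∀ x : TT A, algebraMapInv (x * ι ℂ a) = 0 := fun x => by
    simp [algebraMapInv]
  induction x using left_ind with
  | hadd x y hx hy => simp only [add_mul, mul_add, map_add, hx, hy]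
  | hsmul r x hx => simp only [smul_mul_assoc, mul_smul_comm, map_smul, hx]
  | h1 =>
    have := recT_cons (0 : TT A) ((LinearMap.lsmul ℂ (TT A)).flip.compl₁₂ (ι ℂ)
      algebraMapInv.toLinearMap) (-ins) a 1
    simpa [tt] using this
  | hc e x hx =>
    rw [mul_assoc, tt, recT_cons, ← tt, hx]
    simp [h0, ins]

@[simp] theorem tt_ι (a : A) : tt (ι ℂ a) = ι ℂ a := by simpa using tt_snoc 1 a

theorem tt_tau_cons (a : A) (x : TT A) : tt (tau (ι ℂ a * x)) = ι ℂ a * x := by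
  simp [tt_snoc]

theorem tau_tt_snoc (a : A) (x : TT A) : tau (tt (x * ι ℂ a)) = x * ι ℂ a := by
  simp [tt_snoc]

/-- the Hochschild differential -/
noncomputable def bb : TT A →ₗ[ℂ] TT A := bp + d0 ∘ₗ tt

theorem bb_apply (x : TT A) : bb x = bp x + d0 (tt x) := rfl

@[simp] theorem bb_one : bb (1 : TT A) = 0 := by simp [bb_apply]
@[simp] theorem bb_ι (a : A) : bb (ι ℂ a) = 0 := by simp [bb_apply]

theorem d0_bp (x : TT A) : d0 (bp x) = d0 (d0 x) - bp (d0 x) := by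
  refine left_ext (f := d0 ∘ₗ bp) (g := d0 ∘ₗ d0 - bp ∘ₗ d0) (by simp) (fun a x _ => ?_) x
  simp [bp_cons, bp_mul1]

theorem tt_bp (x : TT A) : tt (bp x) = bp (tt x) - d0 (tt x) + d0 (tt (tt x)) := by
  refine right_ext (f := tt ∘ₗ bp) (g := bp ∘ₗ tt - d0 ∘ₗ tt + d0 ∘ₗ tt ∘ₗ tt) (by simp)
    (fun c x _ => ?_) x
  refine right_ext (f := tt ∘ₗ bp ∘ₗ LinearMap.mulRight ℂ (ι ℂ c))
    (g := (bp ∘ₗ tt - d0 ∘ₗ tt + d0 ∘ₗ tt ∘ₗ tt) ∘ₗ LinearMap.mulRight ℂ (ι ℂ c)) (by simp)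
    (fun a x _ => ?_) x
  simp only [LinearMap.comp_apply, LinearMap.mulRight_apply, LinearMap.add_apply,
    LinearMap.sub_apply]
  rw [bp_snoc, map_add, tt_snoc, tt_snoc, tt_snoc, bp_cons, d0_cons, bp_gam, map_mul gam x, gam_ι,
    mul_neg, mul_neg, mul_neg, map_neg tt, ← mul_assoc, tt_snoc]
  simp

theorem bb_sub_tt (x : TT A) : bb (x - tt x) = bp x - tt (bp x) := by
  simp only [bb_apply, map_sub, tt_bp]
  abel

theorem bb_bb (x : TT A) : bb (bb x) = 0 := by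
  have key : d0 (d0 (tt (tt x))) + d0 (tt (d0 (tt x))) = 0 := by
    refine right_ext (f := d0 ∘ₗ d0 ∘ₗ tt ∘ₗ tt + d0 ∘ₗ tt ∘ₗ d0 ∘ₗ tt) (g := 0) (by simp)
      (fun c x _ => ?_) x
    refine right_ext (f := (d0 ∘ₗ d0 ∘ₗ tt ∘ₗ tt + d0 ∘ₗ tt ∘ₗ d0 ∘ₗ tt) ∘ₗ
      LinearMap.mulRight ℂ (ι ℂ c)) (g := 0) (by simp) (fun a x _ => ?_) x
    refine left_ext (f := (d0 ∘ₗ d0 ∘ₗ tt ∘ₗ tt + d0 ∘ₗ tt ∘ₗ d0 ∘ₗ tt) ∘ₗ
      LinearMap.mulRight ℂ (ι ℂ c) ∘ₗ LinearMap.mulRight ℂ (ι ℂ a)) (g := 0) ?_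
      (fun e x _ => ?_) x
    · simp [tt_snoc]
    · simp only [LinearMap.comp_apply, LinearMap.mulRight_apply, LinearMap.add_apply,
        LinearMap.zero_apply]
      have e1 : tt (ι ℂ e * x * ι ℂ a * ι ℂ c) = ι ℂ c * (ι ℂ e * gam x) * ι ℂ a := by
        rw [tt_snoc]
        simp [mul_assoc]
      rw [e1, tt_snoc, mul_assoc (ι ℂ c), d0_cons, d0_cons, mul_assoc (ι ℂ e), mul1_cons,
        ← mul_assoc (ι ℂ (c * e)), tt_snoc]
      simp [mul_assoc]
  simp only [bb_apply, map_add, bp_bp, tt_bp, map_sub, d0_bp]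
  rw [eq_neg_of_add_eq_zero_left key]
  abel

attribute [irreducible] recT hd gam mul1 bp d0 tau tt bb

end Pool.Agent.P.MP_5bcbab_al
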