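import Pool.Agent.P.MP_5bcbab_al.Shuf

namespace Pool.Agent.P.MP_5bcbab_al

open TensorAlgebra Module

set_option maxHeartbeats 400000

section chain
variable {A : Type} [Ring A] [Algebra ℂ A] {Ω : Type} [Ring Ω] [Algebra ℂ Ω] (d : A →ₗ[ℂ] Ω) (μ : ℕ)

/-- letters compatible with an alphabet -/
def Rm (S : Submodule ℂ A) : Submodule ℂ A where
  carrier := {b | ∀ a ∈ S, a * b = b * a ∧ d b * d a = -(μ • (d a * d b))}
  add_mem' h h' a ha := by simp [mul_add, add_mul, (h a ha).1, (h' a ha).1, (h a ha).2, (h' a ha).2,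
    add_comm]
  zero_mem' := by simp
  smul_mem' c b h a ha := by simp [(h a ha).1, (h a ha).2]

theorem chain {L : Type} (S : L → Submodule ℂ A) (ω : L → TT A) (hω : ∀ i, Good (S i) 2 (ω i))
    {S0 : Submodule ℂ A} {p : ℕ} {u : TT A} (hu : Good S0 p u) (l : List L)
    (h1 : l.Pairwise fun i j => S j ≤ Rm d μ (S i)) (h2 : ∀ i ∈ l, S0 ≤ Rm d μ (S i)) :
    ∃ W, (∀ T, S0 ≤ T → (∀ i ∈ l, S i ≤ T) → Good T (p + 3 * l.length) W) ∧ ∃ c : ℕ, 0 < c ∧
      lift ℂ d W = c • ((l.map fun i => lift ℂ d (ω i)).prod * lift ℂ d u) := by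
  induction l with
  | nil => exact ⟨u, fun T h _ => ⟨Al_mono h _ hu.mem, hu.tt, hu.bp⟩, 1, one_pos, by simp⟩
  | cons i l ih =>
    obtain ⟨W, h3, c, hc, h4⟩ := ih h1.tail fun j hj => h2 j (by simp [hj])
    have h5 := h3 _ (h2 i (by simp)) (List.pairwise_cons.1 h1).1
    obtain ⟨c', hc', h6⟩ := dd_sh d μ (S := S i) (S' := Rm d μ (S i))
      (fun a ha b hb => (hb a ha).2) (2 + 1) (p + 3 * l.length + 1)
    refine ⟨sh (ω i) W, fun T h h' => ?_, c' * c, Nat.mul_pos hc' hc, ?_⟩
    · have h7 := h3 T h fun j hj => h' j (by simp [hj])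
      have h8 := (hω i).sh h5 (fun a ha b hb => (hb a ha).1) le_top le_top
      rw [List.length_cons, show p + 3 * (l.length + 1) = 2 + 1 + (p + 3 * l.length) by omega]
      exact ⟨sh_mem (p := 2 + 1) (r := p + 3 * l.length + 1) (Al_mono (h' i (by simp)) _ (hω i).mem)
        h7.mem, h8.tt, h8.bp⟩
    · rw [h6 _ (hω i).mem _ h5.mem, h4]
      simp only [mul_smul, mul_assoc, mul_smul_comm, List.map_cons, List.prod_cons]

end chain

variable {n : ℕ} (q : ℂ)

theorem exists_fd {Ω : Type} [Ring Ω] [Algebra ℂ Ω] (x y : Fin n → Fin 3 → Ω)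
    (h1 : ∀ i j a b, i ≠ j → x i a * x j b = x j b * x i a ∧
      y i a * x j b + x i a * y j b = y j b * x i a + x j b * y i a)
    (h2 : ∀ i, x i 0 * x i 2 = q • (x i 2 * x i 0) ∧
      y i 0 * x i 2 + x i 0 * y i 2 = q • (y i 2 * x i 0 + x i 2 * y i 0))
    (h3 : ∀ i, x i 1 * x i 2 = q⁻¹ • (x i 2 * x i 1) ∧
      y i 1 * x i 2 + x i 1 * y i 2 = q⁻¹ • (y i 2 * x i 1 + x i 2 * y i 1))
    (h4 : ∀ i, x i 0 * x i 1 = q⁻¹ • (x i 1 * x i 0) + x i 2 ∧
      y i 0 * x i 1 + x i 0 * y i 1 = q⁻¹ • (y i 1 * x i 0 + x i 1 * y i 0) + y i 2) :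
    ∃ (f : HH n q →ₐ[ℂ] Ω) (d : HH n q →ₗ[ℂ] Ω), (∀ a b, d (a * b) = d a * f b + f a * d b) ∧
      (∀ i a, f (gen q i a) = x i a) ∧ ∀ i a, d (gen q i a) = y i a := by
  let F : HH n q →ₐ[ℂ] TrivSqZeroExt Ω Ω := hlift q (fun i a => (x i a, y i a))
    (fun i j a b h => TrivSqZeroExt.ext (h1 i j a b h).1 (by
      simpa [add_comm] using (h1 i j a b h).2))
    (fun i => TrivSqZeroExt.ext (h2 i).1 (by simpa [add_comm] using (h2 i).2))
    (fun i => TrivSqZeroExt.ext (h3 i).1 (by simpa [add_comm] using (h3 i).2))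
    (fun i => TrivSqZeroExt.ext (h4 i).1 (by simpa [add_comm, add_left_comm] using (h4 i).2))
  refine ⟨(TrivSqZeroExt.fstHom ℂ Ω Ω).comp F,
    (TrivSqZeroExt.sndHom Ω Ω).restrictScalars ℂ ∘ₗ F.toLinearMap, fun a b => ?_, fun i a => ?_,
    fun i a => ?_⟩
  · show (F (a * b)).snd = (F a).snd * (F b).fst + (F a).fst * (F b).snd
    rw [map_mul, TrivSqZeroExt.snd_mul, add_comm]
    rfl
  · exact congrArg TrivSqZeroExt.fst (hlift_gen q _ _ _ _ _ i a)
  · exact congrArg TrivSqZeroExt.snd (hlift_gen q _ _ _ _ _ i a)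

/-- alphabet of an index -/
noncomputable def SS (i : Fin n) : Submodule ℂ (HH n q) := Submodule.span ℂ (Set.range (gen q i))

theorem SS_le (i : Fin n) : SS q i ≤ Ap (eps q n) :=
  Submodule.span_le.2 (by rintro _ ⟨a, rfl⟩; exact eps_gen q i a)

theorem le_Rm {Ω : Type} [Ring Ω] [Algebra ℂ Ω] (d : HH n q →ₗ[ℂ] Ω) (μ : ℕ) (i : Fin n)
    {b : HH n q} (h : ∀ a, gen q i a * b = b * gen q i a ∧
      d b * d (gen q i a) = -(μ • (d (gen q i a) * d b))) : b ∈ Rm d μ (SS q i) := by
  intro a ha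
  induction ha using Submodule.span_induction with
  | mem x hx => obtain ⟨a, rfl⟩ := hx; exact h a
  | zero => simp
  | add x y _ _ hx hy => simp [mul_add, add_mul, hx.1, hy.1, hx.2, hy.2, add_comm]
  | smul c x _ hx => simp [hx.1, hx.2]

/-- words in the generators -/
noncomputable def w3 (i : Fin n) (a b c : Fin 3) : TT (HH n q) :=
  ι ℂ (gen q i a) * (ι ℂ (gen q i b) * ι ℂ (gen q i c))

/-- the fundamental cycle -/
noncomputable def om (i : Fin n) : TT (HH n q) :=
  w3 q i 0 2 1 + w3 q i 1 0 2 + w3 q i 2 1 0 - q • (w3 q i 0 1 2 + w3 q i 1 2 0 + w3 q i 2 0 1)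

variable {q} (hq : q ≠ 0)
include hq

theorem om_good (i : Fin n) : Good (SS q i) 2 (om q i) := by
  have h : ∀ a b c, w3 q i a b c ∈ Al (SS q i) 3 := fun a b c =>
    cons_mem (Submodule.subset_span ⟨a, rfl⟩) (cons_mem (Submodule.subset_span ⟨b, rfl⟩)
      (ι_mem_Al (Submodule.subset_span ⟨c, rfl⟩)))
  refine ⟨sub_mem (add_mem (add_mem (h _ _ _) (h _ _ _)) (h _ _ _))
    (Submodule.smul_mem _ _ (add_mem (add_mem (h _ _ _) (h _ _ _)) (h _ _ _))), ?_, ?_⟩
  · have : ∀ a b c, tt (w3 q i a b c) = w3 q i c a b := fun a b c => by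
      rw [w3, ← mul_assoc, tt_snoc]
      simp [w3]
    simp only [om, map_sub, map_add, map_smul, this]
    module
  · simp only [om, w3, map_sub, map_add, map_smul, bp_cons, mul1_cons, mul1_ι, bp_ι, gen_xz, gen_yz,
      gen_xy, mul_zero, sub_zero, add_mul, mul_add, smul_mul_assoc, mul_smul_comm]
    match_scalars <;> simp [hq]

variable (q) in
/-- a central element -/
noncomputable def cen (i : Fin n) : HH n q :=
  gen q i 2 * gen q i 2 + (1 - q * q) • (gen q i 1 * (gen q i 2 * gen q i 0))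

theorem cen_comm (i : Fin n) (x : HH n q) : Commute (cen q i) x := by
  induction x using gen_ind with
  | hadd x y hx hy => exact hx.add_right hy
  | halg c => exact (Algebra.commute_algebraMap_right c _)
  | hmul x y hx hy => exact hx.mul_right hy
  | hg j a =>
    by_cases h : i = j
    · subst h
      have h1 : ∀ w, gen q i 0 * (gen q i 2 * w) = q • (gen q i 2 * (gen q i 0 * w)) := fun w => by
        rw [← mul_assoc, gen_xz, smul_mul_assoc, mul_assoc]
      have h2 : ∀ w, gen q i 1 * (gen q i 2 * w) = q⁻¹ • (gen q i 2 * (gen q i 1 * w)) := fun w => by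
        rw [← mul_assoc, gen_yz, smul_mul_assoc, mul_assoc]
      have h3 : ∀ w, gen q i 0 * (gen q i 1 * w) =
          q⁻¹ • (gen q i 1 * (gen q i 0 * w)) + gen q i 2 * w := fun w => by
        rw [← mul_assoc, gen_xy, add_mul, smul_mul_assoc, mul_assoc]
      fin_cases a <;> simp only [Commute, SemiconjBy, cen, Fin.zero_eta, Fin.mk_one, Fin.reduceFinMk,
        mul_add, add_mul, mul_assoc, smul_mul_assoc, mul_smul_comm, h1, h2, h3, gen_xz, gen_yz,
        gen_xy] <;> match_scalars <;> field_simp <;> ring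
    · have := gen_comm q h
      exact ((this _ _).mul_left (this _ _)).add_left
        (((this _ _).mul_left ((this _ _).mul_left (this _ _))).smul_left _)

theorem cen_indep (i : Fin n) : LinearIndependent ℂ fun k : ℕ => cen q i ^ (k + 1) := by
  refine Module.End.eigenvectors_linearIndependent' (eul hq n) (fun k : ℕ => (4 * (k + 1) : ℂ))
    (fun a b h => by simpa using h) _ fun k => ⟨Module.End.mem_eigenspace_iff.2 ?_, ?_⟩
  · have h1 : ∀ x, eul hq n (cen q i * x) = (4 : ℂ) • (cen q i * x) + cen q i * eul hq n x := by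
      intro x
      simp only [cen, add_mul, smul_mul_assoc, mul_assoc, map_add, map_smul, eul_gen, mul_add,
        mul_smul_comm]
      match_scalars <;> simp <;> ring
    induction k with
    | zero => simpa [(hgr hq n).E_one] using h1 1
    | succ k ih =>
      rw [pow_succ', h1, ih, mul_smul_comm, ← add_smul]
      congr 1
      push_cast
      ring
  · have h1 : ∀ k, ∃ w, cen q i ^ k = gen q i 2 ^ (2 * k) + gen q i 1 * w := by
      intro k
      induction k with
      | zero => exact ⟨0, by simp⟩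
      | succ k ih =>
        obtain ⟨w, hw⟩ := ih
        refine ⟨w * (gen q i 2 * gen q i 2) + (1 - q * q) • (gen q i 2 * gen q i 0 * cen q i ^ k), ?_⟩
        rw [pow_succ', cen, add_mul, ← cen, ← (cen_comm hq i _).pow_left, hw]
        simp [mul_add, add_mul, pow_add, sq, mul_assoc, add_assoc]
    have h2 : ∀ k, gen q i 2 ^ k = mon q (Pi.single i (Pi.single 2 k)) := by
      intro k
      induction k with
      | zero => simp
      | succ k ih =>
        rw [pow_succ', ih, ← mon_up (by simp [al]) (by simp [be]), up]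
        rw [Pi.single_eq_same, ← Pi.single_add, Pi.single, Function.update_idem]
        rfl
    obtain ⟨w, hw⟩ := h1 (k + 1)
    have h3 : (pbw hq n).coord (Pi.single i (Pi.single 2 (2 * (k + 1)))) ∘ₗ
        LinearMap.mulLeft ℂ (gen q i 1) = 0 := (pbw hq n).ext fun κ => by
      simp only [LinearMap.comp_apply, LinearMap.mulLeft_apply, pbw_apply, gen_mon, be]
      rw [← pbw_apply hq]
      have : up κ i 1 ≠ Pi.single i (Pi.single 2 (2 * (k + 1))) := fun h => by
        simpa [up] using congrFun (congrFun h i) 1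
      simp [this]
    intro h
    have h4 := congrArg ((pbw hq n).coord (Pi.single i (Pi.single 2 (2 * (k + 1))))) hw
    rw [h, h2, ← pbw_apply hq, map_add, show (pbw hq n).coord _ (gen q i 1 * w) = 0 from
      LinearMap.congr_fun h3 w] at h4
    simp at h4

/-- matrix units -/
noncomputable def EE (a b : ℕ) : Module.End ℂ (ℕ → ℂ) :=
  LinearMap.single ℂ (fun _ => ℂ) a ∘ₗ LinearMap.proj b

omit hq in
theorem EE_mul (a b c e : ℕ) : EE a b * EE c e = if b = c then EE a e else 0 := by
  refine LinearMap.ext fun v => ?_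
  split_ifs with h <;> simp [EE, h]

theorem inf_top (m : ℕ) : Inf (eps q (m + 1)) (3 * m + 2) := by
  obtain ⟨f, d, hd, h1, h2⟩ := exists_fd q (n := m + 1)
    (fun i => ![EE (4 * i + 1) (4 * i + 2), 0, 0])
    (fun i => ![EE (4 * i) (4 * i + 1), EE (4 * i + 2) (4 * i + 3) + EE (4 * i + 3) (4 * i + 4),
      EE (4 * i + 1) (4 * i + 3)])
    (fun i j a b h => by
      have : (i : ℕ) ≠ j := fun h' => h (Fin.ext h')
      fin_cases a <;> fin_cases b <;>
        simp (disch := omega) [EE_mul, mul_add, add_mul, if_neg])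
    (fun i => by simp [EE_mul]) (fun i => by simp) (fun i => by simp [EE_mul, mul_add, add_mul])
  have h3 : ∀ i j, i < j → SS q j ≤ Rm d 0 (SS q i) := fun i j h => Submodule.span_le.2 (by
    rintro _ ⟨b, rfl⟩
    refine le_Rm q d 0 i fun a => ⟨gen_comm q h.ne _ _, ?_⟩
    have : (i : ℕ) < j := h
    fin_cases a <;> fin_cases b <;>
      simp (disch := omega) [h2, EE_mul, mul_add, add_mul, if_neg])
  obtain ⟨W, h4, c, hc, h5⟩ := chain d 0 (SS q) (om q) (om_good hq) (om_good hq (Fin.last m))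
    ((List.finRange m).map Fin.castSucc)
    (List.pairwise_map.2 ((List.pairwise_lt_finRange m).imp fun h => h3 _ _ (by simpa)))
    (by
      intro i hi
      obtain ⟨i, -, rfl⟩ := List.mem_map.1 hi
      exact h3 _ _ (Fin.castSucc_lt_last i))
  have h6 := h4 _ (SS_le q _) fun i _ => SS_le q i
  rw [List.length_map, List.length_finRange, add_comm 2] at h6
  have h7 : ∀ i, lift ℂ d (om q i) = EE (4 * i) (4 * i + 4) := fun i => by
    simp [om, w3, h2, EE_mul, mul_add, add_mul]
  have h8 : ∀ k t, ((List.range k).map fun i => EE (4 * i) (4 * i + 4)).prod * EE (4 * k) t =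
      EE 0 t := by
    intro k t
    induction k generalizing t with
    | zero => simp
    | succ k ih => rw [List.prod_range_succ, mul_assoc, EE_mul, if_pos (by omega), ih]
  have h9 : ((List.finRange m).map Fin.castSucc).map (fun i => lift ℂ d (om q i)) =
      (List.range m).map fun i => EE (4 * i) (4 * i + 4) := by
    rw [← List.map_coe_finRange_eq_range, List.map_map, List.map_map]
    exact List.map_congr_left fun i _ => h7 _
  rw [h9, h7, Fin.val_last, h8] at h5
  refine (hgr hq _).inf_top (htor hq (m + 1)) h6.mem (fun y hy h => ?_) h6.tt h6.bp _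
    (fun i => by simp [mem_Ap, cen]) (fun i a => (cen_comm hq 0 a).pow_left _) (cen_indep hq 0)
  have k1 : ∀ a v, f a v 0 = eps q _ a * v 0 := by
    intro a
    induction a using gen_ind with
    | hadd x y hx hy => simp [hx, hy, add_mul]
    | halg c => simp
    | hmul x y hx hy => simp [hx, hy, mul_assoc]
    | hg i a => fin_cases a <;> simp [h1, EE]
  have k2 : ∀ a, f a (Pi.single (4 * m + 4) 1) = eps q _ a • Pi.single (4 * m + 4) 1 := by
    intro a
    induction a using gen_ind with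
    | hadd x y hx hy => simp [hx, hy, add_smul]
    | halg c => simp
    | hmul x y hx hy => simp [hx, hy, mul_smul, smul_comm (eps q _ x)]
    | hg i a => fin_cases a <;> simp (disch := omega) [h1, EE, Pi.single_eq_of_ne]
  have := int_bp f d hd (LinearMap.proj 0 ∘ₗ LinearMap.applyₗ (Pi.single (4 * m + 4) 1))
    (fun a ha η => by simp [k1, (mem_Ap _).1 ha]) (fun a ha η => by simp [k2, (mem_Ap _).1 ha]) hy
  rw [h, h5] at this
  simp [EE, hc.ne'] at this

end Pool.Agent.P.MP_5bcbab_al
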