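import Pool.Agent.P.MP_5bcbab_al.Wt

namespace Pool.Agent.P.MP_5bcbab_al

open TensorAlgebra Module

set_option maxHeartbeats 400000

variable {A : Type} [Ring A] [Algebra ℂ A] (e : A →ₐ[ℂ] ℂ)

/-- vanishing of `Tor_k (A / R, ℂ)` for `k > r` -/
def PT (R : Submodule ℂ A) (r : ℕ) : Prop :=
  ∀ k, r < k → ∀ c ∈ GG e k, bp c ∈ Cn R ⊤ → ∃ x ∈ GG e (k + 1), c - bp x ∈ Cn R ⊤

theorem bp_one_cons {p : ℕ} {v : TT A} (hv : v ∈ Al ⊤ (p + 1)) :
    bp (ι ℂ 1 * v) = v - ι ℂ 1 * bp v := by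
  rw [bp_cons, cn_ext (f := mul1 1) (g := LinearMap.id) (fun a _ y _ => by simp) hv]
  rfl

theorem PT_bot : PT e ⊥ 0 := by
  intro k hk c hc h
  obtain ⟨k, rfl⟩ : ∃ k', k = k' + 1 := ⟨k - 1, by omega⟩
  rw [Cn, Submodule.map₂_bot_left, Submodule.mem_bot, GG_split e hc, map_add,
    bp_one_cons (Al_mono le_top _ (co_mem _ hc)), add_sub, sub_eq_add_neg, ← mul_neg] at h
  have := (sep e (add_mem (bp_mem e (rho_GG e hc)) (co_mem _ hc)) h).1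
  refine ⟨ι ℂ 1 * rho e c, cons_mem trivial (rho_GG e hc), ?_⟩
  rw [bp_one_cons (Al_mono le_top _ (rho_GG e hc)), eq_neg_of_add_eq_zero_left this]
  nth_rw 1 [GG_split e hc]
  simp

theorem mul1_Cn {R : Submodule ℂ A} {r : A} (hr : ∀ a, r * a ∈ R) (x : TT A) :
    mul1 r x ∈ Cn R ⊤ :=
  left_ind (P := fun x => mul1 r x ∈ Cn R ⊤) (fun x y hx hy => by simpa using add_mem hx hy)
    (fun c x hx => by simpa using Submodule.smul_mem _ c hx) (by simp)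
    (fun a x _ => by simpa using cons_mem (hr a) (U := ⊤) (x := x) trivial) x

theorem PT_step {R R' : Submodule ℂ A} {r : ℕ} {g : A} (h1 : ∀ x ∈ R, ∀ a, x * a ∈ R)
    (h2 : ∀ x ∈ R, g * x ∈ R) (h3 : ∀ a, g * a ∈ R → a ∈ R) (h4 : R ≤ R') (h5 : ∀ a, g * a ∈ R')
    (h6 : ∀ x ∈ R', ∃ a, x - g * a ∈ R) (H : PT e R r) : PT e R' (r + 1) := by
  intro k hk c hc h
  obtain ⟨k, rfl⟩ : ∃ k', k = k' + 2 := ⟨k - 2, by omega⟩
  obtain ⟨s, -, hs⟩ := exists_inner (R.mkQ ∘ₗ LinearMap.mulLeft ℂ g) ⊤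
  have s1 : ∀ x ∈ R', x - g * s (R.mkQ x) ∈ R := by
    intro x hx
    obtain ⟨a, ha⟩ := h6 x hx
    have e1 : R.mkQ x = R.mkQ (g * a) := (Submodule.Quotient.eq R).2 ha
    have := hs a trivial
    simp only [LinearMap.comp_apply, LinearMap.mulLeft_apply] at this
    rw [← e1] at this
    exact (Submodule.Quotient.eq R).1 this.symm
  have bpR : ∀ x ∈ Cn R ⊤, bp x ∈ Cn R ⊤ := fun x hx => cn_mem bp (fun a ha y _ => by
    rw [bp_cons]
    exact sub_mem (mul1_Cn (h1 a ha) y) (cons_mem ha trivial)) hx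
  have gR : ∀ x ∈ Cn R ⊤, mul1 g x ∈ Cn R ⊤ := fun x hx => cn_mem (mul1 g) (fun a ha y _ => by
    rw [mul1_cons]
    exact cons_mem (h2 a ha) trivial) hx
  have reg : ∀ y ∈ Cn ⊤ ⊤, mul1 g y ∈ Cn R ⊤ → y ∈ Cn R ⊤ := by
    intro y hy hg
    have k1 : y - fl (s ∘ₗ R.mkQ) (mul1 g y) ∈ Cn R ⊤ :=
      cn_mem (LinearMap.id - fl (s ∘ₗ R.mkQ) ∘ₗ mul1 g) (fun a _ z _ => by
        have : a - s (R.mkQ (g * a)) ∈ R := h3 _ (by rw [mul_sub]; exact s1 _ (h5 a))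
        simpa [sub_mul] using cons_mem this (U := ⊤) (x := z) trivial) hy
    have k2 : fl (s ∘ₗ R.mkQ) (mul1 g y) = 0 := cn_ext (g := 0) (fun a ha z _ => by
      simp [(Submodule.Quotient.mk_eq_zero R).2 ha]) hg
    simpa [k2] using k1
  have hu : fl (s ∘ₗ R.mkQ) (bp c) ∈ GG e (k + 1) :=
    fl_mem (R' := ⊤) (fun _ _ => trivial) (bp_mem_GG e hc)
  have k3 : bp c - mul1 g (fl (s ∘ₗ R.mkQ) (bp c)) ∈ Cn R ⊤ :=
    cn_mem (LinearMap.id - mul1 g ∘ₗ fl (s ∘ₗ R.mkQ)) (fun a ha z _ => by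
      simpa [sub_mul] using cons_mem (s1 a ha) (U := ⊤) (x := z) trivial) h
  have k4 := bpR _ k3
  rw [map_sub, bp_bp, zero_sub, neg_mem_iff, bp_mul1] at k4
  obtain ⟨x', hx', k5⟩ := H (k + 1) (by omega) _ hu
    (reg _ (Cn_mono le_rfl le_top (bp_mem_GG e hu)) k4)
  have hg : mul1 g x' ∈ GG e (k + 2) := cn_mem (mul1 g) (fun a _ y hy => by
    rw [mul1_cons]
    exact cons_mem trivial hy) hx'
  obtain ⟨x, hx, k6⟩ := H (k + 2) (by omega) (c - mul1 g x') (sub_mem hc hg) (by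
    have := add_mem k3 (gR _ k5)
    rw [map_sub (mul1 g)] at this
    simpa [bp_mul1] using this)
  refine ⟨x, hx, ?_⟩
  have := add_mem (Cn_mono h4 le_rfl k6) (mul1_Cn h5 x')
  rwa [sub_right_comm, sub_add_cancel] at this

/-- vanishing of `Tor_k (ℂ, ℂ)` for `k > N` -/
def Tor (N : ℕ) : Prop :=
  ∀ k, N < k → ∀ x ∈ Al (Ap e) k, bp x = 0 → ∃ y ∈ Al (Ap e) (k + 1), bp y = x

theorem tor_of_PT {N : ℕ} (H : PT e (Ap e) N) : Tor e N := by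
  intro k hk x hx h
  obtain ⟨k, rfl⟩ : ∃ k', k = k' + 1 := ⟨k - 1, by omega⟩
  obtain ⟨y, hy, h1⟩ := H (k + 1) hk (ι ℂ 1 * x) (cons_mem trivial hx) (by
    rw [bp_one_cons (Al_mono le_top _ hx), h, mul_zero, sub_zero]
    exact Cn_mono le_rfl le_top hx)
  have c0 : ∀ z ∈ Cn (Ap e) ⊤, co e.toLinearMap z = 0 := fun z hz =>
    cn_ext (g := 0) (fun a ha y _ => by simp [(mem_Ap e).1 ha]) hz
  have h2 : co e.toLinearMap (bp y) = -bp (co e.toLinearMap y) :=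
    cn_ext (f := co e.toLinearMap ∘ₗ bp) (g := -(bp ∘ₗ co e.toLinearMap)) (fun a _ z hz => by
      have : co e.toLinearMap (mul1 a z) = 0 := cn_ext (f := co e.toLinearMap ∘ₗ mul1 a) (g := 0)
        (fun b hb w _ => by simp [(mem_Ap e).1 hb]) hz
      simp [bp_cons, this]) hy
  have h3 := c0 _ h1
  rw [map_sub, h2] at h3
  refine ⟨-co e.toLinearMap y, neg_mem (co_mem _ hy), ?_⟩
  simp at h3
  rw [map_neg, eq_neg_of_add_eq_zero_left h3]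

variable {e} {J : Type} {m : Basis J ℂ A} {wt : J → ℕ} {E : A →ₗ[ℂ] A} (h : Gr e m wt E)
  {N : ℕ} (hT : Tor e N)
include h

theorem Gr.bb_tl {w k : ℕ} {x : TT A} (hx : x ∈ Cn (Zw m wt w) (Al (Ap e) (k + 1))) :
    bb x + tl bp x ∈ Cn (Zw m wt (w + 1)) ⊤ := by
  refine cn_mem (bb + tl bp) (fun a ha y hy => ?_) hx
  rw [LinearMap.add_apply, bb_apply, bp_cons, tl_cons, add_right_comm, sub_add_cancel]
  refine add_mem (cn_mem (mul1 a) (fun b hb z _ => ?_) hy) ?_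
  · rw [mul1_cons]
    exact cons_mem (h.mul_mem ha (h.Ap_eq.le hb)) trivial
  · refine al_mem (d0 ∘ₗ tt ∘ₗ cons a) (fun l hl hS => ?_) hy
    obtain rfl | ⟨l, c, rfl⟩ := l.eq_nil_or_concat'
    · simp at hl
    simp only [LinearMap.comp_apply, cons_apply, tm_append, tm_cons, tm_nil, mul_one]
    rw [← mul_assoc, tt_snoc]
    simpa using cons_mem (add_comm 1 w ▸ h.mul_mem (h.Ap_eq.le (hS c (by simp))) ha)
      (U := ⊤) trivial

include hT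

theorem Gr.step {w k : ℕ} (hk : N < k) {c : TT A} (hc : c ∈ Cn (Zw m wt w) (Al (Ap e) k))
    (hb : bb c ∈ Cn (Zw m wt (w + 1)) ⊤) : ∃ x ∈ Cn (Zw m wt w) (Al (Ap e) (k + 1)),
      c - bb x ∈ Cn (Zw m wt (w + 1)) (Al (Ap e) k) := by
  obtain ⟨k, rfl⟩ : ∃ k', k = k' + 1 := ⟨k - 1, by omega⟩
  obtain ⟨s, s1, s2⟩ := exists_inner bp (Al (Ap e) (k + 2))
  obtain ⟨s', s3, s4⟩ := exists_inner bp (Al (Ap e) (k + 1))
  have hx : tl s c ∈ Cn (Zw m wt w) (Al (Ap e) (k + 2)) := tl_mem (fun a _ => s1 a) hc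
  refine ⟨-tl s c, neg_mem hx, mem_Cn_inf (sub_mem (Cn_mono le_top le_rfl hc)
    (bb_mem_GG e (neg_mem (Cn_mono le_top le_rfl hx)))) ?_⟩
  have k1 : c - tl bp (tl s c) = tl ((LinearMap.id - bp ∘ₗ s) ∘ₗ s') (tl bp c) := by
    refine cn_ext (f := LinearMap.id - tl bp ∘ₗ tl s)
      (g := tl ((LinearMap.id - bp ∘ₗ s) ∘ₗ s') ∘ₗ tl bp) (fun a _ y hy => ?_) hc
    obtain ⟨z, hz, hz'⟩ := hT (k + 1) hk (y - s' (bp y)) (sub_mem hy (s3 _))
      (by rw [map_sub, s4 y hy, sub_self])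
    have := s2 z hz
    rw [hz', map_sub, map_sub] at this
    simp only [LinearMap.sub_apply, LinearMap.id_apply, LinearMap.comp_apply, tl_cons, ← mul_sub]
    congr 1
    rw [← sub_eq_zero] at this ⊢
    rw [← neg_eq_zero, ← this]
    abel
  have k2 : tl bp c ∈ Cn (Zw m wt (w + 1)) ⊤ := by simpa using sub_mem (h.bb_tl hc) hb
  have := add_mem (k1 ▸ tl_mem (U' := ⊤) (fun _ _ => trivial) k2) (h.bb_tl hx)
  rwa [add_comm (bb _), ← add_assoc, sub_add_cancel, ← sub_neg_eq_add, ← map_neg] at this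

theorem Gr.hh_hom {k d : ℕ} (hk : N < k) {c : TT A} (hc : c ∈ GG e k)
    (hd : Eu E c = (d : ℂ) • c) (hb : bb c = 0) :
    ∃ x ∈ GG e (k + 1), Eu E x = (d : ℂ) • x ∧ bb x = c := by
  suffices H : ∀ n w, d < w + n → ∀ c ∈ Cn (Zw m wt w) (Al (Ap e) k), Eu E c = (d : ℂ) • c →
      bb c = 0 → ∃ x ∈ GG e (k + 1), Eu E x = (d : ℂ) • x ∧ bb x = c from
    H (d + 1) 0 (by omega) c (by rwa [Zw_zero]) hd hb
  intro n
  induction n with
  | zero =>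
    intro w hw c hc hd _
    have := eig_zero h.Eu_tb
      (Cn_le_Zw w 0 (Cn_mono le_rfl (by rw [Zw_zero]; exact le_top) hc)) hd hw
    exact ⟨0, zero_mem _, by simp, by simp [this]⟩
  | succ n ih =>
    intro w hw c hc hd hb
    obtain ⟨x, hx, h1⟩ := h.step hT hk hc (hb ▸ zero_mem _)
    have h2 := (h.bas_Cn (w + 1) k).Qd_mem _ (wtl wt) d h1
    rw [map_sub, Qd_eig h.Eu_tb hd, if_pos rfl, Qd_comm h.Eu_tb h.Eu_bb] at h2
    obtain ⟨y, hy, h3, h4⟩ := ih (w + 1) (by omega) _ h2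
      (by rw [map_sub, hd, h.Eu_bb, U_Qd h.Eu_tb, map_smul, smul_sub])
      (by rw [map_sub, hb, bb_bb, sub_zero])
    refine ⟨y + Qd m.tensorAlgebra (wtl wt) d x, add_mem hy
      (Cn_mono le_top le_rfl ((h.bas_Cn w (k + 1)).Qd_mem _ (wtl wt) d hx)), ?_, ?_⟩
    · rw [map_add, h3, U_Qd h.Eu_tb, smul_add]
    · rw [map_add, h4, sub_add_cancel]

theorem Gr.hh {k : ℕ} (hk : N < k) {c : TT A} (hc : c ∈ GG e k) (hb : bb c = 0) :
    ∃ x ∈ GG e (k + 1), bb x = c := by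
  refine mem_of_Qd m.tensorAlgebra (wtl wt) (S := (GG e (k + 1)).map bb) fun d => ?_
  have hc' : c ∈ Cn (Zw m wt 0) (Al (Ap e) k) := by rwa [Zw_zero]
  obtain ⟨x, hx, -, h1⟩ := h.hh_hom hT hk
    (Cn_mono le_top le_rfl ((h.bas_Cn 0 k).Qd_mem _ (wtl wt) d hc')) (U_Qd h.Eu_tb d c)
    (by rw [← Qd_comm h.Eu_tb h.Eu_bb, hb, map_zero])
  exact ⟨x, hx, h1⟩

theorem Gr.connes {K : ℕ} (hK : N ≤ K + 1) {u : TT A} (hu : u ∈ Al (Ap e) (K + 2))
    (hb : Nn (K + 1) (bb u) = 0) :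
    ∃ y ∈ Al (Ap e) (K + 3), ∃ y' ∈ Al (Ap e) (K + 2), u = bb y + (y' - tt y') := by
  suffices H : ∀ d n K, N ≤ K + 1 → d < K + 2 * n → ∀ u ∈ Al (Ap e) (K + 2),
      Eu E u = (d : ℂ) • u → Nn (K + 1) (bb u) = 0 →
      ∃ y ∈ Al (Ap e) (K + 3), ∃ y' ∈ Al (Ap e) (K + 2), u = bb y + (y' - tt y') by
    have : u ∈ (Al (Ap e) (K + 3)).map bb ⊔ (Al (Ap e) (K + 2)).map (LinearMap.id - tt) := by
      refine mem_of_Qd m.tensorAlgebra (wtl wt) fun d => ?_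
      obtain ⟨y, hy, y', hy', h1⟩ := H d (d + 1) K hK (by omega) _
        ((h.bas_T _).Qd_mem _ (wtl wt) d hu) (U_Qd h.Eu_tb d u) (by
          rw [← Qd_comm h.Eu_tb h.Eu_bb, ← Qd_comm h.Eu_tb (Eu_Nn E _), hb, map_zero])
      rw [h1]
      exact Submodule.add_mem_sup ⟨y, hy, rfl⟩ ⟨y', hy', rfl⟩
    obtain ⟨_, ⟨y, hy, rfl⟩, _, ⟨y', hy', rfl⟩, h1⟩ := Submodule.mem_sup.1 this
    exact ⟨y, hy, y', hy', h1.symm⟩
  intro d n
  induction n with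
  | zero =>
    intro K _ hd u hu h1 _
    exact ⟨0, zero_mem _, 0, zero_mem _, by
      simpa using eig_zero h.Eu_tb (h.T_le_Zw _ hu) h1 (by omega)⟩
  | succ n ih =>
    intro K hK hd u hu h1 h2
    have hu' := Al_mono le_top _ hu
    obtain ⟨x, hx, h3, h4⟩ := h.hh_hom hT (k := K + 2) (d := d) (by omega)
      (cons_mem (a := 1) trivial (Nn_mem hu (K + 2)))
      (by rw [Eu_cons, h.E_one, Eu_Nn, h1]; simp)
      (by rw [bb_one_cons (Nn_mem hu' _), tt_Nn hu, ← Nn_bb hu', h2]; simp)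
    have hv := co_mem e.toLinearMap hx
    rw [bb_GG e hx, ← sub_eq_zero, add_sub_assoc, ← mul_sub] at h4
    obtain ⟨h5, h6⟩ := sep e (bb_GG_mem e hx) h4
    obtain ⟨y, hy, y', hy', h7⟩ := ih (K + 2) (by omega) (by omega) _ (rho_GG e hx)
      (by rw [h.Eu_rho, h3, map_smul])
      (by rw [eq_neg_of_add_eq_zero_left h5, map_neg, Nn_sub_tt hv, neg_zero])
    rw [h7, map_add, bb_bb, zero_add, bb_sub_tt] at h5
    obtain ⟨s, hs, h8⟩ := exists_Nn (add_mem (bp_mem e hy') hv) (by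
      rw [map_add, eq_comm, ← sub_eq_zero, ← h5]; abel)
    have h9 := congrArg bp h8
    rw [map_add, bp_bp, zero_add, ← Nn_bb (Al_mono le_top _ hs)] at h9
    obtain ⟨y'', hy'', h10⟩ := exists_sub_tt (add_mem hu (bb_mem e hs)) (by
      rw [map_add, h9, ← neg_eq_zero, ← h6]; abel)
    exact ⟨-s, neg_mem hs, y'', hy'', by rw [h10, map_neg]; abel⟩

theorem Gr.not_bdry {ω : TT A} (h1 : ∀ y ∈ Al (Ap e) (N + 1), bp y ≠ ω) {s : A} {x : TT A}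
    (hx : x ∈ GG e (N + 1)) (hb : bb x = ι ℂ s * ω) : s = 0 := by
  classical
  by_contra hs
  have ex : ∃ w, s ∉ Zw m wt (w + 1) := by
    obtain ⟨j, hj⟩ : ∃ j, m.repr s j ≠ 0 := by
      by_contra hc
      push Not at hc
      exact hs (m.ext_elem (by simpa using hc))
    exact ⟨wt j, fun hc => by have := (mem_Zw m wt).1 hc j hj; omega⟩
  have key : ∀ w ≤ Nat.find ex, ∃ x ∈ Cn (Zw m wt w) (Al (Ap e) (N + 1)), bb x = ι ℂ s * ω := by
    intro w hw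
    induction w with
    | zero => exact ⟨x, by rwa [Zw_zero], hb⟩
    | succ w ih =>
      obtain ⟨x, hx, hb⟩ := ih (by omega)
      obtain ⟨y, -, hy⟩ := h.step hT (Nat.lt_succ_self N) hx
        (hb ▸ cons_mem (not_not.1 (Nat.find_min ex (by omega : w < _))) trivial)
      exact ⟨_, hy, by rw [map_sub, bb_bb, sub_zero, hb]⟩
  obtain ⟨x, hx, hb⟩ := key _ le_rfl
  obtain ⟨φ, hφ, hφ'⟩ := Submodule.exists_dual_map_eq_bot_of_notMem (Nat.find_spec ex)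
    inferInstance
  have k1 : co φ (bb x + tl bp x) = 0 := cn_ext (g := 0) (fun a ha y _ => by
    have : φ a = 0 := (Submodule.mem_bot ℂ).1 (hφ' ▸ Submodule.mem_map_of_mem ha)
    simp [this]) (h.bb_tl hx)
  have k2 : co φ (tl bp x) = bp (co φ x) :=
    cn_ext (f := co φ ∘ₗ tl bp) (g := bp ∘ₗ co φ) (fun a _ y _ => by simp) hx
  rw [map_add, hb, co_cons, k2] at k1
  refine h1 (-(φ s)⁻¹ • co φ x) (Submodule.smul_mem _ _ (co_mem φ hx)) ?_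
  rw [map_smul, eq_neg_of_add_eq_zero_right k1, neg_smul_neg, inv_smul_smul₀ hφ]

end Pool.Agent.P.MP_5bcbab_al
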