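import Pool.Agent.P.MP_5bcbab_al.Nrm

namespace Pool.Agent.P.MP_5bcbab_al

open TensorAlgebra Module

set_option maxHeartbeats 400000

section diag
variable {V K : Type} [AddCommGroup V] [Module ℂ V] (β : Basis K ℂ V) (ω : K → ℕ)

/-- weight projector -/
noncomputable def Qd (d : ℕ) : V →ₗ[ℂ] V := β.constr ℂ fun k => if ω k = d then β k else 0

/-- weight filtration -/
def Zw (w : ℕ) : Submodule ℂ V := Submodule.span ℂ (β '' {k | w ≤ ω k})

theorem repr_Qd (d : ℕ) (x : V) (k : K) :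
    β.repr (Qd β ω d x) k = if ω k = d then β.repr x k else 0 := by
  classical
  have : β.coord k ∘ₗ Qd β ω d = if ω k = d then β.coord k else 0 := β.ext fun j => by
    by_cases h : j = k
    · subst h
      by_cases h' : ω j = d <;> simp [Qd, h']
    · by_cases h' : ω j = d <;> by_cases h'' : ω k = d <;> simp [Qd, h', h'', h]
  have := LinearMap.congr_fun this x
  split_ifs at this ⊢ <;> simpa using this

theorem mem_Zw {w : ℕ} {x : V} : x ∈ Zw β ω w ↔ ∀ k, β.repr x k ≠ 0 → w ≤ ω k := by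
  simp [Zw, Basis.mem_span_image, Set.subset_def]

theorem Zw_zero : Zw β ω 0 = ⊤ := eq_top_iff.2 fun _ _ => (mem_Zw β ω).2 fun _ _ => Nat.zero_le _

theorem Zw_anti {v w : ℕ} (h : v ≤ w) : Zw β ω w ≤ Zw β ω v := fun _ hx =>
  (mem_Zw β ω).2 fun k hk => h.trans ((mem_Zw β ω).1 hx k hk)

theorem mem_of_Qd {S : Submodule ℂ V} {x : V} (h : ∀ d, Qd β ω d x ∈ S) : x ∈ S := by
  classical
  have : x = ∑ d ∈ (β.repr x).support.image ω, Qd β ω d x := by
    refine β.ext_elem fun k => ?_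
    simp only [map_sum, Finsupp.finsetSum_apply, repr_Qd, Finset.sum_ite_eq]
    split_ifs with h1
    · rfl
    · by_contra h2
      exact h1 (Finset.mem_image_of_mem _ (Finsupp.mem_support_iff.2 h2))
  rw [this]
  exact sum_mem fun d _ => h d

/-- spanned by basis vectors -/
def Bas (S : Submodule ℂ V) : Prop := S ≤ Submodule.span ℂ (β '' {k | β k ∈ S})

theorem Bas.Qd_mem {S : Submodule ℂ V} (hS : Bas β S) (d : ℕ) {x : V} (hx : x ∈ S) :
    Qd β ω d x ∈ S := by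
  refine (Submodule.span_le (p := S.comap (Qd β ω d))).2 ?_ (hS hx)
  rintro _ ⟨k, hk, rfl⟩
  by_cases h : ω k = d <;> simp [Qd, h]
  exact hk

theorem bas_Zw (w : ℕ) : Bas β (Zw β ω w) :=
  Submodule.span_mono (Set.image_mono fun k hk => Submodule.subset_span ⟨k, hk, rfl⟩)

variable {β ω} {U : V →ₗ[ℂ] V} (hU : ∀ k, U (β k) = (ω k : ℂ) • β k)
include hU

theorem repr_U (x : V) (k : K) : β.repr (U x) k = ω k * β.repr x k := by
  classical
  have : β.coord k ∘ₗ U = (ω k : ℂ) • β.coord k := β.ext fun j => by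
    by_cases h : j = k
    · simp [hU, h]
    · simp [hU, h]
  simpa using LinearMap.congr_fun this x

theorem eig_repr {x : V} {d : ℕ} (hx : U x = (d : ℂ) • x) {k : K} (hk : β.repr x k ≠ 0) :
    ω k = d := by
  have := repr_U hU x k
  rw [hx, map_smul, Finsupp.smul_apply, smul_eq_mul] at this
  exact_mod_cast (mul_right_cancel₀ hk this).symm

theorem Qd_eig {x : V} {d : ℕ} (hx : U x = (d : ℂ) • x) (d' : ℕ) :
    Qd β ω d' x = if d = d' then x else 0 := by
  refine β.ext_elem fun k => ?_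
  rw [repr_Qd]
  by_cases hk : β.repr x k = 0
  · split_ifs <;> simp [hk]
  · rw [eig_repr hU hx hk]
    split_ifs <;> simp

theorem U_Qd (d : ℕ) (x : V) : U (Qd β ω d x) = (d : ℂ) • Qd β ω d x := by
  refine β.ext_elem fun k => ?_
  rw [repr_U hU, map_smul, Finsupp.smul_apply, repr_Qd]
  split_ifs with h <;> simp [h]

theorem Qd_comm {f : V →ₗ[ℂ] V} (hf : ∀ x, U (f x) = f (U x)) (d : ℕ) (x : V) :
    Qd β ω d (f x) = f (Qd β ω d x) := by
  have : Qd β ω d ∘ₗ f = f ∘ₗ Qd β ω d := β.ext fun k => by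
    rw [LinearMap.comp_apply, LinearMap.comp_apply, Qd_eig hU (hU k),
      Qd_eig hU (x := f (β k)) (d := ω k) (by rw [hf, hU, map_smul])]
    split_ifs <;> simp
  exact LinearMap.congr_fun this x

theorem eig_mem_Zw {x : V} {d : ℕ} (hx : U x = (d : ℂ) • x) : x ∈ Zw β ω d :=
  (mem_Zw β ω).2 fun _ hk => (eig_repr hU hx hk).ge

theorem eig_zero {x : V} {d w : ℕ} (hw : x ∈ Zw β ω w) (hx : U x = (d : ℂ) • x) (h : d < w) :
    x = 0 := by
  refine β.ext_elem fun k => ?_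
  by_contra hk
  have h1 := (mem_Zw β ω).1 hw k (by simpa using hk)
  have h2 := eig_repr hU hx (k := k) (by simpa using hk)
  omega

end diag

variable {A : Type} [Ring A] [Algebra ℂ A] {J : Type}

theorem tb_apply (m : Basis J ℂ A) (w : FreeMonoid J) :
    m.tensorAlgebra w = tm (w.toList.map m) := by
  have : m.tensorAlgebra w = (equivFreeAlgebra m).symm (FreeMonoid.lift (FreeAlgebra.ι ℂ) w) := by
    simp [Basis.tensorAlgebra, FreeAlgebra.basisFreeMonoid,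
      FreeAlgebra.equivMonoidAlgebraFreeMonoid]
  rw [this]
  clear this
  induction w using FreeMonoid.inductionOn' with
  | one => simp
  | of_mul j w ih => simp [ih]

/-- connected graded algebras with a homogeneous basis -/
structure Gr (e : A →ₐ[ℂ] ℂ) (m : Basis J ℂ A) (wt : J → ℕ) (E : A →ₗ[ℂ] A) : Prop where
  der : ∀ a b, E (a * b) = E a * b + a * E b
  eig : ∀ j, E (m j) = (wt j : ℂ) • m j
  pos : ∀ j, (wt j = 0 ∧ m j = 1) ∨ (0 < wt j ∧ e (m j) = 0)

/-- weight of a word -/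
def wtl (wt : J → ℕ) (w : FreeMonoid J) : ℕ := (w.toList.map wt).sum

/-- Euler operator -/
noncomputable def Eu (E : A →ₗ[ℂ] A) : TT A →ₗ[ℂ] TT A := recT 0 (cons ∘ₗ E) cons

@[simp] theorem Eu_one (E : A →ₗ[ℂ] A) : Eu E 1 = 0 := by simp [Eu]
@[simp] theorem Eu_cons (E : A →ₗ[ℂ] A) (a : A) (x : TT A) :
    Eu E (ι ℂ a * x) = ι ℂ (E a) * x + ι ℂ a * Eu E x := by simp [Eu]
@[simp] theorem Eu_ι (E : A →ₗ[ℂ] A) (a : A) : Eu E (ι ℂ a) = ι ℂ (E a) := by
  simpa using Eu_cons E a 1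

theorem Eu_mul (E : A →ₗ[ℂ] A) (x y : TT A) : Eu E (x * y) = Eu E x * y + x * Eu E y := by
  induction x using left_ind with
  | hadd x y hx hy => simp only [add_mul, map_add, hx, hy]; abel
  | hsmul r x hx => simp only [smul_mul_assoc, map_smul, hx, smul_add]
  | h1 => simp
  | hc a x hx => simp only [mul_assoc, Eu_cons, hx, mul_add, add_mul, add_assoc]

theorem Eu_gam (E : A →ₗ[ℂ] A) (x : TT A) : Eu E (gam x) = gam (Eu E x) :=
  left_ext (f := Eu E ∘ₗ gam.toLinearMap) (g := gam.toLinearMap ∘ₗ Eu E) (by simp)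
    (fun a x h => by simp at h; simp [h, add_comm]) x

theorem Eu_tau (E : A →ₗ[ℂ] A) (x : TT A) : Eu E (tau x) = tau (Eu E x) :=
  left_ext (f := Eu E ∘ₗ tau) (g := tau ∘ₗ Eu E) (by simp)
    (fun a x _ => by simp [Eu_mul, Eu_gam, add_comm]) x

theorem Eu_tt (E : A →ₗ[ℂ] A) (x : TT A) : Eu E (tt x) = tt (Eu E x) :=
  right_ext (f := Eu E ∘ₗ tt) (g := tt ∘ₗ Eu E) (by simp)
    (fun a x _ => by simp [Eu_mul, Eu_gam, tt_snoc, add_comm]) x

theorem Eu_Nn (E : A →ₗ[ℂ] A) (p : ℕ) (x : TT A) : Eu E (Nn p x) = Nn p (Eu E x) := by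
  rw [Nn_apply, Nn_apply, map_sum]
  refine Finset.sum_congr rfl fun i hi => ?_
  clear hi
  induction i with
  | zero => simp
  | succ i ih => simp only [pow_succ', Module.End.mul_apply, Eu_tau, ih]

variable {e : A →ₐ[ℂ] ℂ} {m : Basis J ℂ A} {wt : J → ℕ} {E : A →ₗ[ℂ] A} (h : Gr e m wt E)
include h

theorem Gr.Eu_mul1 (a : A) (x : TT A) : Eu E (mul1 a x) = mul1 (E a) x + mul1 a (Eu E x) :=
  left_ext (f := Eu E ∘ₗ mul1 a) (g := mul1 (E a) + mul1 a ∘ₗ Eu E) (by simp)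
    (fun b x _ => by simp [h.der, add_mul, add_assoc]) x

theorem Gr.Eu_bp (x : TT A) : Eu E (bp x) = bp (Eu E x) :=
  left_ext (f := Eu E ∘ₗ bp) (g := bp ∘ₗ Eu E) (by simp)
    (fun b x hx => by simp at hx; simp [bp_cons, h.Eu_mul1, hx]; abel) x

theorem Gr.Eu_bb (x : TT A) : Eu E (bb x) = bb (Eu E x) := by
  have : ∀ x, Eu E (d0 x) = d0 (Eu E x) := left_ext (f := Eu E ∘ₗ d0) (g := d0 ∘ₗ Eu E) (by simp)
    (fun b x _ => by simp [h.Eu_mul1])
  simp only [bb_apply, map_add, h.Eu_bp, this, Eu_tt]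

theorem Gr.E_one : E 1 = 0 := by simpa using h.der 1 1

theorem Gr.E_pr (a : A) : E (pr e a) = pr e (E a) := by
  have : E ∘ₗ pr e = pr e ∘ₗ E := m.ext fun j => by
    rcases h.pos j with ⟨h1, h2⟩ | ⟨h1, h2⟩
    · simp [h2, h.E_one]
    · simp [pr_apply, h2, h.eig]
  exact LinearMap.congr_fun this a

theorem Gr.Eu_rho (x : TT A) : Eu E (rho e x) = rho e (Eu E x) :=
  left_ext (f := Eu E ∘ₗ (rho e).toLinearMap) (g := (rho e).toLinearMap ∘ₗ Eu E) (by simp)
    (fun b x hx => by simp at hx; simp [h.E_pr, hx]) x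

theorem Gr.Eu_tb (w : FreeMonoid J) :
    Eu E (m.tensorAlgebra w) = (wtl wt w : ℂ) • m.tensorAlgebra w := by
  rw [tb_apply, wtl]
  induction w.toList with
  | nil => simp
  | cons j l ih => simp [ih, h.eig, add_smul]

theorem Gr.Ap_eq : Ap e = Zw m wt 1 := by
  refine le_antisymm (fun a ha => ?_) (Submodule.span_le.2 ?_)
  · rw [← pr_of_mem e ha]
    have : ∀ a ∈ Submodule.span ℂ (Set.range m), pr e a ∈ Zw m wt 1 := fun a ha =>
      (Submodule.span_le (p := (Zw m wt 1).comap (pr e))).2 (by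
        rintro _ ⟨j, rfl⟩
        rcases h.pos j with ⟨h1, h2⟩ | ⟨h1, h2⟩
        · simp [h2]
        · have : m j ∈ Zw m wt 1 := Submodule.subset_span ⟨j, h1, rfl⟩
          simpa [pr_of_mem e h2] using this) ha
    exact this a (by simp)
  · rintro _ ⟨j, hj, rfl⟩
    rcases h.pos j with ⟨h1, h2⟩ | ⟨h1, h2⟩
    · simp [h1] at hj
    · exact h2

theorem Gr.mul_mem {v w : ℕ} {a b : A} (ha : a ∈ Zw m wt v) (hb : b ∈ Zw m wt w) :
    a * b ∈ Zw m wt (v + w) := by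
  refine (Submodule.span_le (p := (Zw m wt (v + w)).comap (LinearMap.mulRight ℂ b))).2 ?_ ha
  rintro _ ⟨i, hi, rfl⟩
  refine (Submodule.span_le (p := (Zw m wt (v + w)).comap (LinearMap.mulLeft ℂ (m i)))).2 ?_ hb
  rintro _ ⟨j, hj, rfl⟩
  refine Zw_anti m wt (add_le_add hi hj) (eig_mem_Zw h.eig ?_)
  simp [h.der, h.eig, add_smul]

omit h in
theorem bas_Cn {R : Submodule ℂ A} {U : Submodule ℂ (TT A)} (hR : Bas m R)
    (hU : Bas m.tensorAlgebra U) : Bas m.tensorAlgebra (Cn R U) := by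
  refine (Cn_mono hR hU).trans ?_
  rw [Cn, Submodule.map₂_span_span]
  refine Submodule.span_mono ?_
  rintro _ ⟨_, ⟨j, hj, rfl⟩, _, ⟨w, hw, rfl⟩, rfl⟩
  have : m.tensorAlgebra (FreeMonoid.of j * w) = ι ℂ (m j) * m.tensorAlgebra w := by
    simp [tb_apply]
  exact ⟨_, by rw [Set.mem_ofPred_eq, this]; exact cons_mem hj hw, this⟩

theorem Gr.bas_T (p : ℕ) : Bas m.tensorAlgebra (Al (Ap e) p) := by
  induction p with
  | zero =>
    have : m.tensorAlgebra 1 = 1 := by simp [tb_apply]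
    exact Submodule.span_mono (by
      rintro _ rfl
      exact ⟨1, by simpa [this] using one_mem_Al _, this⟩)
  | succ p ih => exact bas_Cn (h.Ap_eq ▸ bas_Zw m wt 1) ih

theorem Gr.bas_Cn (w p : ℕ) : Bas m.tensorAlgebra (Cn (Zw m wt w) (Al (Ap e) p)) :=
  Pool.Agent.P.MP_5bcbab_al.bas_Cn (bas_Zw m wt w) (h.bas_T p)

omit h in
theorem Cn_le_Zw (v w : ℕ) : Cn (Zw m wt v) (Zw m.tensorAlgebra (wtl wt) w) ≤
    Zw m.tensorAlgebra (wtl wt) (v + w) := by
  rw [Cn, Zw, Zw, Submodule.map₂_span_span]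
  refine Submodule.span_mono ?_
  rintro _ ⟨_, ⟨j, hj, rfl⟩, _, ⟨l, hl, rfl⟩, rfl⟩
  exact ⟨FreeMonoid.of j * l, by simpa [wtl] using add_le_add hj hl, by simp [tb_apply]⟩

theorem Gr.T_le_Zw (p : ℕ) : Al (Ap e) p ≤ Zw m.tensorAlgebra (wtl wt) p := by
  induction p with
  | zero => simp [Zw_zero]
  | succ p ih => exact (Cn_mono h.Ap_eq.le ih).trans (add_comm 1 p ▸ Cn_le_Zw 1 p)

end Pool.Agent.P.MP_5bcbab_al
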